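import Pool.Agent.Lib.MP_245eb3_an.Main

/-!
Concrete classes of tame compact spaces: spaces with a closed metrizable subset whose complement
is scattered, and countable products of scattered and of metrizable compact spaces.
-/

set_option autoImplicit false

open Set Filter Topology TopologicalSpace

namespace Pool.Agent.Lib.WeakBorel

noncomputable section

universe u v w

/-- Partition of unity subordinate to a finite `δ`-net, interpolating at the net. -/
theorem exists_pu (M : Type u) [MetricSpace M] [CompactSpace M] {δ : ℝ} (hδ : 0 < δ) :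
    ∃ (s : Finset M) (φ : M → C(M, ℝ)), (∀ x, ∑ j ∈ s, φ j x = 1) ∧
      (∀ j ∈ s, ∀ x, 0 ≤ φ j x) ∧ (∀ j ∈ s, ∀ x, φ j x ≠ 0 → dist x j < δ) ∧
      (∀ i ∈ s, φ i i = 1) ∧ (∀ i ∈ s, ∀ j ∈ s, i ≠ j → φ j i = 0) := by
  classical
  obtain ⟨t, -, htf, htc⟩ := finite_cover_balls_of_compact (isCompact_univ (X := M)) hδ
  set s := htf.toFinset with hs
  set u : M → M → ℝ := fun j x => max 0 (δ - dist x j) * ∏ i ∈ s.erase j, dist x i with hu
  have hucont : ∀ j, Continuous (u j) := by
    intro j
    rw [hu]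
    fun_prop
  have hu0 : ∀ j x, 0 ≤ u j x := fun j x =>
    mul_nonneg (le_max_left _ _) (Finset.prod_nonneg fun _ _ => dist_nonneg)
  have hself : ∀ j ∈ s, 0 < u j j := by
    intro j _
    simp only [hu]
    apply mul_pos
    · rw [dist_self, sub_zero]
      exact lt_max_of_lt_right hδ
    · apply Finset.prod_pos
      intro i hi
      rw [Finset.mem_erase] at hi
      exact dist_pos.mpr hi.1.symm
  have hother : ∀ i ∈ s, ∀ j ∈ s, i ≠ j → u j i = 0 := by
    intro i hi j _ hij
    simp only [hu]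
    rw [Finset.prod_eq_zero (Finset.mem_erase.mpr ⟨hij, hi⟩) (dist_self i), mul_zero]
  set U : M → ℝ := fun x => ∑ j ∈ s, u j x with hU
  have hUcont : Continuous U := continuous_finsetSum s fun j _ => hucont j
  have hUpos : ∀ x, 0 < U x := by
    intro x
    have hex : ∃ j ∈ s, 0 < u j x := by
      by_cases hx : x ∈ s
      · exact ⟨x, hx, hself x hx⟩
      · have h1 := htc (mem_univ x)
        simp only [mem_iUnion, Metric.mem_ball, exists_prop] at h1
        obtain ⟨j, hj, hjx⟩ := h1
        refine ⟨j, by rw [hs, Set.Finite.mem_toFinset]; exact hj, ?_⟩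
        simp only [hu]
        apply mul_pos
        · exact lt_max_of_lt_right (by linarith)
        · apply Finset.prod_pos
          intro i hi
          rw [Finset.mem_erase] at hi
          apply dist_pos.mpr
          rintro rfl
          exact hx hi.2
    obtain ⟨j, hj, hjx⟩ := hex
    exact lt_of_lt_of_le hjx (Finset.single_le_sum (f := fun j => u j x)
      (fun i _ => hu0 i x) hj)
  refine ⟨s, fun j => ⟨fun x => u j x / U x,
    (hucont j).div hUcont fun x => (hUpos x).ne'⟩, ?_, ?_, ?_, ?_, ?_⟩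
  · intro x
    simp only [ContinuousMap.coe_mk]
    rw [← Finset.sum_div]
    exact div_self (hUpos x).ne'
  · intro j _ x
    exact div_nonneg (hu0 j x) (hUpos x).le
  · intro j _ x hne
    simp only [ContinuousMap.coe_mk] at hne
    by_contra hcon
    rw [not_lt] at hcon
    apply hne
    have : max 0 (δ - dist x j) = 0 := max_eq_left (by linarith)
    simp only [hu]
    rw [this, zero_mul, zero_div]
  · intro i hi
    simp only [ContinuousMap.coe_mk]
    have : U i = u i i := by
      simp only [hU]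
      apply Finset.sum_eq_single_of_mem i hi
      intro j hj hji
      exact hother i hi j hj hji.symm
    rw [this]
    exact div_self (hself i hi).ne'
  · intro i hi j hj hij
    simp only [ContinuousMap.coe_mk]
    rw [hother i hi j hj hij, zero_div]

theorem pu_approx {M : Type u} [MetricSpace M] {V : Type v}
    [NormedAddCommGroup V] [NormedSpace ℝ V] {δ ε : ℝ} {s : Finset M} {φ : M → C(M, ℝ)}
    (h1 : ∀ x, ∑ j ∈ s, φ j x = 1) (h2 : ∀ j ∈ s, ∀ x, 0 ≤ φ j x)
    (h3 : ∀ j ∈ s, ∀ x, φ j x ≠ 0 → dist x j < δ) {f : M → V}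
    (hf : ∀ x y, dist x y < δ → ‖f x - f y‖ ≤ ε) (x : M) :
    ‖∑ j ∈ s, φ j x • f j - f x‖ ≤ ε := by
  have h4 : ∑ j ∈ s, φ j x • f j - f x = ∑ j ∈ s, φ j x • (f j - f x) := by
    simp only [smul_sub, Finset.sum_sub_distrib]
    rw [← Finset.sum_smul, h1, one_smul]
  rw [h4]
  calc ‖∑ j ∈ s, φ j x • (f j - f x)‖ ≤ ∑ j ∈ s, ‖φ j x • (f j - f x)‖ := norm_sum_le _ _
    _ ≤ ∑ j ∈ s, φ j x * ε := by
        apply Finset.sum_le_sum
        intro j hj
        rw [norm_smul, Real.norm_eq_abs, abs_of_nonneg (h2 j hj x)]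
        by_cases h0 : φ j x = 0
        · rw [h0, zero_mul, zero_mul]
        · apply mul_le_mul_of_nonneg_left _ (h2 j hj x)
          rw [norm_sub_rev]
          exact hf x j (h3 j hj x h0)
    _ = ε := by rw [← Finset.sum_mul, h1, one_mul]

/-- `K` has a closed metrizable subset with scattered complement. -/
def ScatteredByMetrizable (K : Type u) [TopologicalSpace K] : Prop :=
  ∃ F : Set K, IsClosed F ∧ MetrizableSpace F ∧ ScatteredSet Fᶜ

/-- `K` is a countable product of compact spaces each of which is metrizable or scattered. -/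
def CountableProduct (K : Type u) [TopologicalSpace K] : Prop :=
  ∃ (X : ℕ → Type u) (_ : ∀ n, TopologicalSpace (X n)),
    (∀ n, CompactSpace (X n) ∧ T2Space (X n) ∧
      (MetrizableSpace (X n) ∨ ScatteredSet (univ : Set (X n)))) ∧
    Nonempty (K ≃ₜ (∀ n, X n))

section ClassOne

variable {K : Type u} [TopologicalSpace K] [CompactSpace K] [T2Space K]

theorem scattered_finite {X : Type v} [TopologicalSpace X] [T2Space X] {T : Set X}
    (hT : T.Finite) : ScatteredSet T := by
  intro A hA hne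
  obtain ⟨x, hx⟩ := hne
  have hfin : (A \ {x}).Finite := (hT.subset hA).subset (fun y hy => hy.1)
  refine ⟨x, hx, (A \ {x})ᶜ, hfin.isClosed.isOpen_compl, ?_⟩
  ext y
  simp only [mem_inter_iff, mem_compl_iff, Set.mem_sdiff, mem_singleton_iff, not_and, not_not]
  constructor
  · rintro ⟨h1, h2⟩
    exact h1 h2
  · rintro rfl
    exact ⟨fun _ => rfl, hx⟩

theorem tame_of_scatteredByMetrizable (h : ScatteredByMetrizable K) : Tame K := by
  classical
  obtain ⟨F, hF, hFm, hS⟩ := h
  let _ : MetricSpace F := metrizableSpaceMetric F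
  have _ : CompactSpace F := isCompact_iff_compactSpace.mp hF.isCompact
  have hpos : ∀ n : ℕ, (0 : ℝ) < 1 / ((n : ℝ) + 1) := fun n => by positivity
  choose s φ hφ1 hφ0 hφd hφs hφo using fun n : ℕ => exists_pu F (hpos n)
  choose ψ hψ using fun (n : ℕ) (j : F) => ContinuousMap.exists_restrict_eq hF (φ n j)
  have hψa : ∀ n j (x : F), ψ n j x = φ n j x := by
    intro n j x
    have := congrArg (fun g : C(F, ℝ) => g x) (hψ n j)
    simpa using this
  let L : ℕ → Set K := fun n => Subtype.val '' (s n : Set F)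
  have hmem : ∀ n (j : {j // j ∈ s n}), (j.1 : K) ∈ L n := fun n j => ⟨j.1, j.2, rfl⟩
  let E : ∀ n, C(L n, ℝ) →L[ℝ] C(K, ℝ) := fun n =>
    ∑ j : {j // j ∈ s n}, (ContinuousMap.evalCLM ℝ (⟨(j.1 : K), hmem n j⟩ : L n)).smulRight
      (ψ n j.1)
  have hE : ∀ n (y : C(L n, ℝ)) (k : K), E n y k =
      ∑ j : {j // j ∈ s n}, y ⟨(j.1 : K), hmem n j⟩ * ψ n j.1 k := by
    intro n y k
    simp only [E, _root_.sum_apply, ContinuousLinearMap.smulRight_apply,
      ContinuousMap.evalCLM_apply]
    rw [ContinuousMap.sum_apply]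
    rfl
  refine ⟨F, L, E, hF, hS, ?_, ?_, ?_⟩
  · intro n
    have hfin : (L n).Finite := (Finset.finite_toSet (s n)).image _
    refine ⟨hfin.isClosed, ?_, scattered_finite hfin⟩
    rintro _ ⟨j, _, rfl⟩
    exact j.2
  · rintro n y ⟨_, j, hj, rfl⟩
    rw [hE]
    rw [Finset.sum_eq_single (⟨j, hj⟩ : {j // j ∈ s n})]
    · rw [hψa, hφs n j hj, mul_one]
    · intro i _ hij
      rw [hψa, hφo n j hj i.1 i.2 (fun h => hij (Subtype.ext h.symm)), mul_zero]
    · intro h
      exact absurd (Finset.mem_univ _) h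
  · intro x ε hε
    obtain ⟨δ, hδ, hunif⟩ := Metric.uniformContinuous_iff.mp
      (CompactSpace.uniformContinuous_of_continuous (x.restrict F).continuous) ε hε
    obtain ⟨n, hn⟩ := exists_nat_one_div_lt hδ
    refine ⟨n, ?_⟩
    intro k hk
    have h1 := pu_approx (f := fun y : F => x y) (ε := ε) (hφ1 n) (hφ0 n) (hφd n) (by
      intro y z hyz
      have := hunif (hyz.trans hn)
      rw [← dist_eq_norm]
      exact this.le) ⟨k, hk⟩
    rw [Real.norm_eq_abs] at h1
    have h2 : E n (x.restrict (L n)) k = ∑ j ∈ s n, φ n j ⟨k, hk⟩ • x j := by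
      rw [hE, ← Finset.sum_coe_sort (s n)]
      apply Finset.sum_congr rfl
      intro j _
      have := hψa n j.1 ⟨k, hk⟩
      simp only at this
      rw [this, ContinuousMap.restrict_apply, smul_eq_mul, mul_comm]
    rw [h2]
    exact h1

end ClassOne

section ClassTwo

variable {q : ℕ → Prop} {X : {i : ℕ // q i} → Type u} [∀ i, TopologicalSpace (X i)]

open Classical in
/-- Replace the coordinates of index `≥ n` by those of `b`. -/
def trunc (b : ∀ i, X i) (n : ℕ) (p : ∀ i, X i) : ∀ i, X i :=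
  fun i => if i.val < n then p i else b i

omit [∀ i, TopologicalSpace (X i)] in
theorem trunc_of_lt (b : ∀ i, X i) {n : ℕ} (p : ∀ i, X i) {i : {i : ℕ // q i}}
    (h : i.val < n) : trunc b n p i = p i := by
  unfold trunc
  rw [if_pos h]

omit [∀ i, TopologicalSpace (X i)] in
theorem trunc_of_ge (b : ∀ i, X i) {n : ℕ} (p : ∀ i, X i) {i : {i : ℕ // q i}}
    (h : n ≤ i.val) : trunc b n p i = b i := by
  unfold trunc
  rw [if_neg (by omega)]

theorem trunc_continuous (b : ∀ i, X i) (n : ℕ) : Continuous (trunc b n) := by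
  apply continuous_pi
  intro i
  by_cases h : i.val < n
  · have : (fun p : ∀ i, X i => trunc b n p i) = fun p => p i := by
      funext p
      exact trunc_of_lt b p h
    rw [this]
    exact continuous_apply i
  · have : (fun p : ∀ i, X i => trunc b n p i) = fun _ => b i := by
      funext p
      exact trunc_of_ge b p (not_lt.mp h)
    rw [this]
    exact continuous_const

/-- The points whose coordinates of index `≥ n` are those of `b`. -/
def TSet (b : ∀ i, X i) (n : ℕ) : Set (∀ i, X i) := {p | ∀ i, n ≤ i.val → p i = b i}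

theorem trunc_mem (b : ∀ i, X i) (n : ℕ) (p : ∀ i, X i) : trunc b n p ∈ TSet b n :=
  fun _ hi => trunc_of_ge b p hi

theorem trunc_eq_self {b : ∀ i, X i} {n : ℕ} {p : ∀ i, X i} (hp : p ∈ TSet b n) :
    trunc b n p = p := by
  funext i
  by_cases h : i.val < n
  · exact trunc_of_lt b p h
  · rw [trunc_of_ge b p (not_lt.mp h), hp i (not_lt.mp h)]

theorem isClosed_TSet [∀ i, T2Space (X i)] (b : ∀ i, X i) (n : ℕ) : IsClosed (TSet b n) := by
  have : TSet b n = ⋂ i, ⋂ (_ : n ≤ i.val), {p : ∀ i, X i | p i = b i} := by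
    ext p
    simp [TSet]
  rw [this]
  apply isClosed_iInter
  intro i
  apply isClosed_iInter
  intro _
  exact isClosed_eq (continuous_apply i) continuous_const

theorem scattered_TSet (hX : ∀ i, ScatteredSet (univ : Set (X i))) (b : ∀ i, X i) (n : ℕ) :
    ScatteredSet (TSet b n) := by
  induction n with
  | zero =>
    intro A hA hne
    obtain ⟨x, hx⟩ := hne
    refine ⟨x, hx, univ, isOpen_univ, ?_⟩
    rw [univ_inter]
    ext y
    simp only [mem_singleton_iff]
    constructor
    · intro hy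
      funext i
      rw [hA hy i (Nat.zero_le _), hA hx i (Nat.zero_le _)]
    · rintro rfl
      exact hx
  | succ n ih =>
    by_cases hqn : q n
    · intro A hA hne
      obtain ⟨y, ⟨a₀, ha₀, rfl⟩, U, hU, hUy⟩ := ih (trunc b n '' A)
        (by rintro _ ⟨a, -, rfl⟩; exact trunc_mem b n a) (hne.image _)
      set i₀ : {i : ℕ // q i} := ⟨n, hqn⟩ with hi₀
      obtain ⟨c, ⟨a₁, ⟨ha₁, ha₁'⟩, rfl⟩, V, hV, hVc⟩ := hX i₀
        ((fun p : ∀ i, X i => p i₀) '' {a | a ∈ A ∧ trunc b n a = trunc b n a₀})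
        (subset_univ _) ⟨a₀ i₀, a₀, ⟨ha₀, rfl⟩, rfl⟩
      refine ⟨a₁, ha₁, trunc b n ⁻¹' U ∩ (fun p : ∀ i, X i => p i₀) ⁻¹' V,
        (hU.preimage (trunc_continuous b n)).inter (hV.preimage (continuous_apply i₀)), ?_⟩
      ext p
      simp only [mem_inter_iff, mem_preimage, mem_singleton_iff]
      constructor
      · rintro ⟨⟨hpU, hpV⟩, hpA⟩
        have h1 : trunc b n p = trunc b n a₀ := by
          have : trunc b n p ∈ U ∩ trunc b n '' A := ⟨hpU, p, hpA, rfl⟩
          rw [hUy] at this
          exact this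
        have h2 : p i₀ = a₁ i₀ := by
          have : p i₀ ∈ V ∩ ((fun p : ∀ i, X i => p i₀) ''
              {a | a ∈ A ∧ trunc b n a = trunc b n a₀}) := ⟨hpV, p, ⟨hpA, h1⟩, rfl⟩
          rw [hVc] at this
          exact this
        funext i
        rcases lt_trichotomy i.val n with h | h | h
        · have h3 : trunc b n p i = trunc b n a₁ i := by rw [h1, ha₁']
          rw [trunc_of_lt b p h, trunc_of_lt b a₁ h] at h3
          exact h3
        · have : i = i₀ := Subtype.ext h
          rw [this]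
          exact h2
        · rw [hA hpA i h, hA ha₁ i h]
      · rintro rfl
        refine ⟨⟨?_, ?_⟩, ha₁⟩
        · have : trunc b n p ∈ U ∩ trunc b n '' A := by
            rw [hUy, ha₁']
            rfl
          exact this.1
        · have : p i₀ ∈ V ∩ ((fun p : ∀ i, X i => p i₀) ''
              {a | a ∈ A ∧ trunc b n a = trunc b n a₀}) := by
            rw [hVc]
            rfl
          exact this.1
    · apply ih.mono
      intro p hp i hi
      apply hp i
      have : i.val ≠ n := by
        intro h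
        apply hqn
        rw [← h]
        exact i.2
      omega

theorem scattered_prod {Y : Type v} {Z : Type w} [TopologicalSpace Y] [TopologicalSpace Z]
    {S : Set Y} {T : Set Z} (hS : ScatteredSet S) (hT : ScatteredSet T) :
    ScatteredSet (S ×ˢ T) := by
  intro A hA hne
  obtain ⟨y, ⟨a₀, ha₀, rfl⟩, U, hU, hUy⟩ := hS (Prod.fst '' A)
    (by rintro _ ⟨a, ha, rfl⟩; exact (hA ha).1) (hne.image _)
  obtain ⟨z, ⟨a₁, ⟨ha₁, ha₁'⟩, rfl⟩, V, hV, hVz⟩ := hT (Prod.snd '' {a | a ∈ A ∧ a.1 = a₀.1})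
    (by rintro _ ⟨a, ha, rfl⟩; exact (hA ha.1).2) ⟨a₀.2, a₀, ⟨ha₀, rfl⟩, rfl⟩
  refine ⟨a₁, ha₁, U ×ˢ V, hU.prod hV, ?_⟩
  ext p
  simp only [mem_inter_iff, mem_prod, mem_singleton_iff]
  constructor
  · rintro ⟨⟨hpU, hpV⟩, hpA⟩
    have h1 : p.1 = a₀.1 := by
      have : p.1 ∈ U ∩ Prod.fst '' A := ⟨hpU, p, hpA, rfl⟩
      rw [hUy] at this
      exact this
    have h2 : p.2 = a₁.2 := by
      have : p.2 ∈ V ∩ Prod.snd '' {a | a ∈ A ∧ a.1 = a₀.1} := ⟨hpV, p, ⟨hpA, h1⟩, rfl⟩
      rw [hVz] at this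
      exact this
    exact Prod.ext (h1.trans ha₁'.symm) h2
  · rintro rfl
    refine ⟨⟨?_, ?_⟩, ha₁⟩
    · have : p.1 ∈ U ∩ Prod.fst '' A := by rw [hUy, ha₁']; rfl
      exact this.1
    · have : p.2 ∈ V ∩ Prod.snd '' {a | a ∈ A ∧ a.1 = a₀.1} := by rw [hVz]; rfl
      exact this.1

variable [∀ i, CompactSpace (X i)] [∀ i, T2Space (X i)]

omit [∀ i, T2Space (X i)] in
theorem tendstoUniformly_trunc {V : Type v} [NormedAddCommGroup V] (b : ∀ i, X i)
    (g : (∀ i, X i) → V) (hg : Continuous g) :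
    TendstoUniformly (fun n p => g (trunc b n p)) g atTop := by
  rw [← tendstoLocallyUniformly_iff_tendstoUniformly_of_compactSpace,
    tendstoLocallyUniformly_iff_forall_tendsto]
  intro p
  have h1 : Tendsto (fun y : ℕ × (∀ i, X i) => g y.2) (atTop ×ˢ 𝓝 p) (𝓝 (g p)) :=
    (hg.tendsto p).comp tendsto_snd
  have h2 : Tendsto (fun y : ℕ × (∀ i, X i) => g (trunc b y.1 y.2)) (atTop ×ˢ 𝓝 p)
      (𝓝 (g p)) := by
    refine (hg.tendsto p).comp ?_
    rw [tendsto_pi_nhds]
    intro i
    have h3 : (fun y : ℕ × (∀ i, X i) => trunc b y.1 y.2 i) =ᶠ[atTop ×ˢ 𝓝 p]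
        fun y => y.2 i := by
      have h4 : ∀ᶠ y : ℕ × (∀ i, X i) in atTop ×ˢ 𝓝 p, i.val < y.1 :=
        tendsto_fst.eventually (eventually_gt_atTop i.val)
      filter_upwards [h4] with y hy
      exact trunc_of_lt b y.2 hy
    exact (((continuous_apply i).tendsto p).comp tendsto_snd).congr' h3.symm
  exact (h1.prodMk_nhds h2).mono_right (nhds_le_uniformity (g p))

theorem tame_prod {M : Type v} [TopologicalSpace M] [CompactSpace M] [MetrizableSpace M]
    (hX : ∀ i, ScatteredSet (univ : Set (X i))) (b : ∀ i, X i) :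
    Tame (M × (∀ i, X i)) := by
  classical
  let _ : MetricSpace M := metrizableSpaceMetric M
  have hpos : ∀ n : ℕ, (0 : ℝ) < 1 / ((n : ℝ) + 1) := fun n => by positivity
  choose s φ hφ1 hφ0 hφd hφs hφo using fun n : ℕ => exists_pu M (hpos n)
  let L : ℕ → Set (M × (∀ i, X i)) := fun n => (s n : Set M) ×ˢ TSet b n
  let ψ : ∀ n, {j // j ∈ s n} → C(M × (∀ i, X i), L n) := fun n j =>
    ⟨fun k => ⟨(j.1, trunc b n k.2), ⟨j.2, trunc_mem b n k.2⟩⟩, by
      apply Continuous.subtype_mk
      exact continuous_const.prodMk ((trunc_continuous b n).comp continuous_snd)⟩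
  let E : ∀ n, C(L n, ℝ) →L[ℝ] C(M × (∀ i, X i), ℝ) := fun n =>
    ∑ j : {j // j ∈ s n}, (ContinuousLinearMap.mul ℝ C(M × (∀ i, X i), ℝ)
      ((φ n j.1).comp ContinuousMap.fst)).comp (ContinuousMap.compCLM ℝ ℝ (ψ n j))
  have hE : ∀ n (y : C(L n, ℝ)) (k : M × (∀ i, X i)), E n y k =
      ∑ j : {j // j ∈ s n}, φ n j.1 k.1 *
        y ⟨(j.1, trunc b n k.2), ⟨j.2, trunc_mem b n k.2⟩⟩ := by
    intro n y k
    simp only [E, _root_.sum_apply]
    rw [ContinuousMap.sum_apply]
    rfl
  refine ⟨univ, L, E, isClosed_univ, ?_, ?_, ?_, ?_⟩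
  · rw [compl_univ]
    intro A hA hne
    rw [subset_empty_iff] at hA
    exact absurd hne (by rw [hA]; exact Set.not_nonempty_empty)
  · intro n
    refine ⟨(Finset.finite_toSet (s n)).isClosed.prod (isClosed_TSet b n), subset_univ _, ?_⟩
    exact scattered_prod (scattered_finite (Finset.finite_toSet (s n))) (scattered_TSet hX b n)
  · rintro n y ⟨⟨j, p⟩, hj, hp⟩
    rw [hE]
    have hj' : j ∈ s n := hj
    rw [Finset.sum_eq_single (⟨j, hj'⟩ : {j // j ∈ s n})]
    · simp only
      rw [hφs n j hj', one_mul]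
      congr 2
      exact Prod.ext rfl (trunc_eq_self hp)
    · intro i _ hij
      simp only
      rw [hφo n j hj' i.1 i.2 (fun h => hij (Subtype.ext h.symm)), zero_mul]
    · intro h
      exact absurd (Finset.mem_univ _) h
  · intro x ε hε
    -- the two curried functions
    let f : C(M, C((∀ i, X i), ℝ)) := ContinuousMap.curry x
    let g : C((∀ i, X i), C(M, ℝ)) :=
      ContinuousMap.curry (x.comp ⟨Prod.swap, continuous_swap⟩)
    obtain ⟨δ, hδ, hunif⟩ := Metric.uniformContinuous_iff.mp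
      (CompactSpace.uniformContinuous_of_continuous f.continuous) (ε / 2) (by positivity)
    obtain ⟨n₁, hn₁⟩ := exists_nat_one_div_lt hδ
    have h1 := Metric.tendstoUniformly_iff.mp (tendstoUniformly_trunc b g g.continuous)
      (ε / 2) (by positivity)
    obtain ⟨n₂, hn₂⟩ := eventually_atTop.mp h1
    set n := max n₁ n₂ with hn
    refine ⟨n, ?_⟩
    rintro ⟨m, p⟩ -
    have hnδ : 1 / ((n : ℝ) + 1) < δ := by
      refine lt_of_le_of_lt ?_ hn₁
      have : (n₁ : ℝ) ≤ n := by exact_mod_cast le_max_left n₁ n₂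
      gcongr
    have h2 := pu_approx (f := fun y : M => f y) (ε := ε / 2) (hφ1 n) (hφ0 n) (hφd n) (by
      intro y z hyz
      have := hunif (hyz.trans hnδ)
      rw [← dist_eq_norm]
      exact this.le) m
    have h3 : |E n (x.restrict (L n)) (m, p) - x (m, trunc b n p)| ≤ ε / 2 := by
      have h4 : E n (x.restrict (L n)) (m, p) - x (m, trunc b n p) =
          (∑ j ∈ s n, φ n j m • f j - f m) (trunc b n p) := by
        rw [hE, ContinuousMap.sub_apply, ContinuousMap.sum_apply, ← Finset.sum_coe_sort (s n)]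
        rfl
      rw [h4, ← Real.norm_eq_abs]
      exact (ContinuousMap.norm_coe_le_norm _ _).trans h2
    have h5 : |x (m, trunc b n p) - x (m, p)| ≤ ε / 2 := by
      have h6 := hn₂ n (le_max_right _ _) p
      rw [dist_comm, dist_eq_norm] at h6
      have h7 : x (m, trunc b n p) - x (m, p) = (g (trunc b n p) - g p) m := rfl
      rw [h7, ← Real.norm_eq_abs]
      exact (ContinuousMap.norm_coe_le_norm _ _).trans h6.le
    calc |E n (x.restrict (L n)) (m, p) - x (m, p)|
        = |(E n (x.restrict (L n)) (m, p) - x (m, trunc b n p)) +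
          (x (m, trunc b n p) - x (m, p))| := by congr 1; ring
      _ ≤ ε / 2 + ε / 2 := (abs_add_le _ _).trans (add_le_add h3 h5)
      _ = ε := by ring

end ClassTwo

section Transfer

variable {K : Type u} [TopologicalSpace K] [CompactSpace K] [T2Space K]
variable {K' : Type v} [TopologicalSpace K'] [CompactSpace K'] [T2Space K']

theorem scattered_preimage {Y : Type u} {Z : Type v} [TopologicalSpace Y] [TopologicalSpace Z]
    (h : Y ≃ₜ Z) {T : Set Y} (hT : ScatteredSet T) : ScatteredSet (h.symm ⁻¹' T) := by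
  intro A hA hne
  obtain ⟨x, hx, U, hU, hUx⟩ := hT (h ⁻¹' A) (fun y hy => by
    have := hA hy
    simpa using this) (by
      obtain ⟨a, ha⟩ := hne
      exact ⟨h.symm a, by simpa using ha⟩)
  refine ⟨h x, hx, h.symm ⁻¹' U, hU.preimage h.symm.continuous, ?_⟩
  ext z
  simp only [mem_inter_iff, mem_preimage, mem_singleton_iff]
  constructor
  · rintro ⟨h1, h2⟩
    have : h.symm z ∈ U ∩ h ⁻¹' A := ⟨h1, by simpa using h2⟩
    rw [hUx, mem_singleton_iff] at this
    rw [← this]
    simp
  · rintro rfl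
    have : x ∈ U ∩ h ⁻¹' A := by rw [hUx]; rfl
    exact ⟨by simpa using this.1, this.2⟩

omit [CompactSpace K] [T2Space K] [CompactSpace K'] [T2Space K'] in
theorem Tame.of_homeomorph (hK : Tame K) (h : K ≃ₜ K') : Tame K' := by
  obtain ⟨F, L, E, hF, hS, hL, hE, happ⟩ := hK
  let L' : ℕ → Set K' := fun n => h.symm ⁻¹' L n
  let e : ∀ n, C(L n, L' n) := fun n => ⟨fun k => ⟨h k, by
    change h.symm (h k) ∈ L n
    rw [h.symm_apply_apply]
    exact k.2⟩, by
      apply Continuous.subtype_mk
      exact h.continuous.comp continuous_subtype_val⟩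
  let E' : ∀ n, C(L' n, ℝ) →L[ℝ] C(K', ℝ) := fun n =>
    (ContinuousMap.compCLM ℝ ℝ (⟨h.symm, h.symm.continuous⟩ : C(K', K))).comp
      ((E n).comp (ContinuousMap.compCLM ℝ ℝ (e n)))
  have hE' : ∀ n (y : C(L' n, ℝ)) (k : K'), E' n y k = E n (y.comp (e n)) (h.symm k) := by
    intro n y k
    rfl
  refine ⟨h.symm ⁻¹' F, L', E', hF.preimage h.symm.continuous, ?_, ?_, ?_, ?_⟩
  · rw [← preimage_compl]
    exact scattered_preimage h hS
  · intro n
    exact ⟨(hL n).1.preimage h.symm.continuous, preimage_mono (hL n).2.1,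
      scattered_preimage h (hL n).2.2⟩
  · intro n y k
    rw [hE']
    have h1 := hE n (y.comp (e n)) ⟨h.symm k, k.2⟩
    simp only at h1
    rw [h1]
    simp only [ContinuousMap.comp_apply]
    congr 1
    exact Subtype.ext (h.apply_symm_apply _)
  · intro x ε hε
    obtain ⟨n, hn⟩ := happ (x.comp ⟨h, h.continuous⟩) ε hε
    refine ⟨n, ?_⟩
    intro k hk
    have h1 := hn (h.symm k) hk
    rw [hE']
    have h2 : (x.restrict (L' n)).comp (e n) = (x.comp ⟨h, h.continuous⟩).restrict (L n) := rfl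
    rw [h2]
    have h3 : (x.comp ⟨h, h.continuous⟩) (h.symm k) = x k := by
      simp
    rw [h3] at h1
    exact h1

omit [CompactSpace K] [T2Space K] in
theorem metrizable_pi {q : ℕ → Prop} {X : {i : ℕ // q i} → Type u}
    [∀ i, TopologicalSpace (X i)] [∀ i, CompactSpace (X i)] (h : ∀ i, MetrizableSpace (X i)) :
    MetrizableSpace (∀ i, X i) := by
  have h1 : ∀ i, SecondCountableTopology (X i) := by
    intro i
    have := h i
    let _ : MetricSpace (X i) := metrizableSpaceMetric (X i)
    infer_instance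
  have h2 : ∀ i, T2Space (X i) := by
    intro i
    have := h i
    infer_instance
  exact metrizableSpace_of_t3_secondCountable _

theorem tame_of_countableProduct (h : CountableProduct K) : Tame K := by
  classical
  obtain ⟨X, _, hX, ⟨e⟩⟩ := h
  rcases isEmpty_or_nonempty K with hem | hne
  · apply tame_of_scatteredByMetrizable
    refine ⟨∅, isClosed_empty, ?_, ?_⟩
    · have : DiscreteTopology (∅ : Set K) := inferInstance
      infer_instance
    · intro A _ hA
      obtain ⟨a, -⟩ := hA
      exact hem.elim a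
  have hC : ∀ n, CompactSpace (X n) := fun n => (hX n).1
  have hT : ∀ n, T2Space (X n) := fun n => (hX n).2.1
  let q : ℕ → Prop := fun n => MetrizableSpace (X n)
  let e₂ := Homeomorph.piEquivPiSubtypeProd q X
  let k₀ : ∀ n, X n := e (Classical.arbitrary K)
  have hM : MetrizableSpace (∀ i : {i // q i}, X i) := metrizable_pi (fun i => i.2)
  have hsc : ∀ i : {i // ¬ q i}, ScatteredSet (univ : Set (X i)) := by
    intro i
    rcases (hX i.1).2.2 with h1 | h1
    · exact absurd h1 i.2
    · exact h1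
  have h3 : Tame ((∀ i : {i // q i}, X i) × (∀ i : {i // ¬ q i}, X i)) :=
    tame_prod (q := fun n => ¬ q n) (X := fun i => X i.1) hsc (fun i => k₀ i.1)
  exact h3.of_homeomorph (e.trans e₂).symm

end Transfer

end

end Pool.Agent.Lib.WeakBorel
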