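import Mathlib

/-!
Definitions used in the statements of the hand-ins `ArbitraryProducts` and `KadecKernel`.
-/

set_option autoImplicit false

namespace Pool.Agent.Lib.MP_245eb3_an.Def

universe u v

/-- Every nonempty subset `A` of `T` has a point isolated in `A`. -/
def Scattered {X : Type u} [TopologicalSpace X] (T : Set X) : Prop :=
  ∀ A ⊆ T, A.Nonempty → ∃ x ∈ A, ∃ U, IsOpen U ∧ U ∩ A = {x}

open Classical in
/-- The point with the coordinates of `p` on the finite set `F`, and those of `e` elsewhere. -/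
noncomputable def cut {I : Type v} {X : I → Type u} (e : ∀ i, X i) (F : Finset I)
    (p : ∀ i, X i) : ∀ i, X i :=
  fun i => if i ∈ F then p i else e i

/-- `L` is homeomorphic to a product, with any number of factors, of compact Hausdorff spaces each
of which is metrizable or scattered. -/
def Product (L : Type u) [TopologicalSpace L] : Prop :=
  ∃ (I : Type u) (X : I → Type u) (_ : ∀ i, TopologicalSpace (X i)),
    (∀ i, CompactSpace (X i) ∧ T2Space (X i) ∧
      (TopologicalSpace.MetrizableSpace (X i) ∨ Scattered (Set.univ : Set (X i)))) ∧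
    Nonempty (L ≃ₜ (∀ i, X i))

/-- `L` is homeomorphic to a closed subset `K` of a product of scattered compact Hausdorff spaces
which contains, for a base point `e`, all `cut e F p` with `p` in `K` and `F` finite. -/
def StableScattered (L : Type u) [TopologicalSpace L] : Prop :=
  ∃ (I : Type u) (X : I → Type u) (_ : ∀ i, TopologicalSpace (X i)) (e : ∀ i, X i)
    (K : Set (∀ i, X i)),
    (∀ i, CompactSpace (X i) ∧ T2Space (X i) ∧ Scattered (Set.univ : Set (X i))) ∧
    IsClosed K ∧ (∀ F : Finset I, ∀ p ∈ K, cut e F p ∈ K) ∧ Nonempty (L ≃ₜ K)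

/-- `L` is homeomorphic to a closed subset `K` of a product of compact metrizable spaces which
contains, for a base point `e`, all `cut e F p` with `p` in `K` and `F` finite. -/
def StableMetrizable (L : Type u) [TopologicalSpace L] : Prop :=
  ∃ (I : Type u) (X : I → Type u) (_ : ∀ i, TopologicalSpace (X i)) (e : ∀ i, X i)
    (K : Set (∀ i, X i)),
    (∀ i, CompactSpace (X i) ∧ TopologicalSpace.MetrizableSpace (X i)) ∧
    IsClosed K ∧ (∀ F : Finset I, ∀ p ∈ K, cut e F p ∈ K) ∧ Nonempty (L ≃ₜ K)

/-- `N` is an equivalent norm, and the weak topology and the norm topology coincide on its unit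
sphere. -/
def KadecNorm {E : Type u} [NormedAddCommGroup E] [NormedSpace ℝ E] (N : Seminorm ℝ E) : Prop :=
  (∃ c > 0, ∀ x, c * ‖x‖ ≤ N x) ∧ (∃ C, ∀ x, N x ≤ C * ‖x‖) ∧
    ∀ x, N x = 1 → ∀ U : Set E, IsOpen U → x ∈ U →
      ∃ V : Set (WeakSpace ℝ E), IsOpen V ∧ toWeakSpace ℝ E x ∈ V ∧
        ∀ y, toWeakSpace ℝ E y ∈ V → N y = 1 → y ∈ U

end Pool.Agent.Lib.MP_245eb3_an.Def
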