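import Mathlib

/-!
Basic tools on the weak topology of a real normed space `E`, expressed through maps
`WeakSpace ℝ E → WeakSpace ℝ G`, and on the Borel sigma-algebra of the weak topology.
-/

set_option autoImplicit false

open Set Filter Topology
open scoped MeasureTheory


namespace Pool.Agent.Lib.WeakBorel

noncomputable section

universe u v w

section Defs

variable (E : Type u) [NormedAddCommGroup E] [NormedSpace ℝ E]

/-- The Borel sigma-algebra of the weak topology of `E`, as a sigma-algebra on `E`. -/
@[reducible] def wBorel : MeasurableSpace E :=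
  MeasurableSpace.comap (toWeakSpace ℝ E) (borel (WeakSpace ℝ E))

end Defs

variable {E : Type u} [NormedAddCommGroup E] [NormedSpace ℝ E]
variable {G : Type v} [NormedAddCommGroup G] [NormedSpace ℝ G]
variable {H : Type w} [NormedAddCommGroup H] [NormedSpace ℝ H]

/-- A subset of `E` regarded as a subset of `WeakSpace ℝ E`. -/
def wset (A : Set E) : Set (WeakSpace ℝ E) := (toWeakSpace ℝ E).symm ⁻¹' A

/-- A map `E → G` regarded as a map `WeakSpace ℝ E → WeakSpace ℝ G`. -/
def wmap (f : E → G) : WeakSpace ℝ E → WeakSpace ℝ G :=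
  fun x => toWeakSpace ℝ G (f ((toWeakSpace ℝ E).symm x))

/-- `f` is weak-to-weak continuous on `A`. -/
def WContOn (f : E → G) (A : Set E) : Prop := ContinuousOn (wmap f) (wset A)

theorem mem_wset {A : Set E} {x : WeakSpace ℝ E} :
    x ∈ wset A ↔ (toWeakSpace ℝ E).symm x ∈ A := Iff.rfl

theorem preimage_wset (A : Set E) : (toWeakSpace ℝ E) ⁻¹' (wset A) = A := by
  ext x
  simp [wset]

theorem measurableSet_wBorel {A : Set E} :
    MeasurableSet[wBorel E] A ↔ MeasurableSet[borel (WeakSpace ℝ E)] (wset A) := by
  constructor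
  · rintro ⟨B, hB, rfl⟩
    have : wset ((toWeakSpace ℝ E) ⁻¹' B) = B := by
      ext x
      simp [wset]
    rw [this]
    exact hB
  · intro h
    exact ⟨wset A, h, preimage_wset A⟩

theorem functional_continuous (φ : E →L[ℝ] ℝ) :
    Continuous (fun x : WeakSpace ℝ E => φ ((toWeakSpace ℝ E).symm x)) :=
  WeakBilin.eval_continuous (topDualPairing ℝ E).flip φ

theorem continuous_toWeak {α : Type*} [TopologicalSpace α] {g : α → WeakSpace ℝ G}
    (h : ∀ φ : G →L[ℝ] ℝ, Continuous fun a => φ ((toWeakSpace ℝ G).symm (g a))) :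
    Continuous g :=
  WeakBilin.continuous_of_continuous_eval (topDualPairing ℝ G).flip h

theorem wContOn_of_functionals {f : E → G} {A : Set E}
    (h : ∀ φ : G →L[ℝ] ℝ,
      ContinuousOn (fun x : WeakSpace ℝ E => φ (f ((toWeakSpace ℝ E).symm x))) (wset A)) :
    WContOn f A := by
  unfold WContOn
  rw [continuousOn_iff_continuous_domRestrict]
  apply continuous_toWeak
  intro φ
  have := h φ
  rw [continuousOn_iff_continuous_domRestrict] at this
  exact this

theorem WContOn.functional {f : E → G} {A : Set E} (h : WContOn f A) (φ : G →L[ℝ] ℝ) :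
    ContinuousOn (fun x : WeakSpace ℝ E => φ (f ((toWeakSpace ℝ E).symm x))) (wset A) := by
  have h2 := (functional_continuous φ).comp_continuousOn h
  exact h2

theorem wContOn_clm (T : E →L[ℝ] G) (A : Set E) : WContOn T A := by
  apply wContOn_of_functionals
  intro φ
  exact (functional_continuous (φ.comp T)).continuousOn

theorem wContOn_id (A : Set E) : WContOn (fun x : E => x) A :=
  wContOn_clm (ContinuousLinearMap.id ℝ E) A

theorem wContOn_const (g : G) (A : Set E) : WContOn (fun _ : E => g) A := by
  apply wContOn_of_functionals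
  intro φ
  exact continuousOn_const

theorem WContOn.add {f g : E → G} {A : Set E} (hf : WContOn f A) (hg : WContOn g A) :
    WContOn (fun x => f x + g x) A := by
  apply wContOn_of_functionals
  intro φ
  simp only [map_add]
  exact (hf.functional φ).add (hg.functional φ)

theorem WContOn.sub {f g : E → G} {A : Set E} (hf : WContOn f A) (hg : WContOn g A) :
    WContOn (fun x => f x - g x) A := by
  apply wContOn_of_functionals
  intro φ
  simp only [map_sub]
  exact (hf.functional φ).sub (hg.functional φ)

theorem WContOn.comp {f : E → G} {g : G → H} {A : Set E} {B : Set G} (hg : WContOn g B)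
    (hf : WContOn f A) (hAB : ∀ x ∈ A, f x ∈ B) : WContOn (fun x => g (f x)) A := by
  have : wmap (fun x => g (f x)) = wmap g ∘ wmap f := by
    funext x
    simp [wmap]
  unfold WContOn
  rw [this]
  refine ContinuousOn.comp hg hf ?_
  intro x hx
  rw [mem_wset] at hx ⊢
  simpa [wmap] using hAB _ hx

theorem WContOn.mono {f : E → G} {A B : Set E} (hf : WContOn f A) (h : B ⊆ A) :
    WContOn f B := ContinuousOn.mono hf (preimage_mono h)

/-- `A` is weakly closed. -/
def WClosed (A : Set E) : Prop := IsClosed (wset A)

theorem WClosed.inter {A B : Set E} (hA : WClosed A) (hB : WClosed B) : WClosed (A ∩ B) :=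
  IsClosed.inter hA hB

theorem WClosed.measurableSet {A : Set E} (hA : WClosed A) : MeasurableSet[wBorel E] A := by
  rw [measurableSet_wBorel]
  let _ : MeasurableSpace (WeakSpace ℝ E) := borel _
  have _ : BorelSpace (WeakSpace ℝ E) := ⟨rfl⟩
  exact IsClosed.measurableSet hA

theorem wClosed_univ : WClosed (univ : Set E) := isClosed_univ

theorem wClosed_iInter {ι : Sort*} {A : ι → Set E} (h : ∀ i, WClosed (A i)) :
    WClosed (⋂ i, A i) := by
  have : wset (⋂ i, A i) = ⋂ i, wset (A i) := by
    unfold wset
    rw [preimage_iInter]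
  unfold WClosed
  rw [this]
  exact isClosed_iInter h

/-- Preimage of a closed set of reals under a functional. -/
theorem wClosed_functional (φ : E →L[ℝ] ℝ) {C : Set ℝ} (hC : IsClosed C) :
    WClosed {x : E | φ x ∈ C} :=
  hC.preimage (functional_continuous φ)

theorem wClosed_closedBall (r : ℝ) : WClosed {x : E | ‖x‖ ≤ r} := by
  have h1 : Convex ℝ {x : E | ‖x‖ ≤ r} := by
    have := convex_closedBall (0 : E) r
    convert this using 1
    ext x; simp
  have h2 : IsClosed {x : E | ‖x‖ ≤ r} := isClosed_le continuous_norm continuous_const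
  have h3 := h1.toWeakSpace_closure ℝ
  rw [h2.closure_eq] at h3
  have h4 : wset {x : E | ‖x‖ ≤ r} = (toWeakSpace ℝ E) '' {x : E | ‖x‖ ≤ r} := by
    ext x
    constructor
    · intro hx
      exact ⟨(toWeakSpace ℝ E).symm x, hx, by simp⟩
    · rintro ⟨y, hy, rfl⟩
      simpa [wset] using hy
  unfold WClosed
  rw [h4, h3]
  exact isClosed_closure

/-- If `f` is weakly continuous on the weakly closed `A` and `B` is weakly closed, then
`{x ∈ A | f x ∈ B}` is weakly closed. -/
theorem WContOn.wClosed_preimage {f : E → G} {A : Set E} {B : Set G} (hf : WContOn f A)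
    (hA : WClosed A) (hB : WClosed B) : WClosed (A ∩ {x | f x ∈ B}) := by
  have := ContinuousOn.preimage_isClosed_of_isClosed hf hA hB
  have h2 : wset (A ∩ {x | f x ∈ B}) = wset A ∩ wmap f ⁻¹' wset B := by
    ext x
    simp [wset, wmap]
  unfold WClosed
  rw [h2]
  exact this

/-- If `f` is weakly continuous on the weakly closed `A` and `B` is weakly Borel, then
`{x ∈ A | f x ∈ B}` is weakly Borel. -/
theorem WContOn.measurableSet_preimage {f : E → G} {A : Set E} {B : Set G} (hf : WContOn f A)
    (hA : WClosed A) (hB : MeasurableSet[wBorel G] B) :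
    MeasurableSet[wBorel E] (A ∩ {x | f x ∈ B}) := by
  rw [measurableSet_wBorel] at hB ⊢
  let _ : MeasurableSpace (WeakSpace ℝ E) := borel _
  have _ : BorelSpace (WeakSpace ℝ E) := ⟨rfl⟩
  let _ : MeasurableSpace (WeakSpace ℝ G) := borel _
  have _ : BorelSpace (WeakSpace ℝ G) := ⟨rfl⟩
  have h2 : wset (A ∩ {x | f x ∈ B}) = (Subtype.val : wset A → _) ''
      ((fun x : wset A => wmap f x) ⁻¹' wset B) := by
    ext x
    simp [wset, wmap, and_comm]
  rw [h2]
  have h3 : Continuous (fun x : wset A => wmap f x) := by
    have := continuousOn_iff_continuous_domRestrict.mp hf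
    exact this
  exact (IsClosed.measurableSet hA).subtype_image (h3.measurable hB)

end

end Pool.Agent.Lib.WeakBorel
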