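import Pool.Agent.Lib.MP_245eb3_an.Rounding

/-!
Rounding schemes and the main theorem.
-/

set_option autoImplicit false

open Set Filter Topology
open scoped MeasureTheory

namespace Pool.Agent.Lib.WeakBorel

noncomputable section

universe u v w

section Abstract

variable {E : Type u} [NormedAddCommGroup E] [NormedSpace ℝ E]

/-- `E` is covered by countably many weakly closed sets on each of which there is a weakly
continuous map, `ε`-close to the identity, with uniformly discrete range. -/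
def HasRounding (E : Type u) [NormedAddCommGroup E] [NormedSpace ℝ E] : Prop :=
  ∀ ε : ℝ, 0 < ε → ∃ (ι : Type) (_ : Countable ι) (X : ι → Set E) (ρ : ι → E → E),
    (∀ x, ∃ i, x ∈ X i) ∧ ∀ i, WClosed (X i) ∧ WContOn (ρ i) (X i) ∧
      (∀ x ∈ X i, ‖ρ i x - x‖ ≤ ε) ∧
      ∃ δ > 0, ∀ x ∈ X i, ∀ x' ∈ X i, ρ i x ≠ ρ i x' → δ ≤ ‖ρ i x - ρ i x'‖

theorem wBorel_le_borel : wBorel E ≤ borel E := by
  have h1 : Continuous (toWeakSpace ℝ E) := (toWeakSpaceCLM ℝ E).continuous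
  rintro s ⟨B, hB, rfl⟩
  let _ : MeasurableSpace E := borel E
  have _ : BorelSpace E := ⟨rfl⟩
  let _ : MeasurableSpace (WeakSpace ℝ E) := borel _
  have _ : BorelSpace (WeakSpace ℝ E) := ⟨rfl⟩
  exact h1.measurable hB

theorem HasRounding.main (h : HasRounding E) (hne : wBorel E ≠ borel E) :
    ∃ D : Set E, (∃ δ > 0, ∀ x ∈ D, ∀ y ∈ D, x ≠ y → δ ≤ ‖x - y‖) ∧
      ¬ MeasurableSet[wBorel E] D := by
  by_contra hcon
  push Not at hcon
  apply hne
  apply le_antisymm wBorel_le_borel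
  apply MeasurableSpace.generateFrom_le
  intro U hU
  have hU : IsOpen U := hU
  have hpos : ∀ m : ℕ, (0 : ℝ) < 1 / ((m : ℝ) + 1) := fun m => by positivity
  choose ι hι X ρ hcov hX using fun m : ℕ => h (1 / ((m : ℝ) + 1)) (hpos m)
  have hEq : U = ⋃ m : ℕ, ⋃ i : ι m, (X m i ∩ {x | ρ m i x ∈
      {d | (∃ y ∈ X m i, ρ m i y = d) ∧ Metric.closedBall d (1 / ((m : ℝ) + 1)) ⊆ U}}) := by
    ext x
    simp only [mem_iUnion, mem_inter_iff, mem_ofPred_eq]
    constructor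
    · intro hx
      obtain ⟨r, hr, hball⟩ := Metric.isOpen_iff.mp hU x hx
      obtain ⟨m, hm⟩ := exists_nat_one_div_lt (show 0 < r / 2 by positivity)
      obtain ⟨i, hi⟩ := hcov m x
      refine ⟨m, i, hi, ⟨x, hi, rfl⟩, ?_⟩
      intro y hy
      apply hball
      rw [Metric.mem_closedBall] at hy
      rw [Metric.mem_ball]
      have h1 := (hX m i).2.2.1 x hi
      rw [← dist_eq_norm] at h1
      calc dist y x ≤ dist y (ρ m i x) + dist (ρ m i x) x := dist_triangle _ _ _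
        _ ≤ 1 / ((m : ℝ) + 1) + 1 / ((m : ℝ) + 1) := add_le_add hy h1
        _ < r := by linarith
    · rintro ⟨m, i, hi, -, hball⟩
      apply hball
      rw [Metric.mem_closedBall, dist_comm, dist_eq_norm]
      exact (hX m i).2.2.1 x hi
  rw [hEq]
  apply MeasurableSet.iUnion
  intro m
  have := hι m
  apply MeasurableSet.iUnion
  intro i
  apply (hX m i).2.1.measurableSet_preimage (hX m i).1
  apply hcon
  obtain ⟨δ, hδ, hsep⟩ := (hX m i).2.2.2
  refine ⟨δ, hδ, ?_⟩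
  rintro _ ⟨⟨y, hy, rfl⟩, -⟩ _ ⟨⟨y', hy', rfl⟩, -⟩ hne'
  exact hsep y hy y' hy' hne'

/-- Transfer along an isomorphic embedding. -/
theorem transfer {G : Type v} [NormedAddCommGroup G] [NormedSpace ℝ G] (J : E →L[ℝ] G)
    {c : ℝ} (hc : 0 < c) (hJ : ∀ y, c * ‖y‖ ≤ ‖J y‖)
    (hD : ∃ D : Set E, (∃ δ > 0, ∀ x ∈ D, ∀ y ∈ D, x ≠ y → δ ≤ ‖x - y‖) ∧
      ¬ MeasurableSet[wBorel E] D) :
    ∃ D : Set G, (∃ δ > 0, ∀ x ∈ D, ∀ y ∈ D, x ≠ y → δ ≤ ‖x - y‖) ∧
      ¬ MeasurableSet[wBorel G] D := by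
  obtain ⟨D, ⟨δ, hδ, hsep⟩, hD⟩ := hD
  have hinj : Function.Injective J := by
    intro x y hxy
    have h1 := hJ (x - y)
    rw [map_sub, hxy, sub_self, norm_zero] at h1
    have h2 : ‖x - y‖ ≤ 0 := by
      by_contra hcon
      rw [not_le] at hcon
      nlinarith
    exact sub_eq_zero.mp (norm_le_zero_iff.mp h2)
  refine ⟨J '' D, ⟨c * δ, by positivity, ?_⟩, ?_⟩
  · rintro _ ⟨x, hx, rfl⟩ _ ⟨y, hy, rfl⟩ hne
    have h1 : x ≠ y := fun h => hne (by rw [h])
    calc c * δ ≤ c * ‖x - y‖ := by gcongr; exact hsep x hx y hy h1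
      _ ≤ ‖J (x - y)‖ := hJ _
      _ = ‖J x - J y‖ := by rw [map_sub]
  · intro hmeas
    apply hD
    have h1 := (wContOn_clm J univ).measurableSet_preimage wClosed_univ hmeas
    have h2 : (univ ∩ {x | J x ∈ J '' D}) = D := by
      ext x
      simp only [univ_inter, mem_ofPred_eq]
      constructor
      · rintro ⟨y, hy, hxy⟩
        rw [← hinj hxy]
        exact hy
      · intro hx
        exact ⟨x, hx, rfl⟩
    rw [h2] at h1
    exact h1

end Abstract

/-- The class of compact spaces treated here. -/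
def Tame (K : Type u) [TopologicalSpace K] : Prop :=
  ∃ (F : Set K) (L : ℕ → Set K) (E : ∀ n, C(L n, ℝ) →L[ℝ] C(K, ℝ)),
    IsClosed F ∧ ScatteredSet Fᶜ ∧
    (∀ n, IsClosed (L n) ∧ L n ⊆ F ∧ ScatteredSet (L n)) ∧
    (∀ n (y : C(L n, ℝ)) (k : L n), E n y k = y k) ∧
    ∀ (x : C(K, ℝ)) (ε : ℝ), 0 < ε → ∃ n, ∀ k ∈ F, |E n (x.restrict (L n)) k - x k| ≤ ε

section TameSec

variable {K : Type u} [TopologicalSpace K]

/-- Restriction to a subset, as a continuous linear map. -/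
def resL (L : Set K) : C(K, ℝ) →L[ℝ] C(L, ℝ) :=
  ContinuousMap.compCLM ℝ ℝ ⟨Subtype.val, continuous_subtype_val⟩

theorem resL_apply (L : Set K) (x : C(K, ℝ)) : resL L x = x.restrict L := rfl

theorem scattered_univ_subtype {L : Set K} (h : ScatteredSet L) :
    ScatteredSet (univ : Set L) := by
  intro A _ hne
  obtain ⟨x, hx, U, hU, hUx⟩ := h (Subtype.val '' A) (by rintro _ ⟨a, -, rfl⟩; exact a.2)
    (hne.image _)
  obtain ⟨a, ha, rfl⟩ := hx
  refine ⟨a, ha, Subtype.val ⁻¹' U, hU.preimage continuous_subtype_val, ?_⟩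
  ext b
  simp only [mem_inter_iff, mem_preimage, mem_singleton_iff]
  constructor
  · rintro ⟨hb1, hb2⟩
    have h1 : (b : K) ∈ U ∩ Subtype.val '' A := ⟨hb1, b, hb2, rfl⟩
    rw [hUx] at h1
    exact Subtype.ext h1
  · rintro rfl
    refine ⟨?_, ha⟩
    have h1 : (b : K) ∈ U ∩ Subtype.val '' A := by rw [hUx]; rfl
    exact h1.1

variable [CompactSpace K] [T2Space K]

theorem Tame.hasRounding (h : Tame K) : HasRounding C(K, ℝ) := by
  obtain ⟨F, L, E, hF, hS, hL, hE, happ⟩ := h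
  intro ε₀ hε₀
  obtain ⟨N, hN⟩ := exists_nat_one_div_lt hε₀
  set δ : ℝ := 1 / ((N : ℝ) + 1) with hδdef
  have hδ : 0 < δ := by positivity
  have hcL : ∀ n, CompactSpace (L n) := fun n => isCompact_iff_compactSpace.mp (hL n).1.isCompact
  -- inner grid size
  set d : ℕ → ℝ := fun M => 1 / ((M : ℝ) + 1) with hd
  have hd0 : ∀ M, 0 < d M := fun M => by rw [hd]; positivity
  -- index: n, M, t₁, j₁, b, t₂, j₂ with the grid condition
  let ι : Type := {p : ℕ × ℕ × ℚ × ℕ × ℕ × ℚ × ℕ //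
    ∀ z : ℤ, δ / 4 < |(p.2.2.2.2.2.1 : ℝ) + δ * z|}
  -- rounding on `L n`
  let a : ι → C(K, ℝ) → C(K, ℝ) := fun p x =>
    E p.1.1 (rndC (p.1.2.2.1 : ℝ) (d p.1.2.1) (resL (L p.1.1) x))
  let X₁ : ι → Set C(K, ℝ) := fun p => univ ∩ {x | resL (L p.1.1) x ∈
    ASet (∅ : Set (L p.1.1)) 0 (p.1.2.2.1 : ℝ) (d p.1.2.1) (1 / ((p.1.2.2.2.1 : ℝ) + 1))
      (p.1.2.2.2.2.1 : ℝ)}
  let X₂ : ι → Set C(K, ℝ) := fun p => X₁ p ∩ {x | x - a p x ∈
    ASet F (δ / 8) (p.1.2.2.2.2.2.1 : ℝ) δ (1 / ((p.1.2.2.2.2.2.2 : ℝ) + 1))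
      (p.1.2.2.2.2.1 : ℝ)}
  let ρ : ι → C(K, ℝ) → C(K, ℝ) := fun p x =>
    a p x + rndC (p.1.2.2.2.2.2.1 : ℝ) δ (x - a p x)
  have hone : ∀ j : ℕ, (0 : ℝ) < 1 / ((j : ℝ) + 1) := fun j => by positivity
  refine ⟨ι, inferInstance, X₂, ρ, ?_, ?_⟩
  · -- covering
    intro x
    obtain ⟨n, hn⟩ := happ x (δ / 16) (by positivity)
    obtain ⟨M, hM⟩ := exists_nat_one_div_lt
      (show 0 < δ / 16 / (‖E n‖ + 1) by positivity)
    have := hcL n
    obtain ⟨t₁, j₁, ht₁, hgap₁⟩ := exists_gap (isClosed_empty (X := L n))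
      (by rw [compl_empty]; exact scattered_univ_subtype (hL n).2.2) (resL (L n) x)
      (ε := 0) (hd0 M) (by have := hd0 M; positivity) (by simp)
    set y := rndC (t₁ : ℝ) (d M) (resL (L n) x) with hy
    have hy1 : ‖y - resL (L n) x‖ ≤ d M := norm_rndC_sub_le (hd0 M) (hone j₁) hgap₁
    have hv : ∀ k ∈ F, |(x - E n y) k| ≤ δ / 8 := by
      intro k hk
      have h1 := hn k hk
      have h2 : |(E n (y - resL (L n) x)) k| ≤ δ / 16 := by
        calc |(E n (y - resL (L n) x)) k| ≤ ‖E n (y - resL (L n) x)‖ := by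
              rw [← Real.norm_eq_abs]
              exact ContinuousMap.norm_coe_le_norm (E n (y - resL (L n) x)) k
          _ ≤ ‖E n‖ * ‖y - resL (L n) x‖ := (E n).le_opNorm _
          _ ≤ (‖E n‖ + 1) * (δ / 16 / (‖E n‖ + 1)) := by
              gcongr
              · linarith
              · exact hy1.trans hM.le
          _ = δ / 16 := by field_simp
      have h3 : (x - E n y) k = -((E n (x.restrict (L n))) k - x k) -
          (E n (y - resL (L n) x)) k := by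
        rw [map_sub, resL_apply]
        simp only [ContinuousMap.sub_apply]
        ring
      rw [h3]
      calc _ ≤ |-((E n (x.restrict (L n))) k - x k)| + |(E n (y - resL (L n) x)) k| := abs_sub _ _
        _ ≤ δ / 16 + δ / 16 := by rw [abs_neg]; exact add_le_add h1 h2
        _ = δ / 8 := by ring
    obtain ⟨t₂, j₂, ht₂, hgap₂⟩ := exists_gap hF hS (x - E n y) hδ
      (show δ / 8 < δ / 4 by linarith) hv
    obtain ⟨b, hb⟩ := exists_nat_ge (max ‖resL (L n) x‖ ‖x - E n y‖)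
    refine ⟨⟨(n, M, t₁, j₁, b, t₂, j₂), ht₂⟩, ?_⟩
    refine ⟨⟨mem_univ _, ?_, by simp, hgap₁⟩, ?_, hv, hgap₂⟩
    · exact (le_max_left _ _).trans hb
    · exact (le_max_right _ _).trans hb
  · intro p
    have := hcL p.1.1
    have hX₁ : WClosed (X₁ p) :=
      (wContOn_clm (resL (L p.1.1)) univ).wClosed_preimage wClosed_univ (wClosed_ASet _ _ _ _ _ _)
    have hrestr : WContOn (fun x => resL (L p.1.1) x) (X₁ p) := wContOn_clm _ _
    have hgrid₁ : ∀ z : ℤ, (-1 : ℝ) < |(p.1.2.2.1 : ℝ) + d p.1.2.1 * z| := by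
      intro z
      have := abs_nonneg ((p.1.2.2.1 : ℝ) + d p.1.2.1 * z)
      linarith
    have hrnd₁ : WContOn (rndC (p.1.2.2.1 : ℝ) (d p.1.2.1))
        (ASet (∅ : Set (L p.1.1)) (-1) (p.1.2.2.1 : ℝ) (d p.1.2.1)
          (1 / ((p.1.2.2.2.1 : ℝ) + 1)) (p.1.2.2.2.2.1 : ℝ)) :=
      wContOn_rndC isClosed_empty
        (by rw [compl_empty]; exact scattered_univ_subtype (hL p.1.1).2.2)
        (hd0 _) (hone _) hgrid₁
    have ha : WContOn (a p) (X₁ p) := by
      have h1 := hrnd₁.comp hrestr (by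
        intro x hx
        exact ⟨hx.2.1, by simp, hx.2.2.2⟩)
      exact (wContOn_clm (E p.1.1) univ).comp h1 (fun _ _ => mem_univ _)
    have hv : WContOn (fun x => x - a p x) (X₁ p) := (wContOn_id _).sub ha
    have hX₂ : WClosed (X₂ p) := hv.wClosed_preimage hX₁ (wClosed_ASet _ _ _ _ _ _)
    have hgrid₂ : ∀ z : ℤ, δ / 8 < |(p.1.2.2.2.2.2.1 : ℝ) + δ * z| := by
      intro z
      have := p.2 z
      linarith
    have hrnd₂ := wContOn_rndC (b := (p.1.2.2.2.2.1 : ℝ)) hF hS hδ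
      (hone p.1.2.2.2.2.2.2) hgrid₂
    have hsub : X₂ p ⊆ X₁ p := fun x hx => hx.1
    have hρ : WContOn (ρ p) (X₂ p) :=
      (ha.mono hsub).add (hrnd₂.comp (hv.mono hsub) (fun x hx => hx.2))
    refine ⟨hX₂, hρ, ?_, min (d p.1.2.1) δ, lt_min (hd0 _) hδ, ?_⟩
    · intro x hx
      have h1 := norm_rndC_sub_le hδ (hone p.1.2.2.2.2.2.2) hx.2.2.2
      have h2 : ρ p x - x = rndC (p.1.2.2.2.2.2.1 : ℝ) δ (x - a p x) - (x - a p x) := by
        simp only [ρ]
        abel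
      rw [h2]
      exact h1.trans hN.le
    · intro x hx x' hx' hne
      by_cases hEq : rndC (p.1.2.2.1 : ℝ) (d p.1.2.1) (resL (L p.1.1) x) =
          rndC (p.1.2.2.1 : ℝ) (d p.1.2.1) (resL (L p.1.1) x')
      · have haa : a p x = a p x' := by simp only [a]; rw [hEq]
        have h1 : ρ p x - ρ p x' = rndC (p.1.2.2.2.2.2.1 : ℝ) δ (x - a p x) -
            rndC (p.1.2.2.2.2.2.1 : ℝ) δ (x' - a p x') := by
          simp only [ρ]
          rw [haa]
          abel
        have h2 : rndC (p.1.2.2.2.2.2.1 : ℝ) δ (x - a p x) ≠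
            rndC (p.1.2.2.2.2.2.1 : ℝ) δ (x' - a p x') := by
          intro h3
          apply hne
          rw [← sub_eq_zero, h1, h3, sub_self]
        obtain ⟨k, hk⟩ : ∃ k, rndC (p.1.2.2.2.2.2.1 : ℝ) δ (x - a p x) k ≠
            rndC (p.1.2.2.2.2.2.1 : ℝ) δ (x' - a p x') k := by
          by_contra hcon
          push Not at hcon
          exact h2 (ContinuousMap.ext hcon)
        refine (min_le_right _ _).trans ?_
        rw [h1]
        refine le_trans ?_ (ContinuousMap.norm_coe_le_norm _ k)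
        rw [ContinuousMap.sub_apply, Real.norm_eq_abs]
        rw [rndC_apply hδ (hone _) hx.2.2.2, rndC_apply hδ (hone _) hx'.2.2.2] at hk ⊢
        exact le_rnd_sub hδ hk
      · obtain ⟨k, hk⟩ : ∃ k, rndC (p.1.2.2.1 : ℝ) (d p.1.2.1) (resL (L p.1.1) x) k ≠
            rndC (p.1.2.2.1 : ℝ) (d p.1.2.1) (resL (L p.1.1) x') k := by
          by_contra hcon
          push Not at hcon
          exact hEq (ContinuousMap.ext hcon)
        have hkF : (k : K) ∈ F := (hL p.1.1).2.1 k.2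
        have h1 : (ρ p x - ρ p x') k =
            rndC (p.1.2.2.1 : ℝ) (d p.1.2.1) (resL (L p.1.1) x) k -
            rndC (p.1.2.2.1 : ℝ) (d p.1.2.1) (resL (L p.1.1) x') k := by
          simp only [ρ, ContinuousMap.sub_apply, ContinuousMap.add_apply, a]
          rw [hE, hE]
          have h3 := rndC_apply hδ (hone _) hx.2.2.2 k
          have h4 := rndC_apply hδ (hone _) hx'.2.2.2 k
          simp only [a] at h3 h4
          rw [h3, h4]
          have h5 := rnd_eq_zero_val hδ hgrid₂ (hx.2.2.1 k hkF)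
          have h6 := rnd_eq_zero_val hδ hgrid₂ (hx'.2.2.1 k hkF)
          simp only [a] at h5 h6
          rw [h5, h6]
          ring
        refine (min_le_left _ _).trans ?_
        refine le_trans ?_ (ContinuousMap.norm_coe_le_norm _ (k : K))
        rw [h1, Real.norm_eq_abs]
        rw [rndC_apply (hd0 _) (hone _) hx.1.2.2.2, rndC_apply (hd0 _) (hone _) hx'.1.2.2.2]
          at hk ⊢
        exact le_rnd_sub (hd0 _) hk

end TameSec

end

end Pool.Agent.Lib.WeakBorel
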