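import Pool.Agent.Lib.MP_245eb3_an.ProdSkel

/-!
The class of compact spaces with finite supports, and two subclasses.
-/

set_option autoImplicit false
set_option linter.unusedSectionVars false

open Set Filter Topology TopologicalSpace
open scoped MeasureTheory

namespace Pool.Agent.Lib.WeakBorel

noncomputable section

universe u v w

/-- `L` is homeomorphic to a closed subset `K` of a product of compact Hausdorff spaces such that,
for a base point `e`, `K` contains the restrictions of its points to all finite sets `F` of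
coordinates (the other coordinates are replaced by those of `e`), and the points of `K` supported
by `F` form a tame space. -/
def FiniteSupports (L : Type u) [TopologicalSpace L] : Prop :=
  ∃ (I : Type u) (X : I → Type u) (_ : ∀ i, TopologicalSpace (X i)) (e : ∀ i, X i)
    (K : Set (∀ i, X i)),
    (∀ i, CompactSpace (X i) ∧ T2Space (X i)) ∧ IsClosed K ∧
    (∀ F : Finset I, ∀ p ∈ K, restr e F p ∈ K) ∧
    (∀ F : Finset I, Tame (suppSet e K F)) ∧ Nonempty (L ≃ₜ K)

/-- `L` is a product of compact Hausdorff spaces, any number of them, each of which is metrizable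
or scattered. -/
def ArbitraryProduct (L : Type u) [TopologicalSpace L] : Prop :=
  ∃ (I : Type u) (X : I → Type u) (_ : ∀ i, TopologicalSpace (X i)),
    (∀ i, CompactSpace (X i) ∧ T2Space (X i) ∧
      (MetrizableSpace (X i) ∨ ScatteredSet (univ : Set (X i)))) ∧
    Nonempty (L ≃ₜ (∀ i, X i))

/-- `L` is homeomorphic to a closed subset `K` of a product of scattered compact Hausdorff spaces
such that, for a base point `e`, `K` contains the restrictions of its points to all finite sets of
coordinates. -/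
def StableInScattered (L : Type u) [TopologicalSpace L] : Prop :=
  ∃ (I : Type u) (X : I → Type u) (_ : ∀ i, TopologicalSpace (X i)) (e : ∀ i, X i)
    (K : Set (∀ i, X i)),
    (∀ i, CompactSpace (X i) ∧ T2Space (X i) ∧ ScatteredSet (univ : Set (X i))) ∧ IsClosed K ∧
    (∀ F : Finset I, ∀ p ∈ K, restr e F p ∈ K) ∧ Nonempty (L ≃ₜ K)

/-- Transfer of the separation property to an isometric space. -/
theorem HasSep.of_isometry {E : Type u} [NormedAddCommGroup E] [NormedSpace ℝ E]
    {G : Type v} [NormedAddCommGroup G] [NormedSpace ℝ G] (h : HasSep E)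
    (T : E →L[ℝ] G) (S : G →L[ℝ] E) (hTS : ∀ y, T (S y) = y) (hST : ∀ x, S (T x) = x)
    (hT : ∀ x, ‖T x‖ = ‖x‖) : HasSep G := by
  intro ε hε
  obtain ⟨ι, hι, X, ρ, hcov, hX⟩ := h ε hε
  have hS : ∀ y, ‖S y‖ = ‖y‖ := fun y => by rw [← hT, hTS]
  refine ⟨ι, hι, fun i => {y | S y ∈ X i}, fun i y => T (ρ i (S y)), fun y => hcov (S y), ?_⟩
  intro i
  obtain ⟨hm, hc, hf, δ, hδ, hsep⟩ := hX i
  refine ⟨?_, ?_, ?_, δ, hδ, ?_⟩
  · have h1 := (wContOn_clm S univ).measurableSet_preimage' wClosed_univ.measurableSet hm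
    rw [univ_inter] at h1
    exact h1
  · have h1 := hc.comp (wContOn_clm S {y | S y ∈ X i}) (fun y hy => hy)
    exact (wContOn_clm T univ).comp h1 (fun _ _ => mem_univ _)
  · intro y hy y' hy' hEq
    have h1 : ρ i (S y) = ρ i (S y') := by
      have := congrArg S hEq
      rwa [hST, hST] at this
    have h2 := hf _ hy _ hy' h1
    rwa [← map_sub, hS] at h2
  · intro y hy y' hy' hne
    have h1 : ρ i (S y) ≠ ρ i (S y') := fun h => hne (by
      show T (ρ i (S y)) = T (ρ i (S y'))
      rw [h])
    have h2 := hsep _ hy _ hy' h1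
    show δ ≤ ‖T (ρ i (S y)) - T (ρ i (S y'))‖
    rwa [← map_sub, hT]

theorem HasSep.of_homeomorph {K : Type u} {L : Type v} [TopologicalSpace K] [CompactSpace K]
    [TopologicalSpace L] [CompactSpace L] (h : HasSep C(K, ℝ)) (f : L ≃ₜ K) :
    HasSep C(L, ℝ) := by
  let T : C(K, ℝ) →L[ℝ] C(L, ℝ) := ContinuousMap.compCLM ℝ ℝ (⟨f, f.continuous⟩ : C(L, K))
  let S : C(L, ℝ) →L[ℝ] C(K, ℝ) :=
    ContinuousMap.compCLM ℝ ℝ (⟨f.symm, f.symm.continuous⟩ : C(K, L))
  have hT : ∀ x l, T x l = x (f l) := fun _ _ => rfl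
  have hS : ∀ y k, S y k = y (f.symm k) := fun _ _ => rfl
  refine h.of_isometry T S ?_ ?_ ?_
  · intro y
    ext l
    rw [hT, hS, f.symm_apply_apply]
  · intro x
    ext k
    rw [hS, hT, f.apply_symm_apply]
  · intro x
    apply le_antisymm
    · rw [ContinuousMap.norm_le _ (norm_nonneg _)]
      intro l
      exact ContinuousMap.norm_coe_le_norm x _
    · rw [ContinuousMap.norm_le _ (norm_nonneg _)]
      intro k
      have := ContinuousMap.norm_coe_le_norm (T x) (f.symm k)
      rwa [hT, f.apply_symm_apply] at this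

theorem FiniteSupports.hasSep {L : Type u} [TopologicalSpace L] [CompactSpace L]
    (h : FiniteSupports L) : HasSep C(L, ℝ) := by
  obtain ⟨I, X, _, e, K, hX, hK, hr, hT, ⟨f⟩⟩ := h
  have hC : ∀ i, CompactSpace (X i) := fun i => (hX i).1
  have hH : ∀ i, T2Space (X i) := fun i => (hX i).2
  have : CompactSpace K := isCompact_iff_compactSpace.mp hK.isCompact
  exact (hasSep_of_tame e hr hT).of_homeomorph f

theorem finiteSupports_of_isEmpty (L : Type u) [TopologicalSpace L] (h : IsEmpty L) :
    FiniteSupports L := by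
  refine ⟨PEmpty, fun _ => PUnit, fun _ => inferInstance, fun _ => PUnit.unit, ∅,
    fun i => i.elim, isClosed_empty, fun _ p hp => absurd hp (notMem_empty p), ?_, ?_⟩
  · intro F
    have hem : IsEmpty (suppSet (fun _ : PEmpty => PUnit.unit)
      (∅ : Set (∀ _ : PEmpty, PUnit)) F) := ⟨fun p => p.2.1⟩
    have hc : CompactSpace (suppSet (fun _ : PEmpty => PUnit.unit)
      (∅ : Set (∀ _ : PEmpty, PUnit)) F) := inferInstance
    apply tame_of_scattered
    intro A _ hA
    obtain ⟨a, -⟩ := hA
    exact hem.elim a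
  · have h2 : IsEmpty (∅ : Set (∀ _ : PEmpty.{u + 1}, PUnit.{u + 1})) := inferInstance
    exact ⟨Homeomorph.empty⟩

theorem finiteSupports_of_arbitraryProduct {L : Type u} [TopologicalSpace L]
    (h : ArbitraryProduct L) : FiniteSupports L := by
  rcases isEmpty_or_nonempty L with hem | hne
  · exact finiteSupports_of_isEmpty L hem
  obtain ⟨I, X, _, hX, ⟨f⟩⟩ := h
  have hC : ∀ i, CompactSpace (X i) := fun i => (hX i).1
  have hH : ∀ i, T2Space (X i) := fun i => (hX i).2.1
  let e : ∀ i, X i := f (Classical.arbitrary L)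
  exact ⟨I, X, inferInstance, e, univ, fun i => ⟨hC i, hH i⟩, isClosed_univ,
    fun _ _ _ => mem_univ _, fun F => tame_suppSet_univ (fun i => (hX i).2.2) e F,
    ⟨f.trans (Homeomorph.Set.univ _).symm⟩⟩

theorem finiteSupports_of_stableInScattered {L : Type u} [TopologicalSpace L]
    (h : StableInScattered L) : FiniteSupports L := by
  obtain ⟨I, X, _, e, K, hX, hK, hr, hf⟩ := h
  have hC : ∀ i, CompactSpace (X i) := fun i => (hX i).1
  have hH : ∀ i, T2Space (X i) := fun i => (hX i).2.1
  exact ⟨I, X, inferInstance, e, K, fun i => ⟨hC i, hH i⟩, hK, hr,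
    fun F => tame_suppSet_of_scattered (fun i => (hX i).2.2) hK e F, hf⟩

end

end Pool.Agent.Lib.WeakBorel
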