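import Pool.Agent.Lib.MP_245eb3_an.FinSupp

/-!
Banach spaces whose norm topology has weakly isolated nets, and compact spaces with a closed subset
`F` whose complement is scattered, such that `C(F)` is of this kind.
-/

set_option autoImplicit false
set_option linter.unusedSectionVars false

open Set Filter Topology TopologicalSpace
open scoped MeasureTheory

namespace Pool.Agent.Lib.WeakBorel

noncomputable section

universe u v w

/-- `E` is covered by countably many weakly Borel sets, on each of which there are a label and an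
approximation within `ε`, both locally constant in the weak topology; different labels are at
distance at least one, and the approximation depends only on the label. -/
def HasNet (E : Type u) [NormedAddCommGroup E] [NormedSpace ℝ E] : Prop :=
  ∀ ε : ℝ, 0 < ε → ∃ (ι : Type) (_ : Countable ι) (X : ι → Set E) (lab a : ι → E → E),
    (∀ x, ∃ i, x ∈ X i) ∧ ∀ i, MeasurableSet[wBorel E] (X i) ∧
      (∀ x ∈ X i, ∃ V : Set E, WOpen V ∧ x ∈ V ∧ ∀ y ∈ X i, y ∈ V → lab i y = lab i x) ∧
      (∀ x ∈ X i, ‖x - a i x‖ ≤ ε) ∧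
      (∀ x ∈ X i, ∀ y ∈ X i, lab i x ≠ lab i y → 1 ≤ ‖lab i x - lab i y‖) ∧
      (∀ x ∈ X i, ∀ y ∈ X i, lab i x = lab i y → a i x = a i y)

section

variable {E : Type u} [NormedAddCommGroup E] [NormedSpace ℝ E]

/-- A subset of a weakly Borel set which is locally given by weakly closed conditions. -/
theorem measurableSet_of_local {Y Q : Set E} (hY : MeasurableSet[wBorel E] Y) (hQ : Q ⊆ Y)
    (h : ∀ f ∈ Y, ∃ V C : Set E, WOpen V ∧ f ∈ V ∧ WClosed C ∧
      ∀ g ∈ Y, g ∈ V → (g ∈ Q ↔ g ∈ C)) : MeasurableSet[wBorel E] Q := by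
  choose! V C hV hfV hC hQC using h
  have h1 : Q = Y \ ⋃ f : Y, (V f.1 ∩ (C f.1)ᶜ) := by
    ext g
    constructor
    · intro hg
      refine ⟨hQ hg, fun hcon => ?_⟩
      obtain ⟨f, hg1, hg2⟩ := mem_iUnion.mp hcon
      exact hg2 ((hQC f.1 f.2 g (hQ hg) hg1).mp hg)
    · rintro ⟨hgY, hg⟩
      by_contra hcon
      apply hg
      refine mem_iUnion.mpr ⟨⟨g, hgY⟩, hfV g hgY, fun h => hcon ?_⟩
      exact (hQC g hgY g hgY (hfV g hgY)).mpr h
  rw [h1]
  exact hY.diff (wOpen_iUnion fun f : Y => (hV f.1 f.2).inter (hC f.1 f.2).compl).measurableSet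

end

section Kernel

variable {K : Type u} [TopologicalSpace K] [CompactSpace K] [T2Space K]

theorem wContOn_sub_const (h : C(K, ℝ)) (A : Set C(K, ℝ)) :
    WContOn (fun f : C(K, ℝ) => f - h) A :=
  (wContOn_id A).sub (wContOn_const h A)

theorem norm_rndC_le {F : Set K} {ε t δ η b : ℝ} (hδ : 0 < δ) (hη : 0 < η) {v : C(K, ℝ)}
    (hv : v ∈ ASet F ε t δ η b) : ‖rndC t δ v‖ ≤ b + δ := by
  have h2 := norm_rndC_sub_le hδ hη hv.2.2
  have h3 := norm_sub_norm_le (rndC t δ v) v
  have h4 := hv.1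
  linarith

/-- Restriction to `F` as a continuous linear map, and extension. -/
theorem exists_ext {F : Set K} (hF : IsClosed F) (y : C(F, ℝ)) :
    ∃ g : C(K, ℝ), ∀ p : F, g p = y p := by
  obtain ⟨g, hg⟩ := ContinuousMap.exists_restrict_eq hF y
  exact ⟨g, fun p => congrArg (fun z : C(F, ℝ) => z p) hg⟩

theorem hasSep_of_kernel {F : Set K} (hF : IsClosed F) (hS : ScatteredSet Fᶜ)
    [CompactSpace F] (hN : HasNet C(F, ℝ)) : HasSep C(K, ℝ) := by
  intro ε hε
  obtain ⟨δ, hδdef⟩ : ∃ δ, δ = ε / 2 := ⟨_, rfl⟩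
  have hδ : 0 < δ := by
    rw [hδdef]
    positivity
  choose ext hext using exists_ext hF
  obtain ⟨κ, hκ, Y, lab, a, hcov, hY⟩ := hN (δ / 8) (by positivity)
  have hT : ∀ (f : C(K, ℝ)) (p : F), resL F f p = f p := fun _ _ => rfl
  have hLab : ∀ x y : C(F, ℝ), ‖x - y‖ ≤ ‖ext x - ext y‖ := by
    intro x y
    rw [ContinuousMap.norm_le _ (norm_nonneg _)]
    intro p
    have h1 := ContinuousMap.norm_coe_le_norm (ext x - ext y) p
    rw [ContinuousMap.sub_apply, hext, hext] at h1
    exact h1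
  -- the index: piece, grid, gap, bound
  let ι : Type := κ × {q : ℚ // ∀ z : ℤ, δ / 8 < |(q : ℝ) + δ * z|} × ℕ × ℕ
  let η : ι → ℝ := fun p => 1 / ((p.2.2.1 : ℝ) + 1)
  let b : ι → ℝ := fun p => (p.2.2.2 : ℝ)
  let g : ι → ℝ := fun p => (p.2.1.1 : ℝ)
  let A : ι → Set C(K, ℝ) := fun p => ASet F (δ / 8) (g p) δ (η p) (b p)
  let X : ι → Set C(K, ℝ) := fun p =>
    {f | resL F f ∈ Y p.1 ∧ f - ext (a p.1 (resL F f)) ∈ A p}
  let c : ι → ℝ := fun p => 2 * (b p + δ) + 1
  let ρ : ι → C(K, ℝ) → C(K, ℝ) := fun p f =>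
    c p • ext (lab p.1 (resL F f)) + rndC (g p) δ (f - ext (a p.1 (resL F f)))
  have hη : ∀ p, 0 < η p := fun p => by
    simp only [η]
    positivity
  have hA : ∀ p, WClosed (A p) := fun p => wClosed_ASet F (δ / 8) (g p) δ (η p) (b p)
  have hYm : ∀ p : ι, MeasurableSet[wBorel C(K, ℝ)] {f | resL F f ∈ Y p.1} := by
    intro p
    have h1 := (wContOn_clm (resL F : C(K, ℝ) →L[ℝ] C(F, ℝ)) univ).measurableSet_preimage'
      wClosed_univ.measurableSet (hY p.1).1
    rw [univ_inter] at h1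
    exact h1
  -- the label is locally constant
  have hloc : ∀ p : ι, ∀ f : C(K, ℝ), resL F f ∈ Y p.1 → ∃ V : Set C(K, ℝ), WOpen V ∧ f ∈ V ∧
      ∀ f' : C(K, ℝ), resL F f' ∈ Y p.1 → f' ∈ V →
        lab p.1 (resL F f') = lab p.1 (resL F f) ∧ a p.1 (resL F f') = a p.1 (resL F f) := by
    intro p f hf
    obtain ⟨V, hV, hfV, hVl⟩ := (hY p.1).2.1 _ hf
    refine ⟨{f' | resL F f' ∈ V}, hV.preimage_clm (resL F), hfV, fun f' hf' hf'V => ?_⟩
    have h1 := hVl _ hf' hf'V
    exact ⟨h1, (hY p.1).2.2.2.2 _ hf' _ hf h1⟩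
  have hfar : ∀ p f f', f ∈ X p → f' ∈ X p → lab p.1 (resL F f) ≠ lab p.1 (resL F f') →
      1 ≤ ‖ρ p f - ρ p f'‖ := by
    intro p f f' hf hf' hne'
    have h1 := (hY p.1).2.2.2.1 _ hf.1 _ hf'.1 hne'
    have hc : 0 ≤ c p := by
      simp only [c, b]
      positivity
    obtain ⟨l, hl⟩ : ∃ l, l = ext (lab p.1 (resL F f)) := ⟨_, rfl⟩
    obtain ⟨l', hl'⟩ : ∃ l', l' = ext (lab p.1 (resL F f')) := ⟨_, rfl⟩
    have h1' : 1 ≤ ‖l - l'‖ := by
      rw [hl, hl']
      exact h1.trans (hLab _ _)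
    have h2 : ‖c p • l - c p • l'‖ = c p * ‖l - l'‖ := by
      rw [← smul_sub, norm_smul, Real.norm_eq_abs, abs_of_nonneg hc]
    have hf0 : f - ext (a p.1 (resL F f)) ∈ ASet F (δ / 8) (g p) δ (η p) (b p) := hf.2
    have hf0' : f' - ext (a p.1 (resL F f')) ∈ ASet F (δ / 8) (g p) δ (η p) (b p) := hf'.2
    have h3 := norm_rndC_le hδ (hη p) hf0
    have h4 := norm_rndC_le hδ (hη p) hf0'
    obtain ⟨y, hy⟩ : ∃ y, y = rndC (g p) δ (f - ext (a p.1 (resL F f))) := ⟨_, rfl⟩
    obtain ⟨y', hy'⟩ : ∃ y', y' = rndC (g p) δ (f' - ext (a p.1 (resL F f'))) := ⟨_, rfl⟩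
    rw [← hy] at h3
    rw [← hy'] at h4
    have h5 : ρ p f - ρ p f' = (c p • l - c p • l') + (y - y') := by
      simp only [ρ]
      rw [← hy, ← hy', ← hl, ← hl']
      abel
    rw [h5]
    have h6 := norm_sub_le ((c p • l - c p • l') + (y - y')) (y - y')
    rw [add_sub_cancel_right, h2] at h6
    have h7 := norm_sub_le y y'
    have h8 : c p ≤ c p * ‖l - l'‖ := le_mul_of_one_le_right hc h1'
    have h9 : c p = 2 * (b p + δ) + 1 := rfl
    linarith
  refine ⟨ι, inferInstance, X, ρ, ?_, ?_⟩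
  · -- covering
    intro f
    obtain ⟨i, hi⟩ := hcov (resL F f)
    have hv : ∀ k ∈ F, |(f - ext (a i (resL F f))) k| ≤ δ / 8 := by
      intro k hk
      have h1 := (ContinuousMap.norm_coe_le_norm (resL F f - a i (resL F f)) ⟨k, hk⟩).trans
        ((hY i).2.2.1 _ hi)
      rw [ContinuousMap.sub_apply, Real.norm_eq_abs] at h1
      rw [ContinuousMap.sub_apply, hext _ ⟨k, hk⟩]
      exact h1
    obtain ⟨q, m, hq, hgap⟩ := exists_gap hF hS (f - ext (a i (resL F f))) hδ
      (show δ / 8 < δ / 4 by linarith) hv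
    obtain ⟨B, hB⟩ := exists_nat_ge ‖f - ext (a i (resL F f))‖
    exact ⟨(i, ⟨q, fun z => by have := hq z; linarith⟩, m, B), hi, hB, hv, hgap⟩
  · intro p
    refine ⟨?_, ?_, ?_, min 1 δ, lt_min one_pos hδ, ?_⟩
    · refine measurableSet_of_local (hYm p) (fun f hf => hf.1) fun f hf => ?_
      obtain ⟨V, hV, hfV, hVl⟩ := hloc p f hf
      refine ⟨V, {f' | f' - ext (a p.1 (resL F f)) ∈ A p}, hV, hfV, ?_, ?_⟩
      · have h1 := (wContOn_sub_const (ext (a p.1 (resL F f))) univ).wClosed_preimage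
          wClosed_univ (hA p)
        rw [univ_inter] at h1
        exact h1
      · intro f' hf' hf'V
        have h1 := (hVl f' hf' hf'V).2
        constructor
        · rintro ⟨-, h2⟩
          rw [h1] at h2
          exact h2
        · intro h2
          refine ⟨hf', ?_⟩
          rw [h1]
          exact h2
    · -- continuity
      apply wContOn_of_local
      intro f hf
      obtain ⟨V, hV, hfV, hVl⟩ := hloc p f hf.1
      refine ⟨V, fun f' => c p • ext (lab p.1 (resL F f)) +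
        rndC (g p) δ (f' - ext (a p.1 (resL F f))),
        {f' | f' - ext (a p.1 (resL F f)) ∈ A p}, hV, hfV, ?_, ?_, ?_⟩
      · have h1 := (wContOn_rndC (b := b p) hF hS hδ (hη p) p.2.1.2).comp
          (wContOn_sub_const (ext (a p.1 (resL F f)))
            {f' | f' - ext (a p.1 (resL F f)) ∈ A p}) (fun f' hf' => hf')
        exact (wContOn_const _ _).add h1
      · rintro f' ⟨hf', hf'V⟩
        have h1 := (hVl f' hf'.1 hf'V).2
        have h2 := hf'.2
        rw [h1] at h2
        exact h2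
      · rintro f' ⟨hf', hf'V⟩
        obtain ⟨h1, h2⟩ := hVl f' hf'.1 hf'V
        simp only [ρ]
        rw [h1, h2]
    · -- small fibres
      intro f hf f' hf' hEq
      have hll : lab p.1 (resL F f) = lab p.1 (resL F f') := by
        by_contra hne'
        have h1 := hfar p f f' hf hf' hne'
        rw [hEq, sub_self, norm_zero] at h1
        linarith
      have haa := (hY p.1).2.2.2.2 _ hf.1 _ hf'.1 hll
      have hEq' : c p • ext (lab p.1 (resL F f)) + rndC (g p) δ (f - ext (a p.1 (resL F f))) =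
        c p • ext (lab p.1 (resL F f')) + rndC (g p) δ (f' - ext (a p.1 (resL F f'))) := hEq
      rw [hll] at hEq'
      have h1 := add_left_cancel hEq'
      have hf0 : f - ext (a p.1 (resL F f)) ∈ ASet F (δ / 8) (g p) δ (η p) (b p) := hf.2
      have hf0' : f' - ext (a p.1 (resL F f')) ∈ ASet F (δ / 8) (g p) δ (η p) (b p) := hf'.2
      have h2 := norm_rndC_sub_le hδ (hη p) hf0.2.2
      have h3 := norm_rndC_sub_le hδ (hη p) hf0'.2.2
      rw [h1, haa] at h2
      obtain ⟨e, he⟩ : ∃ e, e = ext (a p.1 (resL F f')) := ⟨_, rfl⟩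
      obtain ⟨y, hy⟩ : ∃ y, y = rndC (g p) δ (f' - ext (a p.1 (resL F f'))) := ⟨_, rfl⟩
      rw [← hy, ← he] at h2 h3
      have h4 : f - f' = (y - (f' - e)) - (y - (f - e)) := by abel
      rw [h4]
      refine (norm_sub_le _ _).trans ?_
      linarith [h2, h3, hδdef]
    · -- discreteness
      intro f hf f' hf' hNe
      by_cases hll : lab p.1 (resL F f) = lab p.1 (resL F f')
      · have haa := (hY p.1).2.2.2.2 _ hf.1 _ hf'.1 hll
        have hf0 : f - ext (a p.1 (resL F f)) ∈ ASet F (δ / 8) (g p) δ (η p) (b p) := hf.2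
        have hf0' : f' - ext (a p.1 (resL F f')) ∈ ASet F (δ / 8) (g p) δ (η p) (b p) := hf'.2
        have h1 : ρ p f - ρ p f' = rndC (g p) δ (f - ext (a p.1 (resL F f))) -
            rndC (g p) δ (f' - ext (a p.1 (resL F f'))) := by
          simp only [ρ]
          rw [hll]
          abel
        have h2 : rndC (g p) δ (f - ext (a p.1 (resL F f))) ≠
            rndC (g p) δ (f' - ext (a p.1 (resL F f'))) := by
          intro h3
          apply hNe
          rw [← sub_eq_zero, h1, h3, sub_self]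
        obtain ⟨k, hk⟩ : ∃ k, rndC (g p) δ (f - ext (a p.1 (resL F f))) k ≠
            rndC (g p) δ (f' - ext (a p.1 (resL F f'))) k := by
          by_contra hcon
          push Not at hcon
          exact h2 (ContinuousMap.ext hcon)
        refine (min_le_right _ _).trans ?_
        rw [h1]
        refine le_trans ?_ (ContinuousMap.norm_coe_le_norm _ k)
        rw [ContinuousMap.sub_apply, Real.norm_eq_abs]
        rw [rndC_apply hδ (hη p) hf0.2.2, rndC_apply hδ (hη p) hf0'.2.2] at hk ⊢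
        exact le_rnd_sub hδ hk
      · exact (min_le_left _ _).trans (hfar p f f' hf hf' hll)

end Kernel

end

end Pool.Agent.Lib.WeakBorel
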