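import Pool.Agent.Lib.MP_245eb3_an.Net

/-!
Spaces with weakly isolated nets: `C(P)` for closed stable subsets of products of metrizable
spaces, and Banach spaces with a Kadec norm.
-/

set_option autoImplicit false
set_option linter.unusedSectionVars false

open Set Filter Topology TopologicalSpace
open scoped MeasureTheory

namespace Pool.Agent.Lib.WeakBorel

noncomputable section

universe u v w

section SkelNet

variable {P : Type w} [TopologicalSpace P] [CompactSpace P] [T2Space P]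
  {I : Type v} [DecidableEq I] {r : Finset I → C(P, P)}

theorem wClosed_dist (x₀ : C(P, ℝ)) (ε : ℝ) : WClosed {x : C(P, ℝ) | ‖x - x₀‖ ≤ ε} := by
  have h1 := ((wContOn_id univ).sub (wContOn_const x₀ univ)).wClosed_preimage wClosed_univ
    (wClosed_closedBall ε)
  rw [univ_inter] at h1
  exact h1

theorem Skel.hasNet (hr : Skel r) (lab : Finset I → C(P, ℝ))
    (hlab : ∀ F G : Finset I, (∀ i ∈ F, Ess r i) → (∀ i ∈ G, Ess r i) → F ≠ G →
      1 ≤ ‖lab F - lab G‖)
    (hm : ∀ G : Finset I, MetrizableSpace (range (r G))) : HasNet C(P, ℝ) := by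
  intro ε hε
  have hsep : ∀ G : Finset I, SeparableSpace C(range (r G), ℝ) := by
    intro G
    have := hm G
    let _ : MetricSpace (range (r G)) := metrizableSpaceMetric _
    infer_instance
  let d : Finset I → ℕ → C(P, ℝ) := fun G j =>
    extE r G (denseSeq C(range (r G), ℝ) j)
  let ι : Type := ℕ × ℕ × ℕ
  let t : ι → ℝ := fun p => 1 / ((p.1 : ℝ) + 1)
  let C : ι → Finset I → Set C(P, ℝ) := fun p G => {x | ‖x - d G p.2.2‖ ≤ ε}
  let X : ι → Set C(P, ℝ) := fun p =>
    {x | ∃ G : Finset I, G.card = p.2.1 ∧ (G : Set I) = Dset r (t p) x ∧ x ∈ C p G}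
  have ht : ∀ p, 0 < t p := fun p => by
    simp only [t]
    positivity
  refine ⟨ι, inferInstance, X, fun p x => lab (fin r (t p) x),
    fun p x => d (fin r (t p) x) p.2.2, ?_, ?_⟩
  · intro x
    obtain ⟨n, hn⟩ := approx_dset hr x (ε := ε / 4) (by positivity)
    have htn : (0 : ℝ) < 1 / ((n : ℝ) + 1) := by positivity
    obtain ⟨G, hG⟩ : ∃ G : Finset I, (G : Set I) = Dset r (1 / ((n : ℝ) + 1)) x :=
      ⟨(dset_finite hr htn x).toFinset, by simp⟩
    obtain ⟨j, hj⟩ : ∃ j : ℕ, dist (resL (range (r G)) x)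
        (denseSeq C(range (r G), ℝ) j) < ε / 2 := by
      obtain ⟨y, hy, j, rfl⟩ := Metric.dense_iff.mp (denseRange_denseSeq C(range (r G), ℝ))
        (resL (range (r G)) x) (ε / 2) (by positivity)
      exact ⟨j, by rw [dist_comm]; exact hy⟩
    refine ⟨(n, G.card, j), G, rfl, hG, ?_⟩
    show ‖x - d G j‖ ≤ ε
    rw [ContinuousMap.norm_le _ hε.le]
    intro k
    have h1 := hn G hG k
    have h2 : |x (r G k) - (denseSeq C(range (r G), ℝ) j) ⟨r G k, mem_range_self k⟩| ≤
        ε / 2 := by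
      have h3 := ContinuousMap.norm_coe_le_norm (resL (range (r G)) x -
        denseSeq C(range (r G), ℝ) j) ⟨r G k, mem_range_self k⟩
      rw [← dist_eq_norm] at h3
      rw [ContinuousMap.sub_apply, Real.norm_eq_abs] at h3
      exact h3.trans hj.le
    have h4 : d G j k = (denseSeq C(range (r G), ℝ) j) ⟨r G k, mem_range_self k⟩ := rfl
    rw [ContinuousMap.sub_apply, h4, Real.norm_eq_abs]
    rw [abs_le] at h1 h2 ⊢
    constructor <;> linarith [h1.1, h1.2, h2.1, h2.2]
  · intro p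
    refine ⟨measurableSet_pieces (t p) p.2.1 (C p) (fun G => wClosed_dist _ _), ?_, ?_, ?_, ?_⟩
    · rintro x ⟨G, hGc, hG, hx⟩
      refine ⟨VF r (t p) G, wOpen_VF _ _, hG.le, ?_⟩
      rintro y ⟨G', hGc', hG', hy⟩ hyV
      have h1 : G = G' := by
        apply Finset.eq_of_subset_of_card_le
        · intro i hi
          have : i ∈ (G' : Set I) := by
            rw [hG']
            exact hyV hi
          exact this
        · omega
      subst h1
      show lab (fin r (t p) y) = lab (fin r (t p) x)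
      rw [fin_eq hG, fin_eq hG']
    · rintro x ⟨G, hGc, hG, hx⟩
      simp only
      rw [fin_eq hG]
      exact hx
    · rintro x ⟨G, hGc, hG, hx⟩ y ⟨G', hGc', hG', hy⟩ hne
      simp only at hne ⊢
      rw [fin_eq hG, fin_eq hG'] at hne ⊢
      exact hlab G G' (fun i hi => ess_of_mem (ht p).le (by rw [← hG]; exact hi))
        (fun i hi => ess_of_mem (ht p).le (by rw [← hG']; exact hi)) (fun h => hne (by rw [h]))
    · rintro x ⟨G, hGc, hG, hx⟩ y ⟨G', hGc', hG', hy⟩ hEq
      simp only at hEq ⊢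
      rw [fin_eq hG, fin_eq hG'] at hEq ⊢
      by_cases h : G = G'
      · rw [h]
      · exfalso
        have h1 := hlab G G' (fun i hi => ess_of_mem (ht p).le (by rw [← hG]; exact hi))
          (fun i hi => ess_of_mem (ht p).le (by rw [← hG']; exact hi)) h
        rw [hEq, sub_self, norm_zero] at h1
        linarith

end SkelNet

section Stable

variable {I : Type v} {X : I → Type u} [∀ i, TopologicalSpace (X i)] {K : Set (∀ i, X i)}

theorem metrizable_range [∀ i, CompactSpace (X i)] (hX : ∀ i, MetrizableSpace (X i))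
    [CompactSpace K] (e : ∀ i, X i) (hr : ∀ F : Finset I, ∀ p ∈ K, restr e F p ∈ K)
    (G : Finset I) : MetrizableSpace (range (rK e hr G)) := by
  have hf : Finite {i // i ∈ G} := Finset.finite_toSet G
  have hH : ∀ i, T2Space (X i) := fun i => by
    have := hX i
    infer_instance
  have hM : MetrizableSpace (∀ i : {i // i ∈ G}, X i.1) :=
    metrizable_pi_finite (fun i => hX i.1)
  let φ : range (rK e hr G) → ∀ i : {i // i ∈ G}, X i.1 := fun q i => q.1.1 i.1
  have hφ : Continuous φ := continuous_pi fun i =>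
    (continuous_apply i.1).comp (continuous_subtype_val.comp continuous_subtype_val)
  have hinj : Function.Injective φ := by
    rintro ⟨_, k, rfl⟩ ⟨_, k', rfl⟩ h
    apply Subtype.ext
    apply Subtype.ext
    funext i
    by_cases hi : i ∈ G
    · exact congrFun h ⟨i, hi⟩
    · show restr e G k.1 i = restr e G k'.1 i
      rw [restr_of_notMem e _ hi, restr_of_notMem e _ hi]
  exact (hφ.isClosedEmbedding hinj).isEmbedding.metrizableSpace

theorem hasNet_of_stable [∀ i, CompactSpace (X i)] (hX : ∀ i, MetrizableSpace (X i))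
    [CompactSpace K] (e : ∀ i, X i) (hr : ∀ F : Finset I, ∀ p ∈ K, restr e F p ∈ K) :
    HasNet C(K, ℝ) := by
  classical
  have hH : ∀ i, T2Space (X i) := fun i => by
    have := hX i
    infer_instance
  obtain ⟨lab, hlab⟩ := exists_lab e hr
  exact (skel_rK e hr).hasNet lab hlab (metrizable_range hX e hr)

end Stable

/-! ### Kadec norms -/

section Kadec

variable {E : Type u} [NormedAddCommGroup E] [NormedSpace ℝ E]

/-- `N` is an equivalent norm on `E` such that the weak topology and the norm topology coincide on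
its unit sphere. -/
def IsKadec (N : Seminorm ℝ E) : Prop :=
  (∃ c > 0, ∀ x, c * ‖x‖ ≤ N x) ∧ (∃ C, ∀ x, N x ≤ C * ‖x‖) ∧
    ∀ x, N x = 1 → ∀ U : Set E, IsOpen U → x ∈ U →
      ∃ V : Set E, WOpen V ∧ x ∈ V ∧ ∀ y ∈ V, N y = 1 → y ∈ U

theorem seminorm_continuous {N : Seminorm ℝ E} {C : ℝ} (hC : ∀ x, N x ≤ C * ‖x‖) :
    Continuous N := by
  have h1 : ∀ x y, |N x - N y| ≤ |C| * ‖x - y‖ := by
    intro x y
    refine (abs_sub_map_le_sub N x y).trans ((hC _).trans ?_)
    gcongr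
    exact le_abs_self C
  rw [continuous_iff_continuousAt]
  intro x
  rw [ContinuousAt, tendsto_iff_dist_tendsto_zero]
  have h2 : Tendsto (fun y => |C| * ‖y - x‖) (𝓝 x) (𝓝 0) := by
    have : Continuous fun y : E => |C| * ‖y - x‖ := by fun_prop
    have h3 := this.tendsto x
    simpa using h3
  refine squeeze_zero (fun _ => dist_nonneg) (fun y => ?_) h2
  rw [Real.dist_eq]
  exact h1 y x

theorem wClosed_seminorm {N : Seminorm ℝ E} (hN : Continuous N) (q : ℝ) :
    WClosed {x | N x ≤ q} := by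
  have h1 : Convex ℝ {x | N x ≤ q} := by
    have h := (N.convexOn).convex_le q
    simpa using h
  have h2 : IsClosed {x | N x ≤ q} := isClosed_le hN continuous_const
  have h3 := h1.toWeakSpace_closure ℝ
  rw [h2.closure_eq] at h3
  have h4 : wset {x | N x ≤ q} = (toWeakSpace ℝ E) '' {x | N x ≤ q} := by
    ext x
    constructor
    · intro hx
      exact ⟨(toWeakSpace ℝ E).symm x, hx, by simp⟩
    · rintro ⟨y, hy, rfl⟩
      simpa [wset] using hy
  unfold WClosed
  rw [h4, h3]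
  exact isClosed_closure

/-- A Kadec norm gives small neighbourhoods inside the balls. -/
theorem kadec_local {N : Seminorm ℝ E} (h : IsKadec N) (x : E) {U : Set E} (hU : IsOpen U)
    (hx : x ∈ U) : ∃ V : Set E, WOpen V ∧ x ∈ V ∧ ∃ q : ℚ, N x ≤ q ∧
      ∀ y ∈ V, N y ≤ q → y ∈ U := by
  obtain ⟨⟨c, hc, hcN⟩, ⟨C, hC⟩, hK⟩ := h
  obtain ⟨ε, hε, hball⟩ := Metric.isOpen_iff.mp hU x hx
  have hNc := seminorm_continuous hC
  by_cases hx0 : x = 0
  · obtain ⟨q, hq0, hq⟩ := exists_rat_btwn (show (0 : ℝ) < c * ε by positivity)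
    refine ⟨univ, isOpen_univ, mem_univ _, q, ?_, ?_⟩
    · rw [hx0, map_zero]
      exact hq0.le
    · intro y _ hy
      apply hball
      rw [hx0, Metric.mem_ball, dist_zero_right]
      have h1 := hcN y
      by_contra hcon
      push Not at hcon
      have : c * ε ≤ c * ‖y‖ := by gcongr
      linarith
  · obtain ⟨s, hs⟩ : ∃ s, s = N x := ⟨_, rfl⟩
    have hs0 : 0 < s := by
      rw [hs]
      exact lt_of_lt_of_le (by have := norm_pos_iff.mpr hx0; positivity) (hcN x)
    obtain ⟨x₁, hx₁⟩ : ∃ x₁, x₁ = s⁻¹ • x := ⟨_, rfl⟩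
    have hNx₁ : N x₁ = 1 := by
      rw [hx₁, map_smul_eq_mul, ← hs, Real.norm_eq_abs, abs_of_pos (inv_pos.mpr hs0),
        inv_mul_cancel₀ hs0.ne']
    obtain ⟨V₁, hV₁, hxV₁, hV₁U⟩ := hK x₁ hNx₁ (Metric.ball x₁ (ε / (2 * (s + 1))))
      Metric.isOpen_ball (Metric.mem_ball_self (by positivity))
    have hcont : ContinuousAt (fun p : WeakSpace ℝ E × ℝ => p.2⁻¹ • p.1)
        (toWeakSpace ℝ E x, s) := by
      apply ContinuousAt.smul
      · exact ContinuousAt.inv₀ continuousAt_snd hs0.ne'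
      · exact continuousAt_fst
    have hpre : (fun p : WeakSpace ℝ E × ℝ => p.2⁻¹ • p.1) ⁻¹' (wset V₁) ∈
        𝓝 (toWeakSpace ℝ E x, s) := by
      apply hcont
      apply IsOpen.mem_nhds hV₁
      show (toWeakSpace ℝ E).symm (s⁻¹ • toWeakSpace ℝ E x) ∈ V₁
      rw [map_smul, LinearEquiv.symm_apply_apply, ← hx₁]
      exact hxV₁
    rw [nhds_prod_eq, Filter.mem_prod_iff] at hpre
    obtain ⟨W, hW, J, hJ, hWJ⟩ := hpre
    obtain ⟨W', hW'W, hW', hxW'⟩ := mem_nhds_iff.mp hW
    obtain ⟨η₀, hη₀, hη₀J⟩ := Metric.mem_nhds_iff.mp hJ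
    obtain ⟨η, hη⟩ : ∃ η, η = min (min η₀ (s / 2)) (min 1 (ε / (2 * (‖x₁‖ + 1)))) := ⟨_, rfl⟩
    have hη0 : 0 < η := by
      rw [hη]
      positivity
    have hη1 : η ≤ η₀ := by rw [hη]; exact (min_le_left _ _).trans (min_le_left _ _)
    have hη2 : η ≤ s / 2 := by rw [hη]; exact (min_le_left _ _).trans (min_le_right _ _)
    have hη3 : η ≤ 1 := by rw [hη]; exact (min_le_right _ _).trans (min_le_left _ _)
    have hη4 : η ≤ ε / (2 * (‖x₁‖ + 1)) := by
      rw [hη]; exact (min_le_right _ _).trans (min_le_right _ _)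
    obtain ⟨q, hq1, hq2⟩ := exists_rat_btwn (show s < s + η by linarith)
    have hwW : wset {y : E | toWeakSpace ℝ E y ∈ W'} = W' := by
      ext z
      show toWeakSpace ℝ E ((toWeakSpace ℝ E).symm z) ∈ W' ↔ z ∈ W'
      rw [LinearEquiv.apply_symm_apply]
    have hWO : WOpen {y : E | toWeakSpace ℝ E y ∈ W'} := by
      unfold WOpen
      rw [hwW]
      exact hW'
    refine ⟨{y | toWeakSpace ℝ E y ∈ W'} ∩ {y | N y ≤ s - η}ᶜ,
      hWO.inter (wClosed_seminorm hNc _).compl, ⟨hxW', ?_⟩, q, ?_, ?_⟩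
    · show ¬ (N x ≤ s - η)
      rw [← hs]
      linarith
    · rw [← hs]
      exact hq1.le
    · rintro y ⟨hyW, hyN⟩ hyq
      have hyN : ¬ (N y ≤ s - η) := hyN
      rw [not_le] at hyN
      obtain ⟨τ, hτ⟩ : ∃ τ, τ = N y := ⟨_, rfl⟩
      rw [← hτ] at hyN hyq
      have hτ0 : 0 < τ := by linarith
      have hτs : |τ - s| < η := by
        rw [abs_lt]
        constructor <;> linarith
      have hu : τ⁻¹ • y ∈ V₁ := by
        have h1 : ((toWeakSpace ℝ E y, τ) : WeakSpace ℝ E × ℝ) ∈ W ×ˢ J :=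
          ⟨hW'W hyW, hη₀J (by rw [Metric.mem_ball, Real.dist_eq]; linarith)⟩
        have h2 := hWJ h1
        have h3 : (toWeakSpace ℝ E).symm (τ⁻¹ • toWeakSpace ℝ E y) ∈ V₁ := h2
        rwa [map_smul, LinearEquiv.symm_apply_apply] at h3
      have hNu : N (τ⁻¹ • y) = 1 := by
        rw [map_smul_eq_mul, ← hτ, Real.norm_eq_abs, abs_of_pos (inv_pos.mpr hτ0),
          inv_mul_cancel₀ hτ0.ne']
      have h4 := hV₁U _ hu hNu
      rw [Metric.mem_ball, dist_eq_norm] at h4
      apply hball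
      rw [Metric.mem_ball, dist_eq_norm]
      obtain ⟨u, hu'⟩ : ∃ u, u = τ⁻¹ • y := ⟨_, rfl⟩
      rw [← hu'] at h4
      have h5 : y = τ • u := by rw [hu', smul_inv_smul₀ hτ0.ne']
      have h6 : x = s • x₁ := by rw [hx₁, smul_inv_smul₀ hs0.ne']
      have h7 : y - x = τ • (u - x₁) + (τ - s) • x₁ := by
        rw [h5]
        nth_rewrite 1 [h6]
        rw [smul_sub, sub_smul]
        abel
      rw [h7]
      calc ‖τ • (u - x₁) + (τ - s) • x₁‖ ≤ τ * ‖u - x₁‖ + |τ - s| * ‖x₁‖ := by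
            refine (norm_add_le _ _).trans (le_of_eq ?_)
            rw [norm_smul, norm_smul, Real.norm_eq_abs, Real.norm_eq_abs, abs_of_pos hτ0]
        _ < (s + 1) * (ε / (2 * (s + 1))) + (ε / (2 * (‖x₁‖ + 1))) * (‖x₁‖ + 1) := by
            apply add_lt_add_of_lt_of_le
            · have h8 : τ < s + 1 := by
                rw [abs_lt] at hτs
                linarith [hτs.2]
              calc τ * ‖u - x₁‖ ≤ τ * (ε / (2 * (s + 1))) := by gcongr
                _ < (s + 1) * (ε / (2 * (s + 1))) := by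
                    apply mul_lt_mul_of_pos_right h8
                    positivity
            · gcongr
              · exact hτs.le.trans hη4
              · linarith
        _ = ε := by
            have h9 : (0 : ℝ) < ‖x₁‖ + 1 := by positivity
            have h10 : (0 : ℝ) < s + 1 := by positivity
            field_simp
            ring

/-- A maximal separated set. -/
theorem exists_net {ε : ℝ} (hε : 0 < ε) : ∃ D : Set E,
    (∀ x ∈ D, ∀ y ∈ D, x ≠ y → ε ≤ dist x y) ∧ ∀ z, ∃ x ∈ D, dist z x < ε := by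
  obtain ⟨D, hD⟩ := zorn_subset {S : Set E | ∀ x ∈ S, ∀ y ∈ S, x ≠ y → ε ≤ dist x y} (by
    intro c hc hchain
    refine ⟨⋃₀ c, ?_, fun s hs => subset_sUnion_of_mem hs⟩
    rintro x ⟨s, hs, hxs⟩ y ⟨s', hs', hys'⟩ hne
    rcases hchain.total hs hs' with h | h
    · exact hc hs' x (h hxs) y hys' hne
    · exact hc hs x hxs y (h hys') hne)
  refine ⟨D, hD.prop, fun z => ?_⟩
  by_contra hcon
  push Not at hcon
  have h1 : insert z D ∈ {S : Set E | ∀ x ∈ S, ∀ y ∈ S, x ≠ y → ε ≤ dist x y} := by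
    rintro x hx y hy hne
    rcases hx with rfl | hx
    · rcases hy with rfl | hy
      · exact absurd rfl hne
      · exact hcon y hy
    · rcases hy with rfl | hy
      · rw [dist_comm]
        exact hcon x hx
      · exact hD.prop x hx y hy hne
  have h2 := hD.le_of_ge h1 (subset_insert z D)
  have h3 := hcon z (h2 (mem_insert z D))
  rw [dist_self] at h3
  linarith

theorem IsKadec.hasNet {N : Seminorm ℝ E} (h : IsKadec N) : HasNet E := by
  classical
  intro ε hε
  obtain ⟨D, hD, hDd⟩ := exists_net (E := E) hε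
  have hNc := seminorm_continuous h.2.1.choose_spec
  -- the first point of the net near `z`
  let near : E → Set E := fun z => {x | x ∈ D ∧ dist z x < ε}
  have hnear : ∀ z, (near z).Nonempty := fun z => by
    obtain ⟨x, hx, hzx⟩ := hDd z
    exact ⟨x, hx, hzx⟩
  have wf : WellFounded (WellOrderingRel : E → E → Prop) := WellOrderingRel.isWellOrder.wf
  let l : E → E := fun z => wf.min (near z) (hnear z)
  have hl : ∀ z, l z ∈ near z := fun z => wf.min_mem _ _
  have hlmin : ∀ z x, x ∈ near z → ¬ WellOrderingRel x (l z) := fun z x hx =>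
    wf.not_lt_min _ hx
  let B : ℕ → E → Set E := fun n y =>
    Metric.thickening (1 / (3 * ((n : ℝ) + 1)))
      {z | Metric.ball z (1 / ((n : ℝ) + 1)) ⊆ Metric.ball (l z) ε ∧ l z = y}
  have hBopen : ∀ n y, IsOpen (B n y) := fun n y => Metric.isOpen_thickening
  have hBD : ∀ n y x, x ∈ B n y → y ∈ D ∧ dist x y < ε := by
    intro n y x hx
    obtain ⟨z, ⟨hz, rfl⟩, hxz⟩ := Metric.mem_thickening_iff.mp hx
    refine ⟨(hl z).1, ?_⟩
    have h1 : x ∈ Metric.ball z (1 / ((n : ℝ) + 1)) := by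
      rw [Metric.mem_ball]
      refine hxz.trans_le ?_
      apply one_div_le_one_div_of_le (by positivity)
      have : (0 : ℝ) ≤ n := by positivity
      linarith
    exact hz h1
  have hBdisj : ∀ n y y' x, x ∈ B n y → x ∈ B n y' → y = y' := by
    intro n
    have key : ∀ y y' x, x ∈ B n y → x ∈ B n y' → ¬ WellOrderingRel y y' := by
      intro y y' x hx hx'
      obtain ⟨z, ⟨hz, rfl⟩, hxz⟩ := Metric.mem_thickening_iff.mp hx
      obtain ⟨z', ⟨hz', rfl⟩, hxz'⟩ := Metric.mem_thickening_iff.mp hx'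
      have h1 : z' ∈ Metric.ball z (1 / ((n : ℝ) + 1)) := by
        rw [Metric.mem_ball]
        have h2 := dist_triangle z' x z
        rw [dist_comm z' x] at h2
        have h3 : 1 / (3 * ((n : ℝ) + 1)) = (1 / 3) * (1 / ((n : ℝ) + 1)) := by
          rw [one_div_mul_one_div]
        rw [h3] at hxz hxz'
        have h4 : (0 : ℝ) < 1 / ((n : ℝ) + 1) := by positivity
        linarith
      exact hlmin z' (l z) ⟨(hl z).1, hz h1⟩
    intro y y' x hx hx'
    rcases trichotomous_of (WellOrderingRel : E → E → Prop) y y' with h1 | h1 | h1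
    · exact absurd h1 (key y y' x hx hx')
    · exact h1
    · exact absurd h1 (key y' y x hx' hx)
  have hBcov : ∀ x, ∃ n y, x ∈ B n y := by
    intro x
    obtain ⟨r, hr, hball⟩ := Metric.isOpen_iff.mp (Metric.isOpen_ball (x := l x) (ε := ε)) x
      (hl x).2
    obtain ⟨n, hn⟩ := exists_nat_one_div_lt hr
    refine ⟨n, l x, ?_⟩
    apply Metric.self_subset_thickening (by positivity)
    exact ⟨(Metric.ball_subset_ball hn.le).trans hball, rfl⟩
  let μ : ℕ → E → E := fun n x => if h : ∃ y, x ∈ B n y then h.choose else 0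
  have hμ : ∀ n x y, x ∈ B n y → μ n x = y := by
    intro n x y hx
    have h1 : ∃ y, x ∈ B n y := ⟨y, hx⟩
    simp only [μ]
    rw [dif_pos h1]
    exact hBdisj n _ _ x h1.choose_spec hx
  let X : ℚ × ℕ → Set E := fun p => {x | N x ≤ p.1} ∩
    ⋃ V : {V : Set E // WOpen V ∧ ∃ y, ∀ z ∈ V, N z ≤ p.1 → z ∈ B p.2 y}, V.1
  have hXB : ∀ p x, x ∈ X p → ∃ V y, WOpen V ∧ x ∈ V ∧ (∀ z ∈ V, N z ≤ p.1 → z ∈ B p.2 y) ∧
      x ∈ B p.2 y := by
    rintro p x ⟨hx1, hx2⟩
    obtain ⟨⟨V, hV, y, hy⟩, hxV⟩ := mem_iUnion.mp hx2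
    exact ⟨V, y, hV, hxV, hy, hy x hxV hx1⟩
  refine ⟨ℚ × ℕ, inferInstance, X, fun p x => ε⁻¹ • μ p.2 x, fun p x => μ p.2 x, ?_, ?_⟩
  · intro x
    obtain ⟨n, y, hx⟩ := hBcov x
    obtain ⟨V, hV, hxV, q, hq, hVq⟩ := kadec_local h x (hBopen n y) hx
    exact ⟨(q, n), hq, mem_iUnion.mpr ⟨⟨V, hV, y, hVq⟩, hxV⟩⟩
  · intro p
    refine ⟨?_, ?_, ?_, ?_, ?_⟩
    · exact (wClosed_seminorm hNc p.1).measurableSet.inter
        (wOpen_iUnion fun V : {V : Set E // WOpen V ∧ ∃ y, ∀ z ∈ V, N z ≤ p.1 →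
          z ∈ B p.2 y} => V.2.1).measurableSet
    · intro x hx
      obtain ⟨V, y, hV, hxV, hVy, hxy⟩ := hXB p x hx
      refine ⟨V, hV, hxV, fun z hz hzV => ?_⟩
      show ε⁻¹ • μ p.2 z = ε⁻¹ • μ p.2 x
      rw [hμ p.2 z y (hVy z hzV hz.1), hμ p.2 x y hxy]
    · intro x hx
      obtain ⟨V, y, hV, hxV, hVy, hxy⟩ := hXB p x hx
      show ‖x - μ p.2 x‖ ≤ ε
      rw [hμ p.2 x y hxy, ← dist_eq_norm]
      exact (hBD p.2 y x hxy).2.le
    · intro x hx x' hx' hne
      obtain ⟨V, y, hV, hxV, hVy, hxy⟩ := hXB p x hx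
      obtain ⟨V', y', hV', hxV', hVy', hxy'⟩ := hXB p x' hx'
      have hne : ε⁻¹ • μ p.2 x ≠ ε⁻¹ • μ p.2 x' := hne
      show 1 ≤ ‖ε⁻¹ • μ p.2 x - ε⁻¹ • μ p.2 x'‖
      rw [hμ p.2 x y hxy, hμ p.2 x' y' hxy'] at hne ⊢
      have h1 : y ≠ y' := fun h2 => hne (by rw [h2])
      have h2 := hD y (hBD p.2 y x hxy).1 y' (hBD p.2 y' x' hxy').1 h1
      rw [← smul_sub, norm_smul, Real.norm_eq_abs, abs_of_pos (inv_pos.mpr hε), ← dist_eq_norm]
      rw [inv_mul_eq_div, one_le_div hε]
      exact h2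
    · intro x hx x' hx' hEq
      have hEq : ε⁻¹ • μ p.2 x = ε⁻¹ • μ p.2 x' := hEq
      exact smul_right_injective E (inv_ne_zero hε.ne') hEq

end Kadec

end

end Pool.Agent.Lib.WeakBorel
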