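import Pool.Agent.Lib.MP_245eb3_an.SkelMain
import Pool.Agent.Lib.MP_245eb3_an.Classes

/-!
Closed subsets of arbitrary products which contain the restrictions of their points to all finite
sets of coordinates.
-/

set_option autoImplicit false
set_option linter.unusedSectionVars false

open Set Filter Topology TopologicalSpace
open scoped MeasureTheory

namespace Pool.Agent.Lib.WeakBorel

noncomputable section

universe u v w

open Classical in
/-- The point with the coordinates of `p` on the finite set `F`, and of `e` elsewhere. -/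
def restr {I : Type v} {X : I → Type u} (e : ∀ i, X i) (F : Finset I) (p : ∀ i, X i) : ∀ i, X i :=
  fun i => if i ∈ F then p i else e i

section

variable {I : Type v} {X : I → Type u}

theorem restr_of_mem (e : ∀ i, X i) {F : Finset I} (p : ∀ i, X i) {i : I} (h : i ∈ F) :
    restr e F p i = p i := by
  unfold restr
  rw [if_pos h]

theorem restr_of_notMem (e : ∀ i, X i) {F : Finset I} (p : ∀ i, X i) {i : I} (h : i ∉ F) :
    restr e F p i = e i := by
  unfold restr
  rw [if_neg h]

theorem restr_restr [DecidableEq I] (e : ∀ i, X i) (F G : Finset I) (p : ∀ i, X i) :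
    restr e F (restr e G p) = restr e (F ∩ G) p := by
  funext i
  by_cases hF : i ∈ F
  · rw [restr_of_mem e _ hF]
    by_cases hG : i ∈ G
    · rw [restr_of_mem e _ hG, restr_of_mem e _ (Finset.mem_inter.mpr ⟨hF, hG⟩)]
    · rw [restr_of_notMem e _ hG, restr_of_notMem e _ (fun h => hG (Finset.mem_inter.mp h).2)]
  · rw [restr_of_notMem e _ hF, restr_of_notMem e _ (fun h => hF (Finset.mem_inter.mp h).1)]

theorem restr_eq_self {e : ∀ i, X i} {F : Finset I} {p : ∀ i, X i} (hp : ∀ i, i ∉ F → p i = e i) :
    restr e F p = p := by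
  funext i
  by_cases h : i ∈ F
  · exact restr_of_mem e p h
  · rw [restr_of_notMem e p h, hp i h]

variable [∀ i, TopologicalSpace (X i)]

theorem restr_continuous (e : ∀ i, X i) (F : Finset I) : Continuous (restr e F) := by
  apply continuous_pi
  intro i
  by_cases h : i ∈ F
  · have : (fun p : ∀ i, X i => restr e F p i) = fun p => p i := by
      funext p
      exact restr_of_mem e p h
    rw [this]
    exact continuous_apply i
  · have : (fun p : ∀ i, X i => restr e F p i) = fun _ => e i := by
      funext p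
      exact restr_of_notMem e p h
    rw [this]
    exact continuous_const

theorem scattered_supp (hX : ∀ i, ScatteredSet (univ : Set (X i))) (e : ∀ i, X i)
    (F : Finset I) : ScatteredSet {p : ∀ i, X i | ∀ i, i ∉ F → p i = e i} := by
  classical
  induction F using Finset.induction_on with
  | empty =>
    intro A hA hne
    obtain ⟨x, hx⟩ := hne
    refine ⟨x, hx, univ, isOpen_univ, ?_⟩
    rw [univ_inter]
    ext y
    simp only [mem_singleton_iff]
    constructor
    · intro hy
      funext i
      rw [hA hy i (Finset.notMem_empty i), hA hx i (Finset.notMem_empty i)]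
    · rintro rfl
      exact hx
  | insert a F haF ih =>
    intro A hA hne
    obtain ⟨y, ⟨a₀, ha₀, rfl⟩, U, hU, hUy⟩ := ih (restr e F '' A)
      (by rintro _ ⟨p, -, rfl⟩ i hi; exact restr_of_notMem e p hi) (hne.image _)
    obtain ⟨c, ⟨a₁, ⟨ha₁, ha₁'⟩, rfl⟩, V, hV, hVc⟩ := hX a
      ((fun p : ∀ i, X i => p a) '' {p | p ∈ A ∧ restr e F p = restr e F a₀})
      (subset_univ _) ⟨a₀ a, a₀, ⟨ha₀, rfl⟩, rfl⟩
    refine ⟨a₁, ha₁, restr e F ⁻¹' U ∩ (fun p : ∀ i, X i => p a) ⁻¹' V,
      (hU.preimage (restr_continuous e F)).inter (hV.preimage (continuous_apply a)), ?_⟩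
    ext p
    simp only [mem_inter_iff, mem_preimage, mem_singleton_iff]
    constructor
    · rintro ⟨⟨hpU, hpV⟩, hpA⟩
      have h1 : restr e F p = restr e F a₀ := by
        have : restr e F p ∈ U ∩ restr e F '' A := ⟨hpU, p, hpA, rfl⟩
        rw [hUy] at this
        exact this
      have h2 : p a = a₁ a := by
        have : p a ∈ V ∩ (fun p : ∀ i, X i => p a) ''
          {p | p ∈ A ∧ restr e F p = restr e F a₀} := ⟨hpV, p, ⟨hpA, h1⟩, rfl⟩
        rw [hVc] at this
        exact this
      funext i
      by_cases hi : i ∈ F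
      · have h3 := congrFun (h1.trans ha₁'.symm) i
        rwa [restr_of_mem e _ hi, restr_of_mem e _ hi] at h3
      · by_cases hia : i = a
        · subst hia
          exact h2
        · have hni : i ∉ insert a F := by
            intro h
            rcases Finset.mem_insert.mp h with h | h
            · exact hia h
            · exact hi h
          rw [hA hpA i hni, hA ha₁ i hni]
    · rintro rfl
      refine ⟨⟨?_, ?_⟩, ha₁⟩
      · have : restr e F p ∈ U ∩ restr e F '' A := by
          rw [hUy, ha₁']
          rfl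
        exact this.1
      · have : p a ∈ V ∩ (fun p : ∀ i, X i => p a) ''
            {p | p ∈ A ∧ restr e F p = restr e F a₀} := by
          rw [hVc]
          rfl
        exact this.1

/-! ### The retractions of a closed set -/

variable {K : Set (∀ i, X i)}

/-- The retraction of `K` given by restriction to a finite set of coordinates. -/
def rK (e : ∀ i, X i) (hr : ∀ F : Finset I, ∀ p ∈ K, restr e F p ∈ K) (F : Finset I) :
    C(K, K) :=
  ⟨fun k => ⟨restr e F k.1, hr F k.1 k.2⟩,
    ((restr_continuous e F).comp continuous_subtype_val).subtype_mk _⟩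

theorem rK_val (e : ∀ i, X i) (hr : ∀ F : Finset I, ∀ p ∈ K, restr e F p ∈ K) (F : Finset I)
    (k : K) : (rK e hr F k).1 = restr e F k.1 := rfl

theorem approx_rK [CompactSpace K] (e : ∀ i, X i)
    (hr : ∀ F : Finset I, ∀ p ∈ K, restr e F p ∈ K) (x : C(K, ℝ)) {ε : ℝ} (hε : 0 < ε) :
    ∃ F : Finset I, ∀ k, |x (rK e hr F k) - x k| ≤ ε := by
  classical
  have h0 : TendstoUniformly (fun (F : Finset I) k => x (rK e hr F k)) x atTop := by
    rw [← tendstoLocallyUniformly_iff_tendstoUniformly_of_compactSpace,
      tendstoLocallyUniformly_iff_forall_tendsto]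
    intro p
    have h1 : Tendsto (fun y : Finset I × K => x y.2) (atTop ×ˢ 𝓝 p) (𝓝 (x p)) :=
      (x.continuous.tendsto p).comp tendsto_snd
    have h2 : Tendsto (fun y : Finset I × K => x (rK e hr y.1 y.2)) (atTop ×ˢ 𝓝 p)
        (𝓝 (x p)) := by
      refine (x.continuous.tendsto p).comp ?_
      rw [tendsto_subtype_rng, tendsto_pi_nhds]
      intro i
      have h3 : (fun y : Finset I × K => (rK e hr y.1 y.2).1 i) =ᶠ[atTop ×ˢ 𝓝 p]
          fun y => y.2.1 i := by
        have h4 : ∀ᶠ y : Finset I × K in atTop ×ˢ 𝓝 p, i ∈ y.1 := by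
          apply tendsto_fst.eventually (p := fun F : Finset I => i ∈ F)
          filter_upwards [eventually_ge_atTop ({i} : Finset I)] with F hF
          exact hF (Finset.mem_singleton_self i)
        filter_upwards [h4] with y hy
        exact restr_of_mem e y.2.1 hy
      have h5 : Continuous fun k : K => k.1 i :=
        (continuous_apply i).comp continuous_subtype_val
      exact ((h5.tendsto p).comp tendsto_snd).congr' h3.symm
    exact (h1.prodMk_nhds h2).mono_right (nhds_le_uniformity (x p))
  obtain ⟨F, hF⟩ := (Metric.tendstoUniformly_iff.mp h0 ε hε).exists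
  refine ⟨F, fun k => ?_⟩
  have := hF k
  rw [Real.dist_eq, abs_sub_comm] at this
  exact this.le

theorem skel_rK [DecidableEq I] [CompactSpace K] (e : ∀ i, X i)
    (hr : ∀ F : Finset I, ∀ p ∈ K, restr e F p ∈ K) : Skel (rK e hr) where
  comp F G k := by
    apply Subtype.ext
    rw [rK_val, rK_val, rK_val]
    exact restr_restr e F G k.1
  approx x ε hε := approx_rK e hr x hε

theorem exists_of_ess [DecidableEq I] {e : ∀ i, X i}
    {hr : ∀ F : Finset I, ∀ p ∈ K, restr e F p ∈ K} {i : I} (h : Ess (rK e hr) i) :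
    ∃ p ∈ K, p i ≠ e i := by
  by_contra hcon
  push Not at hcon
  obtain ⟨G, hG, k, hk⟩ := h
  apply hk
  apply Subtype.ext
  rw [rK_val, rK_val]
  funext j
  by_cases hj : j ∈ G
  · rw [restr_of_mem e _ hj]
    by_cases hji : j = i
    · subst hji
      rw [restr_of_notMem e _ (Finset.notMem_erase _ _), hcon k.1 k.2]
    · rw [restr_of_mem e _ (Finset.mem_erase.mpr ⟨hji, hj⟩)]
  · rw [restr_of_notMem e _ hj, restr_of_notMem e _ (fun h => hj (Finset.mem_of_mem_erase h))]

theorem exists_lab [DecidableEq I] [∀ i, CompactSpace (X i)] [∀ i, T2Space (X i)]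
    [CompactSpace K] (e : ∀ i, X i) (hr : ∀ F : Finset I, ∀ p ∈ K, restr e F p ∈ K) :
    ∃ lab : Finset I → C(K, ℝ), ∀ F G : Finset I, (∀ i ∈ F, Ess (rK e hr) i) →
      (∀ i ∈ G, Ess (rK e hr) i) → F ≠ G → 1 ≤ ‖lab F - lab G‖ := by
  have h1 : ∀ i, ∃ f : C(X i, ℝ), f (e i) = 0 ∧ (Ess (rK e hr) i → ∃ p ∈ K, f (p i) = 1) := by
    intro i
    by_cases hi : Ess (rK e hr) i
    · obtain ⟨p, hp, hne⟩ := exists_of_ess hi
      obtain ⟨f, hf0, hf1, -⟩ := exists_continuous_zero_one_of_isClosed
        (isClosed_singleton (x := e i)) (isClosed_singleton (x := p i))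
        (by rw [disjoint_singleton]; exact hne.symm)
      exact ⟨f, hf0 rfl, fun _ => ⟨p, hp, hf1 rfl⟩⟩
    · exact ⟨0, rfl, fun h => absurd h hi⟩
  choose f hf0 hf1 using h1
  let g : I → C(K, ℝ) := fun i => (f i).comp
    ⟨fun k : K => k.1 i, (continuous_apply i).comp continuous_subtype_val⟩
  have hg : ∀ i k, g i k = f i (k.1 i) := fun _ _ => rfl
  refine ⟨fun F => ∑ i ∈ F, g i, ?_⟩
  have key : ∀ F G : Finset I, ∀ i, Ess (rK e hr) i → i ∈ F → i ∉ G →
      1 ≤ ‖∑ i ∈ F, g i - ∑ i ∈ G, g i‖ := by
    intro F G i hi hiF hiG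
    obtain ⟨p, hp, hp1⟩ := hf1 i hi
    have h2 : ∀ S : Finset I, (∑ j ∈ S, g j) (rK e hr {i} ⟨p, hp⟩) =
        if i ∈ S then 1 else 0 := by
      intro S
      rw [ContinuousMap.sum_apply]
      have h3 : ∀ j ∈ S, g j (rK e hr {i} ⟨p, hp⟩) = if j = i then 1 else 0 := by
        intro j _
        rw [hg, rK_val]
        by_cases hji : j = i
        · subst hji
          rw [restr_of_mem e _ (Finset.mem_singleton_self _), hp1, if_pos rfl]
        · rw [restr_of_notMem e _ (fun h => hji (Finset.mem_singleton.mp h)), hf0, if_neg hji]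
      rw [Finset.sum_congr rfl h3, Finset.sum_ite_eq']
    have h3 := ContinuousMap.norm_coe_le_norm (∑ i ∈ F, g i - ∑ i ∈ G, g i)
      (rK e hr {i} ⟨p, hp⟩)
    rw [ContinuousMap.sub_apply, h2, h2, if_pos hiF, if_neg hiG, sub_zero, norm_one] at h3
    exact h3
  intro F G hF hG hne
  have h2 : (∃ i ∈ F, i ∉ G) ∨ (∃ i ∈ G, i ∉ F) := by
    by_contra hcon
    push Not at hcon
    exact hne (Finset.Subset.antisymm hcon.1 hcon.2)
  rcases h2 with ⟨i, hiF, hiG⟩ | ⟨i, hiG, hiF⟩
  · exact key F G i (hF i hiF) hiF hiG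
  · rw [norm_sub_rev]
    exact key G F i (hG i hiG) hiG hiF

/-- The points of `K` supported by `F`. -/
abbrev suppSet (e : ∀ i, X i) (K : Set (∀ i, X i)) (F : Finset I) : Set (∀ i, X i) :=
  {p | p ∈ K ∧ ∀ i, i ∉ F → p i = e i}

/-- The image of the retraction is the space of the points supported by `F`. -/
def homeoRange (e : ∀ i, X i) (hr : ∀ F : Finset I, ∀ p ∈ K, restr e F p ∈ K) (F : Finset I) :
    suppSet e K F ≃ₜ range (rK e hr F) where
  toFun p := ⟨⟨p.1, p.2.1⟩, ⟨p.1, p.2.1⟩, Subtype.ext (restr_eq_self p.2.2)⟩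
  invFun q := ⟨q.1.1, q.1.2, by
    obtain ⟨_, k, rfl⟩ := q
    intro i hi
    exact restr_of_notMem e k.1 hi⟩
  left_inv _ := rfl
  right_inv _ := rfl
  continuous_toFun := (continuous_subtype_val.subtype_mk _).subtype_mk _
  continuous_invFun := (continuous_subtype_val.comp continuous_subtype_val).subtype_mk _

theorem hasSep_of_tame [∀ i, CompactSpace (X i)] [∀ i, T2Space (X i)] [CompactSpace K]
    (e : ∀ i, X i) (hr : ∀ F : Finset I, ∀ p ∈ K, restr e F p ∈ K)
    (hT : ∀ F : Finset I, Tame (suppSet e K F)) : HasSep C(K, ℝ) := by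
  classical
  obtain ⟨lab, hlab⟩ := exists_lab e hr
  exact (skel_rK e hr).hasSep lab hlab fun F => ((hT F).of_homeomorph (homeoRange e hr F)).hasRounding

/-! ### The two classes -/

theorem tame_of_scattered {T : Type w} [TopologicalSpace T] [CompactSpace T] [T2Space T]
    (h : ScatteredSet (univ : Set T)) : Tame T := by
  apply tame_of_scatteredByMetrizable
  refine ⟨∅, isClosed_empty, ?_, ?_⟩
  · have : DiscreteTopology (∅ : Set T) := inferInstance
    infer_instance
  · rw [compl_empty]
    exact h

theorem isClosed_suppSet [∀ i, T2Space (X i)] (e : ∀ i, X i) (hK : IsClosed K) (F : Finset I) :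
    IsClosed (suppSet e K F) := by
  have : suppSet e K F = K ∩ ⋂ i : {i // i ∉ F}, {p : ∀ i, X i | p i.1 = e i.1} := by
    ext p
    simp
  rw [this]
  refine hK.inter (isClosed_iInter fun i => ?_)
  exact isClosed_eq (continuous_apply i.1) continuous_const

theorem tame_suppSet_of_scattered [∀ i, CompactSpace (X i)] [∀ i, T2Space (X i)]
    (hX : ∀ i, ScatteredSet (univ : Set (X i))) (hK : IsClosed K) (e : ∀ i, X i)
    (F : Finset I) : Tame (suppSet e K F) := by
  have := isCompact_iff_compactSpace.mp (isClosed_suppSet e hK F).isCompact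
  apply tame_of_scattered
  apply scattered_univ_subtype
  exact (scattered_supp hX e F).mono fun p hp => hp.2

theorem metrizable_pi_finite {ι : Type v} [Finite ι] {Y : ι → Type u}
    [∀ i, TopologicalSpace (Y i)] [∀ i, CompactSpace (Y i)] (h : ∀ i, MetrizableSpace (Y i)) :
    MetrizableSpace (∀ i, Y i) := by
  have h1 : ∀ i, SecondCountableTopology (Y i) := by
    intro i
    have := h i
    let _ : MetricSpace (Y i) := metrizableSpaceMetric (Y i)
    infer_instance
  have h2 : ∀ i, T2Space (Y i) := by
    intro i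
    have := h i
    infer_instance
  have : Countable ι := Finite.to_countable
  exact metrizableSpace_of_t3_secondCountable _

theorem scattered_pi_finite {ι : Type v} [Finite ι] {Y : ι → Type u}
    [∀ i, TopologicalSpace (Y i)] (h : ∀ i, ScatteredSet (univ : Set (Y i))) (e : ∀ i, Y i) :
    ScatteredSet (univ : Set (∀ i, Y i)) := by
  have := Fintype.ofFinite ι
  have h1 := scattered_supp h e (Finset.univ : Finset ι)
  refine h1.mono fun p _ i hi => absurd (Finset.mem_univ i) hi

theorem tame_prod_scattered {M : Type v} {S : Type u} [TopologicalSpace M] [CompactSpace M]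
    [MetrizableSpace M] [TopologicalSpace S] [CompactSpace S] [T2Space S]
    (hS : ScatteredSet (univ : Set S)) (s₀ : S) : Tame (M × S) := by
  have h1 : Tame (M × (∀ _ : {i : ℕ // i = 0}, S)) :=
    tame_prod (q := fun n => n = 0) (X := fun _ => S) (fun _ => hS) (fun _ => s₀)
  exact h1.of_homeomorph ((Homeomorph.refl M).prodCongr (Homeomorph.funUnique {i : ℕ // i = 0} S))

open Classical in
/-- The finite product, split into the metrizable and the other factors. -/
def homeoSplit (e : ∀ i, X i) (F : Finset I) :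
    ((∀ i : {i // i ∈ F ∧ MetrizableSpace (X i)}, X i.1) ×
      (∀ i : {i // i ∈ F ∧ ¬ MetrizableSpace (X i)}, X i.1)) ≃ₜ
      suppSet e (univ : Set (∀ i, X i)) F where
  toFun q := ⟨fun i => if h : i ∈ F then
      (if h' : MetrizableSpace (X i) then q.1 ⟨i, h, h'⟩ else q.2 ⟨i, h, h'⟩) else e i,
    mem_univ _, fun _ hi => dif_neg hi⟩
  invFun p := (fun i => p.1 i.1, fun i => p.1 i.1)
  left_inv q := by
    apply Prod.ext
    · funext i
      simp only
      rw [dif_pos i.2.1, dif_pos i.2.2]
    · funext i
      simp only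
      rw [dif_pos i.2.1, dif_neg i.2.2]
  right_inv p := by
    apply Subtype.ext
    funext i
    simp only
    split_ifs with h h'
    · rfl
    · rfl
    · exact (p.2.2 i h).symm
  continuous_toFun := by
    apply Continuous.subtype_mk
    apply continuous_pi
    intro i
    split_ifs with h h'
    · exact (continuous_apply _).comp continuous_fst
    · exact (continuous_apply _).comp continuous_snd
    · exact continuous_const
  continuous_invFun := by
    refine Continuous.prodMk ?_ ?_
    · exact continuous_pi fun i => (continuous_apply i.1).comp continuous_subtype_val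
    · exact continuous_pi fun i => (continuous_apply i.1).comp continuous_subtype_val

theorem tame_suppSet_univ [∀ i, CompactSpace (X i)] [∀ i, T2Space (X i)]
    (hX : ∀ i, MetrizableSpace (X i) ∨ ScatteredSet (univ : Set (X i))) (e : ∀ i, X i)
    (F : Finset I) : Tame (suppSet e (univ : Set (∀ i, X i)) F) := by
  have hf : Finite {i // i ∈ F} := Finset.finite_toSet F
  have hf1 : Finite {i // i ∈ F ∧ MetrizableSpace (X i)} :=
    Finite.of_injective (fun i => (⟨i.1, i.2.1⟩ : {i // i ∈ F})) (by
      intro i j hij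
      exact Subtype.ext (congrArg (fun z : {i // i ∈ F} => z.1) hij))
  have hf2 : Finite {i // i ∈ F ∧ ¬ MetrizableSpace (X i)} :=
    Finite.of_injective (fun i => (⟨i.1, i.2.1⟩ : {i // i ∈ F})) (by
      intro i j hij
      exact Subtype.ext (congrArg (fun z : {i // i ∈ F} => z.1) hij))
  have hM : MetrizableSpace (∀ i : {i // i ∈ F ∧ MetrizableSpace (X i)}, X i.1) :=
    metrizable_pi_finite (fun i => i.2.2)
  have hS : ScatteredSet (univ : Set (∀ i : {i // i ∈ F ∧ ¬ MetrizableSpace (X i)}, X i.1)) :=
    scattered_pi_finite (fun i => (hX i.1).resolve_left i.2.2) (fun i => e i.1)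
  exact (tame_prod_scattered hS (fun i => e i.1)).of_homeomorph (homeoSplit e F)

end

end

end Pool.Agent.Lib.WeakBorel
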