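import Mathlib

/-!
Scattered sets, functionals on `C(K)` restricted to functions living on a scattered open set,
and gaps in the ranges of continuous functions on scattered sets.
-/

set_option autoImplicit false

open Set Filter Topology

namespace Pool.Agent.Lib.WeakBorel

universe u v w

/-- A subset `T` of a topological space is scattered: every nonempty `A ⊆ T` has a point which is
isolated in `A`. -/
def ScatteredSet {X : Type u} [TopologicalSpace X] (T : Set X) : Prop :=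
  ∀ A : Set X, A ⊆ T → A.Nonempty → ∃ x ∈ A, ∃ U : Set X, IsOpen U ∧ U ∩ A = {x}

theorem ScatteredSet.mono {X : Type u} [TopologicalSpace X] {S T : Set X} (h : ScatteredSet T)
    (hST : S ⊆ T) : ScatteredSet S := fun A hA hne => h A (hA.trans hST) hne

/-- Soft threshold on the real line. -/
def st (η r : ℝ) : ℝ := r - max (-η) (min r η)

theorem st_cont (η : ℝ) : Continuous (st η) := by
  unfold st
  fun_prop

theorem abs_st_le {η : ℝ} (hη : 0 ≤ η) (r : ℝ) : |st η r| ≤ |r| := by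
  unfold st
  rcases le_total r η with h | h
  · rw [min_eq_left h]
    rcases le_total (-η) r with h2 | h2
    · rw [max_eq_right h2, sub_self, abs_zero]
      exact abs_nonneg r
    · rw [max_eq_left h2, abs_of_nonpos (by linarith), abs_of_nonpos (by linarith)]
      linarith
  · rw [min_eq_right h, max_eq_right (by linarith), abs_of_nonneg (by linarith),
      abs_of_nonneg (by linarith)]
    linarith

theorem abs_sub_st_le {η : ℝ} (hη : 0 ≤ η) (r : ℝ) : |r - st η r| ≤ η := by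
  unfold st
  rw [sub_sub_cancel, abs_le]
  constructor
  · exact le_max_left _ _
  · exact max_le (by linarith) (min_le_right _ _)

theorem st_eq_zero {η r : ℝ} (h : |r| ≤ η) : st η r = 0 := by
  unfold st
  rw [abs_le] at h
  rw [min_eq_left h.2, max_eq_right h.1, sub_self]

section

variable {K : Type u} [TopologicalSpace K] [CompactSpace K]

/-- Soft threshold of a continuous function. -/
def cst (η : ℝ) (f : C(K, ℝ)) : C(K, ℝ) := ⟨fun k => st η (f k), (st_cont η).comp f.continuous⟩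

omit [CompactSpace K] in
@[simp] theorem cst_apply (η : ℝ) (f : C(K, ℝ)) (k : K) : cst η f k = st η (f k) := rfl

theorem norm_cst_le {η : ℝ} (hη : 0 ≤ η) (f : C(K, ℝ)) : ‖cst η f‖ ≤ ‖f‖ := by
  rw [ContinuousMap.norm_le _ (norm_nonneg f)]
  intro k
  rw [cst_apply, Real.norm_eq_abs]
  exact (abs_st_le hη _).trans (f.norm_coe_le_norm k)

theorem norm_sub_cst_le {η : ℝ} (hη : 0 ≤ η) (f : C(K, ℝ)) : ‖f - cst η f‖ ≤ η := by
  rw [ContinuousMap.norm_le _ hη]
  intro k
  rw [ContinuousMap.sub_apply, cst_apply, Real.norm_eq_abs]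
  exact abs_sub_st_le hη _

/-- `φ` is approximated, up to `ε` in norm, by a combination of evaluations on the functions
vanishing on `F`. -/
def Approx (φ : C(K, ℝ) →L[ℝ] ℝ) (F : Set K) (ε : ℝ) : Prop :=
  ∃ (s : Finset K) (c : K → ℝ), ∀ f : C(K, ℝ), (∀ k ∈ F, f k = 0) →
    |φ f - ∑ k ∈ s, c k * f k| ≤ ε * ‖f‖

theorem abs_sum_le (s : Finset K) (c : K → ℝ) (f : C(K, ℝ)) :
    |∑ k ∈ s, c k * f k| ≤ (∑ k ∈ s, |c k|) * ‖f‖ := by
  calc |∑ k ∈ s, c k * f k| ≤ ∑ k ∈ s, |c k * f k| := Finset.abs_sum_le_sum_abs _ _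
    _ ≤ ∑ k ∈ s, |c k| * ‖f‖ := by
        apply Finset.sum_le_sum
        intro k _
        rw [abs_mul]
        exact mul_le_mul_of_nonneg_left (f.norm_coe_le_norm k) (abs_nonneg _)
    _ = (∑ k ∈ s, |c k|) * ‖f‖ := by rw [Finset.sum_mul]

variable [T2Space K]

/-- The chain step. -/
theorem approx_sInter (φ : C(K, ℝ) →L[ℝ] ℝ) (c : Set (Set K)) (hne : c.Nonempty)
    (hc : IsChain (· ⊆ ·) c) (hcl : ∀ F ∈ c, IsClosed F)
    (happ : ∀ F ∈ c, ∀ ε > 0, Approx φ F ε) :
    ∀ ε > 0, Approx φ (⋂₀ c) ε := by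
  intro ε hε
  set V : Set ℝ := {r | ∃ F ∈ c, ∃ f : C(K, ℝ), (∀ k ∈ F, f k = 0) ∧ ‖f‖ ≤ 1 ∧ r = φ f} with hV
  have hbdd : BddAbove V := by
    refine ⟨‖φ‖, ?_⟩
    rintro r ⟨F, hF, f, hf, hf1, rfl⟩
    calc φ f ≤ ‖φ f‖ := Real.le_norm_self _
      _ ≤ ‖φ‖ * ‖f‖ := φ.le_opNorm f
      _ ≤ ‖φ‖ * 1 := by gcongr
      _ = ‖φ‖ := mul_one _
  have hVne : V.Nonempty := by
    obtain ⟨F, hF⟩ := hne
    exact ⟨φ 0, F, hF, 0, fun _ _ => rfl, by simp, rfl⟩
  set ε' : ℝ := ε / 3 with hε'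
  have hε'0 : 0 < ε' := by positivity
  obtain ⟨r, ⟨F₁, hF₁, g, hg0, hg1, rfl⟩, hr⟩ := exists_lt_of_lt_csSup hVne
    (show sSup V - ε' / 2 < sSup V by linarith)
  -- soft threshold of `g`
  obtain ⟨η, hη, hφη⟩ : ∃ η > 0, ‖φ‖ * η ≤ ε' / 2 := by
    refine ⟨ε' / 2 / (‖φ‖ + 1), by positivity, ?_⟩
    rw [← mul_div_assoc, div_le_iff₀ (by positivity)]
    nlinarith [norm_nonneg φ]
  set g' := cst η g with hg'
  have hg'1 : ‖g'‖ ≤ 1 := (norm_cst_le hη.le g).trans hg1
  have hφg' : sSup V - ε' < φ g' := by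
    have h1 : |φ (g - g')| ≤ ε' / 2 := by
      calc |φ (g - g')| ≤ ‖φ‖ * ‖g - g'‖ := φ.le_opNorm _
        _ ≤ ‖φ‖ * η := by gcongr; exact norm_sub_cst_le hη.le g
        _ ≤ ε' / 2 := hφη
    rw [map_sub] at h1
    have := (abs_le.mp h1).2
    linarith
  obtain ⟨s₀, c₀, hs₀⟩ := happ F₁ hF₁ ε' hε'0
  classical
  set s := s₀.filter (fun k => k ∉ F₁) with hs
  -- the cutoff
  set A : Set K := {k | η ≤ |g k|} ∪ (s : Set K) with hA
  have hAcl : IsClosed A :=
    (isClosed_le continuous_const (continuous_abs.comp g.continuous)).union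
      (Finset.finite_toSet s).isClosed
  have hdis : Disjoint F₁ A := by
    rw [Set.disjoint_left]
    rintro k hk (h | h)
    · simp only [mem_ofPred_eq] at h
      rw [hg0 k hk, abs_zero] at h
      linarith
    · rw [hs, Finset.mem_coe, Finset.mem_filter] at h
      exact h.2 hk
  obtain ⟨h, hh0, hh1, hh01⟩ := exists_continuous_zero_one_of_isClosed (hcl F₁ hF₁) hAcl hdis
  have key : ∀ F₂ ∈ c, ∀ f : C(K, ℝ), (∀ k ∈ F₂, f k = 0) → ‖f‖ ≤ 1 →
      |φ f - ∑ k ∈ s, c₀ k * f k| ≤ 2 * ε' := by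
    intro F₂ hF₂ f hf hf1
    have hfk : ∀ k, |f k| ≤ 1 := fun k => (f.norm_coe_le_norm k).trans hf1
    have hg'k : ∀ k, |g' k| ≤ 1 := fun k => (g'.norm_coe_le_norm k).trans hg'1
    set f₁ : C(K, ℝ) := f * h with hf₁
    set f₂ : C(K, ℝ) := f * (1 - h) with hf₂
    have hsum : f = f₁ + f₂ := by
      rw [hf₁, hf₂]; ring
    have hf₁0 : ∀ k ∈ F₁, f₁ k = 0 := by
      intro k hk
      have : h k = 0 := hh0 hk
      simp [hf₁, this]
    have hf₁n : ‖f₁‖ ≤ 1 := by
      rw [ContinuousMap.norm_le _ zero_le_one]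
      intro k
      rw [hf₁, ContinuousMap.mul_apply, Real.norm_eq_abs, abs_mul,
        abs_of_nonneg (hh01 k).1]
      calc |f k| * h k ≤ 1 * 1 := mul_le_mul (hfk k) (hh01 k).2 (hh01 k).1 zero_le_one
        _ = 1 := one_mul 1
    have hpt : ∀ k, |g' k| + |f₂ k| ≤ 1 := by
      intro k
      by_cases hk : η ≤ |g k|
      · have h1 : h k = 1 := hh1 (Or.inl hk)
        have : f₂ k = 0 := by simp [hf₂, h1]
        rw [this, abs_zero, add_zero]
        exact hg'k k
      · have : g' k = 0 := st_eq_zero (not_le.mp hk).le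
        rw [this, abs_zero, zero_add, hf₂, ContinuousMap.mul_apply, abs_mul]
        have h2 : |(1 - h : C(K, ℝ)) k| ≤ 1 := by
          simp only [ContinuousMap.sub_apply, ContinuousMap.one_apply]
          rw [abs_le]
          constructor <;> linarith [(hh01 k).1, (hh01 k).2]
        calc |f k| * |(1 - h : C(K, ℝ)) k| ≤ 1 * 1 :=
              mul_le_mul (hfk k) h2 (abs_nonneg _) zero_le_one
          _ = 1 := one_mul 1
    have hvan : ∃ F ∈ c, ∀ k ∈ F, g' k = 0 ∧ f₂ k = 0 := by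
      have hA1 : ∀ k ∈ F₁, g' k = 0 := by
        intro k hk
        have : g k = 0 := hg0 k hk
        rw [hg', cst_apply, this]
        apply st_eq_zero
        rw [abs_zero]
        exact hη.le
      have hA2 : ∀ k ∈ F₂, f₂ k = 0 := by
        intro k hk
        simp [hf₂, hf k hk]
      rcases hc.total hF₁ hF₂ with h12 | h21
      · exact ⟨F₁, hF₁, fun k hk => ⟨hA1 k hk, hA2 k (h12 hk)⟩⟩
      · exact ⟨F₂, hF₂, fun k hk => ⟨hA1 k (h21 hk), hA2 k hk⟩⟩
    obtain ⟨F₃, hF₃, hF₃0⟩ := hvan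
    have hplus : φ (g' + f₂) ≤ sSup V := by
      apply le_csSup hbdd
      refine ⟨F₃, hF₃, g' + f₂, ?_, ?_, rfl⟩
      · intro k hk
        simp [(hF₃0 k hk).1, (hF₃0 k hk).2]
      · rw [ContinuousMap.norm_le _ zero_le_one]
        intro k
        exact (abs_add_le _ _).trans (hpt k)
    have hminus : φ (g' - f₂) ≤ sSup V := by
      apply le_csSup hbdd
      refine ⟨F₃, hF₃, g' - f₂, ?_, ?_, rfl⟩
      · intro k hk
        simp [(hF₃0 k hk).1, (hF₃0 k hk).2]
      · rw [ContinuousMap.norm_le _ zero_le_one]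
        intro k
        exact (abs_sub _ _).trans (hpt k)
    have hφf₂ : |φ f₂| ≤ ε' := by
      rw [map_add] at hplus
      rw [map_sub] at hminus
      rw [abs_le]
      constructor <;> linarith
    have hψ : ∑ k ∈ s, c₀ k * f k = ∑ k ∈ s₀, c₀ k * f₁ k := by
      rw [hs, Finset.sum_filter]
      apply Finset.sum_congr rfl
      intro k hk
      split_ifs with hkF
      · rw [hf₁0 k hkF, mul_zero]
      · have : h k = 1 := by
          apply hh1
          right
          rw [hs, Finset.mem_coe, Finset.mem_filter]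
          exact ⟨hk, hkF⟩
        simp [hf₁, this]
    have h3 := hs₀ f₁ hf₁0
    have h4 : ε' * ‖f₁‖ ≤ ε' := by nlinarith
    rw [hψ]
    have h5 : φ f = φ f₁ + φ f₂ := by rw [← map_add, ← hsum]
    rw [h5]
    have h6 := h3.trans h4
    rw [abs_le] at h6 hφf₂ ⊢
    constructor <;> linarith [h6.1, h6.2, hφf₂.1, hφf₂.2]
  refine ⟨s, c₀, ?_⟩
  -- homogeneity
  have key2 : ∀ F₂ ∈ c, ∀ f : C(K, ℝ), (∀ k ∈ F₂, f k = 0) →
      |φ f - ∑ k ∈ s, c₀ k * f k| ≤ 2 * ε' * ‖f‖ := by
    intro F₂ hF₂ f hf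
    by_cases hf0 : f = 0
    · subst hf0; simp
    · have hpos : 0 < ‖f‖ := norm_pos_iff.mpr hf0
      have h1 := key F₂ hF₂ (‖f‖⁻¹ • f) (fun k hk => by simp [hf k hk])
        (by rw [norm_smul, norm_inv, norm_norm, inv_mul_cancel₀ hpos.ne'])
      have h2 : φ (‖f‖⁻¹ • f) - ∑ k ∈ s, c₀ k * (‖f‖⁻¹ • f) k =
          ‖f‖⁻¹ * (φ f - ∑ k ∈ s, c₀ k * f k) := by
        rw [map_smul, smul_eq_mul, mul_sub, Finset.mul_sum]
        congr 1
        apply Finset.sum_congr rfl
        intro k _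
        simp only [ContinuousMap.smul_apply, smul_eq_mul]
        ring
      rw [h2, abs_mul, abs_of_pos (inv_pos.mpr hpos), inv_mul_le_iff₀ hpos] at h1
      linarith
  intro f hf
  apply le_of_forall_pos_le_add
  intro δ hδ
  set B : ℝ := ‖φ‖ + ∑ k ∈ s, |c₀ k| with hB
  have hB0 : 0 ≤ B := by positivity
  obtain ⟨θ, hθ, hθB⟩ : ∃ θ > 0, B * θ ≤ δ := by
    refine ⟨δ / (B + 1), by positivity, ?_⟩
    rw [← mul_div_assoc, div_le_iff₀ (by positivity)]
    nlinarith
  -- find an element of the chain on which `|f| < θ`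
  have hex : ∃ F₂ ∈ c, ∀ k ∈ F₂, |f k| ≤ θ := by
    have hcpt : IsCompact {k : K | θ ≤ |f k|} :=
      (isClosed_le continuous_const (continuous_abs.comp f.continuous)).isCompact
    have : Nonempty c := hne.to_subtype
    obtain ⟨⟨F₂, hF₂⟩, h2⟩ := hcpt.elim_directed_family_closed (fun F : c => (F : Set K))
      (fun F => hcl F F.2) (by
        rw [Set.eq_empty_iff_forall_notMem]
        rintro k ⟨hk1, hk2⟩
        have : k ∈ ⋂₀ c := by
          rw [Set.sInter_eq_iInter]
          exact hk2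
        have h3 := hf k this
        simp only [mem_ofPred_eq] at hk1
        rw [h3, abs_zero] at hk1
        linarith)
      (by
        intro F F'
        rcases hc.total F.2 F'.2 with h | h
        · exact ⟨F, subset_rfl, h⟩
        · exact ⟨F', h, subset_rfl⟩)
    refine ⟨F₂, hF₂, ?_⟩
    intro k hk
    by_contra hcon
    rw [not_le] at hcon
    have : k ∈ {k : K | θ ≤ |f k|} ∩ F₂ := ⟨hcon.le, hk⟩
    simp only at h2
    rw [h2] at this
    exact this
  obtain ⟨F₂, hF₂, hF₂θ⟩ := hex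
  have h1 := key2 F₂ hF₂ (cst θ f) (fun k hk => st_eq_zero (hF₂θ k hk))
  have h2 : ‖cst θ f‖ ≤ ‖f‖ := norm_cst_le hθ.le f
  have h3 : |φ (f - cst θ f) - ∑ k ∈ s, c₀ k * (f - cst θ f) k| ≤ B * θ := by
    have h4 : |φ (f - cst θ f)| ≤ ‖φ‖ * θ := by
      calc |φ (f - cst θ f)| ≤ ‖φ‖ * ‖f - cst θ f‖ := φ.le_opNorm _
        _ ≤ ‖φ‖ * θ := by gcongr; exact norm_sub_cst_le hθ.le f
    have h5 : |∑ k ∈ s, c₀ k * (f - cst θ f) k| ≤ (∑ k ∈ s, |c₀ k|) * θ := by
      refine (abs_sum_le s c₀ _).trans ?_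
      gcongr
      exact norm_sub_cst_le hθ.le f
    calc |φ (f - cst θ f) - ∑ k ∈ s, c₀ k * (f - cst θ f) k|
        ≤ |φ (f - cst θ f)| + |∑ k ∈ s, c₀ k * (f - cst θ f) k| := abs_sub _ _
      _ ≤ ‖φ‖ * θ + (∑ k ∈ s, |c₀ k|) * θ := add_le_add h4 h5
      _ = B * θ := by rw [hB]; ring
  have h6 : φ f - ∑ k ∈ s, c₀ k * f k =
      (φ (cst θ f) - ∑ k ∈ s, c₀ k * (cst θ f) k) +
      (φ (f - cst θ f) - ∑ k ∈ s, c₀ k * (f - cst θ f) k) := by
    rw [map_sub]
    simp only [ContinuousMap.sub_apply, mul_sub, Finset.sum_sub_distrib]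
    ring
  rw [h6]
  calc _ ≤ |φ (cst θ f) - ∑ k ∈ s, c₀ k * (cst θ f) k| +
        |φ (f - cst θ f) - ∑ k ∈ s, c₀ k * (f - cst θ f) k| := abs_add_le _ _
    _ ≤ 2 * ε' * ‖cst θ f‖ + B * θ := add_le_add h1 h3
    _ ≤ ε * ‖f‖ + δ := by
        have : 2 * ε' * ‖cst θ f‖ ≤ ε * ‖f‖ := by
          apply mul_le_mul _ h2 (norm_nonneg _) hε.le
          rw [hε']; linarith
        linarith

/-- Every functional on `C(K)` is a norm limit of combinations of evaluations on the functions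
vanishing on `F₀`, if the complement of `F₀` is scattered. -/
theorem approx_functional {F₀ : Set K} (hF₀ : IsClosed F₀) (hS : ScatteredSet F₀ᶜ)
    (φ : C(K, ℝ) →L[ℝ] ℝ) {ε : ℝ} (hε : 0 < ε) : Approx φ F₀ ε := by
  classical
  set 𝓕 : Set (Set K) := {F | IsClosed F ∧ F₀ ⊆ F ∧ ∀ ε > 0, Approx φ F ε} with h𝓕
  obtain ⟨F, hF⟩ := zorn_superset 𝓕 (by
    intro c hc hchain
    rcases c.eq_empty_or_nonempty with rfl | hne
    · refine ⟨univ, ⟨isClosed_univ, subset_univ _, ?_⟩, by simp⟩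
      intro ε hε
      refine ⟨∅, 0, ?_⟩
      intro f hf
      have : f = 0 := by
        ext k
        exact hf k (mem_univ k)
      subst this
      simp
    · refine ⟨⋂₀ c, ⟨isClosed_sInter fun F hF => (hc hF).1, ?_, ?_⟩, fun s hs => sInter_subset_of_mem hs⟩
      · exact subset_sInter fun F hF => (hc hF).2.1
      · exact approx_sInter φ c hne hchain (fun F hF => (hc hF).1) (fun F hF => (hc hF).2.2))
  obtain ⟨hFcl, hF₀F, hFapp⟩ := hF.prop
  by_cases hEq : F ⊆ F₀
  · have : F = F₀ := Subset.antisymm hEq hF₀F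
    rw [← this]
    exact hFapp ε hε
  exfalso
  obtain ⟨x, ⟨hxF, hxF₀⟩, U, hU, hUx⟩ := hS (F \ F₀) (fun k hk => hk.2) (by
    rw [Set.not_subset] at hEq
    obtain ⟨k, hk, hk'⟩ := hEq
    exact ⟨k, hk, hk'⟩)
  have hxU : x ∈ U := by
    have : x ∈ U ∩ (F \ F₀) := by rw [hUx]; rfl
    exact this.1
  set F₁ : Set K := F \ (U \ F₀) with hF₁
  have hF₁cl : IsClosed F₁ := by
    rw [hF₁, sdiff_eq]
    exact hFcl.inter (hU.sdiff hF₀).isClosed_compl
  have hxF₁ : x ∉ F₁ := fun h => h.2 ⟨hxU, hxF₀⟩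
  have hsplit : ∀ k ∈ F, k = x ∨ k ∈ F₁ := by
    intro k hk
    by_cases hk1 : k ∈ U \ F₀
    · left
      have : k ∈ U ∩ (F \ F₀) := ⟨hk1.1, hk, hk1.2⟩
      rw [hUx] at this
      exact this
    · right
      exact ⟨hk, hk1⟩
  have hmem : F₁ ∈ 𝓕 := by
    refine ⟨hF₁cl, fun k hk => ⟨hF₀F hk, fun h => h.2 hk⟩, ?_⟩
    intro ε hε
    obtain ⟨s, c, hsc⟩ := hFapp (ε / 2) (by positivity)
    obtain ⟨u, hu0, hu1, hu01⟩ := exists_continuous_zero_one_of_isClosed hF₁cl
      (isClosed_singleton (x := x)) (by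
        rw [Set.disjoint_singleton_right]
        exact hxF₁)
    have hux : u x = 1 := hu1 rfl
    set a : ℝ := φ u - ∑ k ∈ s, c k * u k with ha
    refine ⟨insert x s, fun k => (if k ∈ s then c k else 0) + if k = x then a else 0, ?_⟩
    intro f hf
    have h1 := hsc (f - f x • u) (by
      intro k hk
      rcases hsplit k hk with rfl | hk1
      · simp [hux]
      · have : u k = 0 := hu0 hk1
        simp [hf k hk1, this])
    have h2 : ‖f - f x • u‖ ≤ 2 * ‖f‖ := by
      have h3 : ‖f x • u‖ ≤ ‖f‖ := by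
        rw [norm_smul]
        have h4 : ‖u‖ ≤ 1 := by
          rw [ContinuousMap.norm_le _ zero_le_one]
          intro k
          rw [Real.norm_eq_abs, abs_of_nonneg (hu01 k).1]
          exact (hu01 k).2
        calc ‖f x‖ * ‖u‖ ≤ ‖f‖ * 1 :=
              mul_le_mul (f.norm_coe_le_norm x) h4 (norm_nonneg _) (norm_nonneg _)
          _ = ‖f‖ := mul_one _
      calc ‖f - f x • u‖ ≤ ‖f‖ + ‖f x • u‖ := norm_sub_le _ _
        _ ≤ 2 * ‖f‖ := by linarith
    have h5 : ∑ k ∈ insert x s, ((if k ∈ s then c k else 0) + if k = x then a else 0) * f k =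
        ∑ k ∈ s, c k * f k + a * f x := by
      simp only [add_mul, Finset.sum_add_distrib]
      congr 1
      · rw [← Finset.sum_subset (Finset.subset_insert x s)]
        · apply Finset.sum_congr rfl
          intro k hk
          rw [if_pos hk]
        · intro k _ hk
          rw [if_neg hk, zero_mul]
      · rw [Finset.sum_eq_single x]
        · rw [if_pos rfl]
        · intro k _ hk
          rw [if_neg hk, zero_mul]
        · intro h
          exact absurd (Finset.mem_insert_self x s) h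
    rw [h5]
    have h6 : φ (f - f x • u) - ∑ k ∈ s, c k * (f - f x • u) k =
        φ f - (∑ k ∈ s, c k * f k + a * f x) := by
      rw [map_sub, map_smul, ha]
      simp only [ContinuousMap.sub_apply, ContinuousMap.smul_apply, smul_eq_mul, mul_sub,
        Finset.sum_sub_distrib]
      have : ∑ k ∈ s, c k * (f x * u k) = f x * ∑ k ∈ s, c k * u k := by
        rw [Finset.mul_sum]
        apply Finset.sum_congr rfl
        intro k _
        ring
      rw [this]
      ring
    rw [← h6]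
    calc _ ≤ ε / 2 * ‖f - f x • u‖ := h1
      _ ≤ ε / 2 * (2 * ‖f‖) := by gcongr
      _ = ε * ‖f‖ := by ring
  have h7 := hF.le_of_le hmem (fun k hk => hk.1) hxF
  exact hxF₁ h7

end

section Gap

variable {K : Type u} [TopologicalSpace K] [CompactSpace K]

/-- The image of a closed scattered set under a continuous real function contains no interval. -/
theorem not_Icc_subset_image {T : Set K} (hT : IsClosed T) (hS : ScatteredSet T) (f : C(K, ℝ))
    {a b : ℝ} (hab : a < b) : ¬ Icc a b ⊆ f '' T := by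
  intro hsub
  set 𝓛 : Set (Set K) := {L | IsClosed L ∧ L ⊆ T ∧ Icc a b ⊆ f '' L} with h𝓛
  obtain ⟨L, hL⟩ := zorn_superset 𝓛 (by
    intro c hc hchain
    rcases c.eq_empty_or_nonempty with rfl | hne
    · exact ⟨T, ⟨hT, subset_rfl, hsub⟩, by simp⟩
    · refine ⟨⋂₀ c, ⟨isClosed_sInter fun F hF => (hc hF).1, ?_, ?_⟩,
        fun s hs => sInter_subset_of_mem hs⟩
      · obtain ⟨F, hF⟩ := hne
        exact (sInter_subset_of_mem hF).trans (hc hF).2.1
      · intro r hr
        have hcpt : IsCompact (f ⁻¹' {r}) := (isClosed_singleton.preimage f.continuous).isCompact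
        have : Nonempty c := hne.to_subtype
        by_contra hcon
        obtain ⟨⟨F₂, hF₂⟩, h2⟩ := hcpt.elim_directed_family_closed (fun F : c => (F : Set K))
          (fun F => (hc F.2).1) (by
            rw [Set.eq_empty_iff_forall_notMem]
            rintro k ⟨hk1, hk2⟩
            apply hcon
            refine ⟨k, ?_, hk1⟩
            rw [Set.sInter_eq_iInter]
            exact hk2)
          (by
            intro F F'
            rcases hchain.total F.2 F'.2 with h | h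
            · exact ⟨F, subset_rfl, h⟩
            · exact ⟨F', h, subset_rfl⟩)
        obtain ⟨k, hk, hkr⟩ := (hc hF₂).2.2 hr
        have : k ∈ f ⁻¹' {r} ∩ F₂ := ⟨hkr, hk⟩
        simp only at h2
        rw [h2] at this
        exact this)
  obtain ⟨hLcl, hLT, hLsub⟩ := hL.prop
  have hLne : L.Nonempty := by
    obtain ⟨k, hk, -⟩ := hLsub (left_mem_Icc.mpr hab.le)
    exact ⟨k, hk⟩
  obtain ⟨p, hp, U, hU, hUp⟩ := hS L hLT hLne
  have hpU : p ∈ U := by
    have : p ∈ U ∩ L := by rw [hUp]; rfl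
    exact this.1
  have hmem : L \ U ∈ 𝓛 := by
    refine ⟨hLcl.sdiff hU, sdiff_subset.trans hLT, ?_⟩
    have hcl : IsClosed (f '' (L \ U)) := ((hLcl.sdiff hU).isCompact.image f.continuous).isClosed
    have h1 : Icc a b \ {f p} ⊆ f '' (L \ U) := by
      rintro r ⟨hr, hrp⟩
      obtain ⟨k, hk, rfl⟩ := hLsub hr
      refine ⟨k, ⟨hk, ?_⟩, rfl⟩
      intro hkU
      have : k ∈ U ∩ L := ⟨hkU, hk⟩
      rw [hUp] at this
      have h3 : k = p := this
      exact hrp (by rw [h3]; rfl)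
    have h2 : Icc a b ⊆ closure (Icc a b \ {f p}) := by
      have h3 : Ioo a b \ {f p} ⊆ Icc a b \ {f p} := sdiff_subset_sdiff_left Ioo_subset_Icc_self
      have h4 : closure (Ioo a b) ⊆ closure (Ioo a b \ {f p}) := by
        apply closure_minimal _ isClosed_closure
        intro r hr
        by_cases hrp : r = f p
        · -- `r` is a limit of other points of `Ioo a b`
          rw [mem_closure_iff_nhds]
          intro V hV
          have h5 : V ∩ Ioo a b ∈ 𝓝 r := inter_mem hV (Ioo_mem_nhds hr.1 hr.2)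
          have h6 : (V ∩ Ioo a b) ∈ 𝓝[≠] r := mem_nhdsWithin_of_mem_nhds h5
          have h7 : (V ∩ Ioo a b) ∩ {r}ᶜ ∈ 𝓝[≠] r :=
            inter_mem h6 self_mem_nhdsWithin
          obtain ⟨q, hq⟩ := (inferInstance : NeBot (𝓝[≠] r)).nonempty_of_mem h7
          exact ⟨q, hq.1.1, hq.1.2, fun h => hq.2 (by rw [hrp]; exact h)⟩
        · exact subset_closure ⟨hr, hrp⟩
      rw [closure_Ioo hab.ne] at h4
      exact h4.trans (closure_mono h3)
    exact h2.trans (closure_minimal h1 hcl)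
  have h8 := hL.le_of_le hmem sdiff_subset hp
  exact h8.2 hpU

end Gap

end Pool.Agent.Lib.WeakBorel
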