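import Pool.Agent.Lib.MP_245eb3_an.Weak
import Pool.Agent.Lib.MP_245eb3_an.Scattered

/-!
Rounding continuous functions to a grid, and its weak continuity on scattered parts.
-/

set_option autoImplicit false

open Set Filter Topology

namespace Pool.Agent.Lib.WeakBorel

noncomputable section

universe u v w

/-- Round down to the grid `t + δ ℤ`. -/
def rnd (t δ r : ℝ) : ℝ := t + δ * (⌊(r - t) / δ⌋ : ℝ)

theorem rnd_sub_le {t δ : ℝ} (hδ : 0 < δ) (r : ℝ) : |rnd t δ r - r| ≤ δ := by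
  unfold rnd
  have h1 := Int.floor_le ((r - t) / δ)
  have h2 := Int.lt_floor_add_one ((r - t) / δ)
  rw [le_div_iff₀ hδ] at h1
  rw [div_lt_iff₀ hδ] at h2
  rw [abs_le]
  constructor <;> nlinarith

/-- If two reals are rounded differently, then there is a grid point between them. -/
theorem exists_grid {t δ : ℝ} (hδ : 0 < δ) {r r' : ℝ} (h : rnd t δ r ≠ rnd t δ r') :
    ∃ z : ℤ, t + δ * z ∈ uIcc r r' := by
  wlog hlt : r < r' generalizing r r'
  · rcases lt_trichotomy r r' with h1 | h1 | h1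
    · exact absurd h1 hlt
    · rw [h1] at h; exact absurd rfl h
    · obtain ⟨z, hz⟩ := this h.symm h1
      exact ⟨z, by rw [uIcc_comm]; exact hz⟩
  refine ⟨⌊(r' - t) / δ⌋, ?_⟩
  rw [uIcc_of_le hlt.le, mem_Icc]
  have h1 := Int.floor_le ((r' - t) / δ)
  rw [le_div_iff₀ hδ] at h1
  refine ⟨?_, by linarith⟩
  have hle : ⌊(r - t) / δ⌋ ≤ ⌊(r' - t) / δ⌋ := by
    apply Int.floor_le_floor
    gcongr
  have hne : ⌊(r - t) / δ⌋ ≠ ⌊(r' - t) / δ⌋ := by
    intro heq
    apply h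
    unfold rnd
    rw [heq]
  have hlt2 : ⌊(r - t) / δ⌋ < ⌊(r' - t) / δ⌋ := lt_of_le_of_ne hle hne
  have h3 := Int.floor_lt.mp hlt2
  rw [div_lt_iff₀ hδ] at h3
  linarith

/-- Distinct grid values are at distance at least `δ`. -/
theorem le_rnd_sub {t δ : ℝ} (hδ : 0 < δ) {r r' : ℝ} (h : rnd t δ r ≠ rnd t δ r') :
    δ ≤ |rnd t δ r - rnd t δ r'| := by
  unfold rnd at h ⊢
  have hne : ⌊(r - t) / δ⌋ ≠ ⌊(r' - t) / δ⌋ := by
    intro heq
    apply h
    rw [heq]
  have h1 : t + δ * (⌊(r - t) / δ⌋ : ℝ) - (t + δ * (⌊(r' - t) / δ⌋ : ℝ)) =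
      δ * ((⌊(r - t) / δ⌋ - ⌊(r' - t) / δ⌋ : ℤ) : ℝ) := by
    push_cast
    ring
  rw [h1, abs_mul, abs_of_pos hδ]
  have h2 : (1 : ℝ) ≤ |((⌊(r - t) / δ⌋ - ⌊(r' - t) / δ⌋ : ℤ) : ℝ)| := by
    have h3 : (1 : ℤ) ≤ |⌊(r - t) / δ⌋ - ⌊(r' - t) / δ⌋| :=
      Int.one_le_abs (sub_ne_zero.mpr hne)
    exact_mod_cast h3
  nlinarith

theorem rnd_eq_of_gap {t δ η : ℝ} (hδ : 0 < δ) {r r' : ℝ}
    (h1 : ∀ z : ℤ, η ≤ |r - (t + δ * z)|) (h : |r' - r| < η) : rnd t δ r' = rnd t δ r := by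
  by_contra hne
  obtain ⟨z, hz⟩ := exists_grid hδ hne
  have h2 := h1 z
  have h3 : |r - (t + δ * z)| ≤ |r' - r| := by
    rw [mem_uIcc] at hz
    rcases hz with ⟨ha, hb⟩ | ⟨ha, hb⟩
    · rw [abs_of_nonneg (by linarith), abs_of_nonpos (by linarith)]
      linarith
    · rw [abs_of_nonpos (by linarith), abs_of_nonneg (by linarith)]
      linarith
  linarith

theorem rnd_eq_zero_val {t δ ε : ℝ} (hδ : 0 < δ) (ht : ∀ z : ℤ, ε < |t + δ * z|) {r : ℝ}
    (h : |r| ≤ ε) : rnd t δ r = rnd t δ 0 := by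
  by_contra hne
  obtain ⟨z, hz⟩ := exists_grid hδ hne
  have h2 := ht z
  have h3 : |t + δ * z| ≤ |r| := by
    rw [mem_uIcc] at hz
    rcases hz with ⟨ha, hb⟩ | ⟨ha, hb⟩
    · rw [abs_of_nonpos (by linarith), abs_of_nonpos (by linarith)]
      linarith
    · rw [abs_of_nonneg (by linarith), abs_of_nonneg (by linarith)]
      linarith
  linarith

section Fun

variable {K : Type u} [TopologicalSpace K]

/-- The values of `v` stay at distance at least `η` from the grid `t + δ ℤ`. -/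
def GapOn (t δ η : ℝ) (v : C(K, ℝ)) : Prop := ∀ k, ∀ z : ℤ, η ≤ |v k - (t + δ * z)|

open Classical in
/-- The rounded function, when it is continuous. -/
def rndC (t δ : ℝ) (v : C(K, ℝ)) : C(K, ℝ) :=
  if h : Continuous (fun k => rnd t δ (v k)) then ⟨_, h⟩ else 0

theorem rnd_continuous {t δ η : ℝ} (hδ : 0 < δ) (hη : 0 < η) {v : C(K, ℝ)}
    (h : GapOn t δ η v) : Continuous (fun k => rnd t δ (v k)) := by
  rw [continuous_iff_continuousAt]
  intro k₀
  have h1 : ∀ᶠ k in 𝓝 k₀, |v k - v k₀| < η := by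
    have := (v.continuous.tendsto k₀).eventually (Metric.ball_mem_nhds (v k₀) hη)
    filter_upwards [this] with k hk
    rw [Real.dist_eq] at hk
    exact hk
  have h2 : (fun k => rnd t δ (v k)) =ᶠ[𝓝 k₀] fun _ => rnd t δ (v k₀) := by
    filter_upwards [h1] with k hk
    exact rnd_eq_of_gap hδ (h k₀) hk
  exact (continuousAt_const).congr h2.symm

theorem rndC_apply {t δ η : ℝ} (hδ : 0 < δ) (hη : 0 < η) {v : C(K, ℝ)}
    (h : GapOn t δ η v) (k : K) : rndC t δ v k = rnd t δ (v k) := by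
  unfold rndC
  rw [dif_pos (rnd_continuous hδ hη h)]
  rfl

variable [CompactSpace K]

theorem norm_rndC_sub_le {t δ η : ℝ} (hδ : 0 < δ) (hη : 0 < η) {v : C(K, ℝ)}
    (h : GapOn t δ η v) : ‖rndC t δ v - v‖ ≤ δ := by
  rw [ContinuousMap.norm_le _ hδ.le]
  intro k
  rw [ContinuousMap.sub_apply, rndC_apply hδ hη h, Real.norm_eq_abs]
  exact rnd_sub_le hδ _

/-- The set of functions on which we round. -/
def ASet (F : Set K) (ε t δ η b : ℝ) : Set C(K, ℝ) :=
  {v | ‖v‖ ≤ b ∧ (∀ k ∈ F, |v k| ≤ ε) ∧ GapOn t δ η v}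

theorem wClosed_ASet (F : Set K) (ε t δ η b : ℝ) : WClosed (ASet F ε t δ η b) := by
  have h1 : ASet F ε t δ η b = {v : C(K, ℝ) | ‖v‖ ≤ b} ∩
      ((⋂ k : K, ⋂ _ : k ∈ F, {v : C(K, ℝ) | ContinuousMap.evalCLM ℝ k v ∈ Icc (-ε) ε}) ∩
        ⋂ k : K, ⋂ z : ℤ, {v : C(K, ℝ) | ContinuousMap.evalCLM ℝ k v ∈
          {r : ℝ | η ≤ |r - (t + δ * z)|}}) := by
    ext v
    simp only [ASet, GapOn, mem_ofPred_eq, mem_inter_iff, mem_iInter, mem_Icc, abs_le,
      ContinuousMap.evalCLM_apply]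
  rw [h1]
  apply (wClosed_closedBall b).inter
  apply WClosed.inter
  · apply wClosed_iInter
    intro k
    apply wClosed_iInter
    intro _
    exact wClosed_functional _ isClosed_Icc
  · apply wClosed_iInter
    intro k
    apply wClosed_iInter
    intro z
    exact wClosed_functional _ (isClosed_le continuous_const (by fun_prop))

theorem wContOn_rndC [T2Space K] {F : Set K} (hF : IsClosed F) (hS : ScatteredSet Fᶜ)
    {ε t δ η b : ℝ} (hδ : 0 < δ) (hη : 0 < η) (ht : ∀ z : ℤ, ε < |t + δ * z|) :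
    WContOn (rndC t δ) (ASet F ε t δ η b) := by
  apply wContOn_of_functionals
  intro φ x₀ hx₀
  rw [mem_wset] at hx₀
  set v₀ : C(K, ℝ) := (toWeakSpace ℝ C(K, ℝ)).symm x₀ with hv₀
  rw [ContinuousWithinAt, Metric.tendsto_nhds]
  intro e he
  have hb : 0 ≤ b := (norm_nonneg _).trans hx₀.1
  obtain ⟨s, c, hsc⟩ := approx_functional hF hS φ (ε := e / (2 * (2 * (b + δ) + 1)))
    (by positivity)
  have hnear : ∀ᶠ x in 𝓝[wset (ASet F ε t δ η b)] x₀, ∀ k ∈ s,
      |((toWeakSpace ℝ C(K, ℝ)).symm x : C(K, ℝ)) k - v₀ k| < η := by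
    rw [Filter.eventually_all_finset]
    intro k _
    apply mem_nhdsWithin_of_mem_nhds
    have h1 := (functional_continuous (ContinuousMap.evalCLM ℝ k : C(K, ℝ) →L[ℝ] ℝ)).tendsto x₀
    exact h1 (Metric.ball_mem_nhds _ hη)
  filter_upwards [hnear, self_mem_nhdsWithin] with x hx hxA
  rw [mem_wset] at hxA
  set v : C(K, ℝ) := (toWeakSpace ℝ C(K, ℝ)).symm x with hv
  rw [Real.dist_eq, ← map_sub]
  set g := rndC t δ v - rndC t δ v₀ with hg
  have hgF : ∀ k ∈ F, g k = 0 := by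
    intro k hk
    rw [hg, ContinuousMap.sub_apply, rndC_apply hδ hη hxA.2.2, rndC_apply hδ hη hx₀.2.2,
      rnd_eq_zero_val hδ ht (hxA.2.1 k hk), rnd_eq_zero_val hδ ht (hx₀.2.1 k hk), sub_self]
  have hgs : ∀ k ∈ s, g k = 0 := by
    intro k hk
    rw [hg, ContinuousMap.sub_apply, rndC_apply hδ hη hxA.2.2, rndC_apply hδ hη hx₀.2.2,
      rnd_eq_of_gap hδ (hx₀.2.2 k) (hx k hk), sub_self]
  have hsum : ∑ k ∈ s, c k * g k = 0 := by
    apply Finset.sum_eq_zero
    intro k hk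
    rw [hgs k hk, mul_zero]
  have h1 := hsc g hgF
  rw [hsum, sub_zero] at h1
  have hn : ∀ w : C(K, ℝ), w ∈ ASet F ε t δ η b → ‖rndC t δ w‖ ≤ b + δ := by
    intro w hw
    have h2 := norm_rndC_sub_le hδ hη hw.2.2
    have h3 := norm_sub_norm_le (rndC t δ w) w
    have h4 := hw.1
    linarith
  have h2 : ‖g‖ ≤ 2 * (b + δ) := by
    calc ‖g‖ ≤ ‖rndC t δ v‖ + ‖rndC t δ v₀‖ := norm_sub_le _ _
      _ ≤ 2 * (b + δ) := by linarith [hn v hxA, hn v₀ hx₀]
  have hpos : 0 < 2 * (b + δ) + 1 := by positivity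
  calc |φ g| ≤ e / (2 * (2 * (b + δ) + 1)) * ‖g‖ := h1
    _ ≤ e / (2 * (2 * (b + δ) + 1)) * (2 * (b + δ)) := by gcongr
    _ < e := by
        rw [div_mul_eq_mul_div, div_lt_iff₀ (by positivity)]
        nlinarith

/-- Existence of gaps. -/
theorem exists_gap {F : Set K} (hF : IsClosed F) (hS : ScatteredSet Fᶜ) (v : C(K, ℝ))
    {ε δ : ℝ} (hδ : 0 < δ) (hε : ε < δ / 4) (hv : ∀ k ∈ F, |v k| ≤ ε) :
    ∃ t : ℚ, ∃ j : ℕ, (∀ z : ℤ, δ / 4 < |(t : ℝ) + δ * z|) ∧
      GapOn (t : ℝ) δ (1 / ((j : ℝ) + 1)) v := by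
  have hgrid : ∀ t : ℝ, t ∈ Ioo (δ / 4) (3 * δ / 4) → ∀ z : ℤ, δ / 4 < |t + δ * z| := by
    intro t ht z
    rcases lt_or_ge z 0 with hz | hz
    · have h1 : (z : ℝ) ≤ -1 := by exact_mod_cast (by omega : z ≤ -1)
      have h2 : t + δ * z < 0 := by nlinarith [ht.1, ht.2]
      rw [abs_of_neg h2]
      nlinarith [ht.1, ht.2]
    · have h1 : (0 : ℝ) ≤ z := by exact_mod_cast hz
      have h2 : 0 < t + δ * z := by nlinarith [ht.1, ht.2]
      rw [abs_of_pos h2]
      nlinarith [ht.1, ht.2]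
  set K₁ : Set K := {k | δ / 4 ≤ |v k|} with hK₁
  have hK₁cl : IsClosed K₁ := isClosed_le continuous_const (continuous_abs.comp v.continuous)
  have hK₁S : ScatteredSet K₁ := by
    apply hS.mono
    intro k hk hkF
    have := hv k hkF
    have h2 : δ / 4 ≤ |v k| := hk
    linarith
  have himg : IsClosed (v '' K₁) := (hK₁cl.isCompact.image v.continuous).isClosed
  have hdense : Dense (⋂ z : ℤ, {t : ℝ | t + δ * z ∉ v '' K₁}) := by
    apply dense_iInter_of_isOpen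
    · intro z
      exact (himg.preimage (by fun_prop : Continuous fun t : ℝ => t + δ * z)).isOpen_compl
    · intro z
      rw [dense_iff_inter_open]
      intro U hU hUne
      by_contra hcon
      rw [Set.not_nonempty_iff_eq_empty, Set.eq_empty_iff_forall_notMem] at hcon
      obtain ⟨r, hr⟩ := hUne
      obtain ⟨θ, hθ, hball⟩ := Metric.isOpen_iff.mp hU r hr
      apply not_Icc_subset_image hK₁cl hK₁S v (a := r + δ * z)
        (b := r + θ / 2 + δ * z) (by linarith)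
      intro q hq
      have hqU : q - δ * z ∈ U := by
        apply hball
        rw [Metric.mem_ball, Real.dist_eq, abs_lt]
        constructor <;> linarith [hq.1, hq.2]
      have h3 := hcon (q - δ * z)
      rw [mem_inter_iff, not_and] at h3
      have h4 := h3 hqU
      simp only [mem_ofPred_eq, not_not, sub_add_cancel] at h4
      exact h4
  obtain ⟨t, htI, ht⟩ := hdense.inter_open_nonempty (Ioo (δ / 4) (3 * δ / 4)) isOpen_Ioo
    ⟨δ / 2, by constructor <;> linarith⟩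
  rw [mem_iInter] at ht
  -- the grid is closed
  set G : Set ℝ := range (fun z : ℤ => t + δ * z) with hG
  have hGcl : IsClosed G := by
    have h1 : G = (fun r : ℝ => (r - t) / δ) ⁻¹' (range ((↑) : ℤ → ℝ)) := by
      ext r
      simp only [hG, mem_range, mem_preimage]
      constructor
      · rintro ⟨z, rfl⟩
        refine ⟨z, ?_⟩
        field_simp
        ring_nf
      · rintro ⟨z, hz⟩
        refine ⟨z, ?_⟩
        rw [hz]
        field_simp
        ring
    rw [h1]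
    exact Int.isClosedEmbedding_coe_real.isClosed_range.preimage (by fun_prop)
  have hdisj : Disjoint (range v) G := by
    rw [Set.disjoint_left]
    rintro _ ⟨k, rfl⟩ ⟨z, hz⟩
    apply ht z
    simp only at hz
    rw [hz]
    refine ⟨k, ?_, rfl⟩
    have := hgrid t htI z
    rw [hz] at this
    exact this.le
  obtain ⟨η, hη, hth⟩ := hdisj.exists_thickenings (isCompact_range v.continuous) hGcl
  have hgap : ∀ k, ∀ z : ℤ, η ≤ |v k - (t + δ * z)| := by
    intro k z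
    by_contra hcon
    rw [not_le] at hcon
    rw [Set.disjoint_left] at hth
    apply hth (a := v k)
    · exact Metric.self_subset_thickening hη _ ⟨k, rfl⟩
    · rw [Metric.mem_thickening_iff]
      exact ⟨t + δ * z, ⟨z, rfl⟩, by rw [Real.dist_eq]; exact hcon⟩
  obtain ⟨t', ht'1, ht'2⟩ := exists_rat_btwn (max_lt htI.1 (show t - η / 2 < t by linarith))
  obtain ⟨j, hj⟩ := exists_nat_one_div_lt (show 0 < η / 2 by linarith)
  rw [max_lt_iff] at ht'1
  refine ⟨t', j, hgrid t' ⟨ht'1.1, ht'2.trans htI.2⟩, ?_⟩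
  intro k z
  have h1 := hgap k z
  have h2 : |v k - (t + δ * z)| ≤ |v k - ((t' : ℝ) + δ * z)| + |(t' : ℝ) - t| := by
    have : v k - (t + δ * z) = (v k - ((t' : ℝ) + δ * z)) + ((t' : ℝ) - t) := by ring
    rw [this]
    exact abs_add_le _ _
  have h3 : |(t' : ℝ) - t| ≤ η / 2 := by
    rw [abs_le]; constructor <;> linarith [ht'1.2]
  linarith

end Fun

end

end Pool.Agent.Lib.WeakBorel
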