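import Pool.Agent.Lib.MP_245eb3_an.Main

/-!
A weaker form of the rounding property: countably many weakly Borel sets which carry weakly
continuous maps with uniformly discrete range and small fibres. It suffices for the dichotomy.
-/

set_option autoImplicit false

open Set Filter Topology
open scoped MeasureTheory

namespace Pool.Agent.Lib.WeakBorel

noncomputable section

universe u v w

variable {E : Type u} [NormedAddCommGroup E] [NormedSpace ℝ E]
variable {G : Type v} [NormedAddCommGroup G] [NormedSpace ℝ G]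

/-- `A` is weakly open. -/
def WOpen (A : Set E) : Prop := IsOpen (wset A)

theorem WOpen.measurableSet {A : Set E} (hA : WOpen A) : MeasurableSet[wBorel E] A := by
  rw [measurableSet_wBorel]
  let _ : MeasurableSpace (WeakSpace ℝ E) := borel _
  have _ : BorelSpace (WeakSpace ℝ E) := ⟨rfl⟩
  exact IsOpen.measurableSet hA

theorem wOpen_iUnion {ι : Sort*} {A : ι → Set E} (h : ∀ i, WOpen (A i)) :
    WOpen (⋃ i, A i) := by
  have : wset (⋃ i, A i) = ⋃ i, wset (A i) := by
    unfold wset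
    rw [preimage_iUnion]
  unfold WOpen
  rw [this]
  exact isOpen_iUnion h

theorem WOpen.inter {A B : Set E} (hA : WOpen A) (hB : WOpen B) : WOpen (A ∩ B) :=
  IsOpen.inter hA hB

theorem WClosed.compl {A : Set E} (hA : WClosed A) : WOpen Aᶜ :=
  IsClosed.isOpen_compl (self := hA)

/-- Preimage of an open set of reals under a functional. -/
theorem wOpen_functional (φ : E →L[ℝ] ℝ) {C : Set ℝ} (hC : IsOpen C) :
    WOpen {x : E | φ x ∈ C} :=
  hC.preimage (functional_continuous φ)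

/-- If `f` is weakly continuous on the weakly Borel set `A` and `B` is weakly Borel, then
`{x ∈ A | f x ∈ B}` is weakly Borel. -/
theorem WContOn.measurableSet_preimage' {f : E → G} {A : Set E} {B : Set G} (hf : WContOn f A)
    (hA : MeasurableSet[wBorel E] A) (hB : MeasurableSet[wBorel G] B) :
    MeasurableSet[wBorel E] (A ∩ {x | f x ∈ B}) := by
  rw [measurableSet_wBorel] at hA hB ⊢
  let _ : MeasurableSpace (WeakSpace ℝ E) := borel _
  have _ : BorelSpace (WeakSpace ℝ E) := ⟨rfl⟩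
  let _ : MeasurableSpace (WeakSpace ℝ G) := borel _
  have _ : BorelSpace (WeakSpace ℝ G) := ⟨rfl⟩
  have h2 : wset (A ∩ {x | f x ∈ B}) = (Subtype.val : wset A → _) ''
      ((fun x : wset A => wmap f x) ⁻¹' wset B) := by
    ext x
    simp [wset, wmap, and_comm]
  rw [h2]
  have h3 : Continuous (fun x : wset A => wmap f x) := by
    have := continuousOn_iff_continuous_domRestrict.mp hf
    exact this
  exact MeasurableSet.subtype_image hA (h3.measurable hB)

/-- Weak continuity can be checked locally. -/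
theorem wContOn_of_local {f : E → G} {A : Set E}
    (h : ∀ x ∈ A, ∃ (V : Set E) (g : E → G) (B : Set E), WOpen V ∧ x ∈ V ∧ WContOn g B ∧
      (A ∩ V ⊆ B) ∧ ∀ y ∈ A ∩ V, f y = g y) : WContOn f A := by
  intro x hx
  obtain ⟨V, g, B, hV, hxV, hg, hB, hfg⟩ := h _ hx
  have hx2 : x ∈ wset (A ∩ V) := ⟨hx, hxV⟩
  have h1 : ContinuousWithinAt (wmap g) (wset (A ∩ V)) x :=
    (hg.mono hB) x hx2
  have h2 : ContinuousWithinAt (wmap f) (wset (A ∩ V)) x := by
    refine h1.congr (fun y hy => ?_) ?_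
    · exact congrArg (toWeakSpace ℝ G) (hfg ((toWeakSpace ℝ E).symm y) hy)
    · exact congrArg (toWeakSpace ℝ G) (hfg ((toWeakSpace ℝ E).symm x) hx2)
  have h3 : wset (A ∩ V) = wset A ∩ wset V := rfl
  rw [h3] at h2
  exact (continuousWithinAt_inter (hV.mem_nhds hxV)).mp h2

/-- `E` is covered by countably many weakly Borel sets on each of which there is a weakly
continuous map with uniformly discrete range and fibres of diameter at most `ε`. -/
def HasSep (E : Type u) [NormedAddCommGroup E] [NormedSpace ℝ E] : Prop :=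
  ∀ ε : ℝ, 0 < ε → ∃ (ι : Type) (_ : Countable ι) (X : ι → Set E) (ρ : ι → E → E),
    (∀ x, ∃ i, x ∈ X i) ∧ ∀ i, MeasurableSet[wBorel E] (X i) ∧ WContOn (ρ i) (X i) ∧
      (∀ x ∈ X i, ∀ x' ∈ X i, ρ i x = ρ i x' → ‖x - x'‖ ≤ ε) ∧
      ∃ δ > 0, ∀ x ∈ X i, ∀ x' ∈ X i, ρ i x ≠ ρ i x' → δ ≤ ‖ρ i x - ρ i x'‖

theorem HasSep.main (h : HasSep E) (hne : wBorel E ≠ borel E) :
    ∃ D : Set E, (∃ δ > 0, ∀ x ∈ D, ∀ y ∈ D, x ≠ y → δ ≤ ‖x - y‖) ∧
      ¬ MeasurableSet[wBorel E] D := by
  by_contra hcon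
  push Not at hcon
  apply hne
  apply le_antisymm wBorel_le_borel
  apply MeasurableSpace.generateFrom_le
  intro U hU
  have hU : IsOpen U := hU
  have hpos : ∀ m : ℕ, (0 : ℝ) < 1 / ((m : ℝ) + 1) := fun m => by positivity
  choose ι hι X ρ hcov hX using fun m : ℕ => h (1 / ((m : ℝ) + 1)) (hpos m)
  have hEq : U = ⋃ m : ℕ, ⋃ i : ι m, (X m i ∩ {x | ρ m i x ∈
      {d | (∃ y ∈ X m i, ρ m i y = d) ∧ ∀ y ∈ X m i, ρ m i y = d → y ∈ U}}) := by
    ext x
    simp only [mem_iUnion, mem_inter_iff, mem_ofPred_eq]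
    constructor
    · intro hx
      obtain ⟨r, hr, hball⟩ := Metric.isOpen_iff.mp hU x hx
      obtain ⟨m, hm⟩ := exists_nat_one_div_lt hr
      obtain ⟨i, hi⟩ := hcov m x
      refine ⟨m, i, hi, ⟨x, hi, rfl⟩, ?_⟩
      intro y hy hyx
      apply hball
      rw [Metric.mem_ball, dist_eq_norm]
      exact ((hX m i).2.2.1 y hy x hi hyx).trans_lt hm
    · rintro ⟨m, i, hi, -, hball⟩
      exact hball x hi rfl
  rw [hEq]
  apply MeasurableSet.iUnion
  intro m
  have := hι m
  apply MeasurableSet.iUnion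
  intro i
  apply (hX m i).2.1.measurableSet_preimage' (hX m i).1
  apply hcon
  obtain ⟨δ, hδ, hsep⟩ := (hX m i).2.2.2
  refine ⟨δ, hδ, ?_⟩
  rintro _ ⟨⟨y, hy, rfl⟩, -⟩ _ ⟨⟨y', hy', rfl⟩, -⟩ hne'
  exact hsep y hy y' hy' hne'

end

end Pool.Agent.Lib.WeakBorel
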