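import Pool.Agent.Lib.MP_245eb3_an.Sep

/-!
Compact spaces with retractions indexed by the finite subsets of a set `I`.
-/

set_option autoImplicit false
set_option linter.unusedSectionVars false

open Set Filter Topology
open scoped MeasureTheory

namespace Pool.Agent.Lib.WeakBorel

noncomputable section

universe u v w

variable {K : Type u} [TopologicalSpace K] {I : Type v} [DecidableEq I]

/-- A family of retractions indexed by the finite subsets of `I`. -/
structure Skel (r : Finset I → C(K, K)) : Prop where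
  comp : ∀ (F G : Finset I) (k : K), r F (r G k) = r (F ∩ G) k
  approx : ∀ (x : C(K, ℝ)) (ε : ℝ), 0 < ε → ∃ F : Finset I, ∀ k, |x (r F k) - x k| ≤ ε

/-- The indices on which `x` depends by more than `t`. -/
def Dset (r : Finset I → C(K, K)) (t : ℝ) (x : C(K, ℝ)) : Set I :=
  {i | ∃ G : Finset I, i ∈ G ∧ ∃ k, t < |x (r G k) - x (r (G.erase i) k)|}

/-- `i` is an essential index. -/
def Ess (r : Finset I → C(K, K)) (i : I) : Prop :=
  ∃ G : Finset I, i ∈ G ∧ ∃ k, r G k ≠ r (G.erase i) k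

variable {r : Finset I → C(K, K)}

theorem ess_of_mem {t : ℝ} (ht : 0 ≤ t) {x : C(K, ℝ)} {i : I} (hi : i ∈ Dset r t x) :
    Ess r i := by
  obtain ⟨G, hG, k, hk⟩ := hi
  refine ⟨G, hG, k, fun h => ?_⟩
  rw [h, sub_self, abs_zero] at hk
  linarith

theorem dset_subset (hr : Skel r) {t : ℝ} {x : C(K, ℝ)} {F : Finset I}
    (hF : ∀ k, |x (r F k) - x k| ≤ t / 2) : Dset r t x ⊆ F := by
  rintro i ⟨G, hiG, k, hk⟩
  by_contra hcon
  have h1 := hF (r G k)
  have h2 := hF (r (G.erase i) k)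
  have h3 : F ∩ G.erase i = F ∩ G := by
    ext j
    simp only [Finset.mem_inter, Finset.mem_erase]
    constructor
    · rintro ⟨h, _, h'⟩
      exact ⟨h, h'⟩
    · rintro ⟨h, h'⟩
      refine ⟨h, ?_, h'⟩
      rintro rfl
      exact hcon h
  rw [hr.comp] at h1 h2
  rw [h3] at h2
  rw [abs_le] at h1 h2
  rw [lt_abs] at hk
  rcases hk with hk | hk <;> linarith [h1.1, h1.2, h2.1, h2.2]

theorem dset_finite (hr : Skel r) {t : ℝ} (ht : 0 < t) (x : C(K, ℝ)) :
    (Dset r t x).Finite := by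
  obtain ⟨F, hF⟩ := hr.approx x (t / 2) (by positivity)
  exact (Finset.finite_toSet F).subset (dset_subset hr hF)

theorem dset_anti {s t : ℝ} (h : s ≤ t) (x : C(K, ℝ)) : Dset r t x ⊆ Dset r s x := by
  rintro i ⟨G, hiG, k, hk⟩
  exact ⟨G, hiG, k, h.trans_lt hk⟩

/-- The indices on which `x` depends. -/
def D0 (r : Finset I → C(K, K)) (x : C(K, ℝ)) : Set I :=
  {i | ∃ n : ℕ, i ∈ Dset r (1 / ((n : ℝ) + 1)) x}

theorem eq_of_notMem_D0 {x : C(K, ℝ)} {i : I} (hi : i ∉ D0 r x) (G : Finset I) (k : K) :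
    x (r G k) = x (r (G.erase i) k) := by
  by_cases hiG : i ∈ G
  · by_contra hne
    have hpos : 0 < |x (r G k) - x (r (G.erase i) k)| := abs_pos.mpr (sub_ne_zero.mpr hne)
    obtain ⟨n, hn⟩ := exists_nat_one_div_lt hpos
    exact hi ⟨n, G, hiG, k, hn⟩
  · rw [Finset.erase_eq_of_notMem hiG]

theorem eq_sdiff {x : C(K, ℝ)} (S : Finset I) :
    (∀ i ∈ S, i ∉ D0 r x) → ∀ (G : Finset I) (k : K), x (r G k) = x (r (G \ S) k) := by
  induction S using Finset.induction_on with
  | empty =>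
    intro _ G k
    rw [Finset.sdiff_empty]
  | insert i S hiS ih =>
    intro h G k
    have h1 : G \ insert i S = (G \ S).erase i := by
      ext j
      simp only [Finset.mem_sdiff, Finset.mem_insert, Finset.mem_erase]
      tauto
    rw [h1, ← eq_of_notMem_D0 (h i (Finset.mem_insert_self _ _))]
    exact ih (fun j hj => h j (Finset.mem_insert_of_mem hj)) G k

open Classical in
theorem approx_filter (hr : Skel r) (x : C(K, ℝ)) {ε : ℝ} (hε : 0 < ε) :
    ∃ F : Finset I, (∀ i ∈ F, i ∈ D0 r x) ∧ ∀ k, |x (r F k) - x k| ≤ ε := by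
  obtain ⟨F, hF⟩ := hr.approx x ε hε
  refine ⟨F.filter (fun i => i ∈ D0 r x), fun i hi => (Finset.mem_filter.mp hi).2, ?_⟩
  intro k
  have h1 := eq_sdiff (r := r) (x := x) (F.filter (fun i => i ∉ D0 r x))
    (fun i hi => (Finset.mem_filter.mp hi).2) F k
  have h2 : F \ F.filter (fun i => i ∉ D0 r x) = F.filter (fun i => i ∈ D0 r x) := by
    ext j
    simp only [Finset.mem_sdiff, Finset.mem_filter]
    tauto
  rw [h2] at h1
  rw [← h1]
  exact hF k

theorem approx_dset (hr : Skel r) (x : C(K, ℝ)) {ε : ℝ} (hε : 0 < ε) :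
    ∃ n : ℕ, ∀ F : Finset I, (F : Set I) = Dset r (1 / ((n : ℝ) + 1)) x →
      ∀ k, |x (r F k) - x k| ≤ 2 * ε := by
  obtain ⟨F₁, hF₁, happ⟩ := approx_filter hr x hε
  have h1 : ∃ n : ℕ, ∀ i ∈ F₁, i ∈ Dset r (1 / ((n : ℝ) + 1)) x := by
    clear happ
    induction F₁ using Finset.induction_on with
    | empty => exact ⟨0, by simp⟩
    | insert i S hiS ih =>
      obtain ⟨n, hn⟩ := ih fun j hj => hF₁ j (Finset.mem_insert_of_mem hj)
      obtain ⟨m, hm⟩ := hF₁ i (Finset.mem_insert_self _ _)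
      refine ⟨max n m, fun j hj => ?_⟩
      have hle : ∀ a : ℕ, a ≤ max n m → 1 / (((max n m : ℕ) : ℝ) + 1) ≤ 1 / ((a : ℝ) + 1) := by
        intro a ha
        have : (a : ℝ) ≤ ((max n m : ℕ) : ℝ) := by exact_mod_cast ha
        gcongr
      rcases Finset.mem_insert.mp hj with rfl | hj
      · exact dset_anti (hle m (le_max_right _ _)) x hm
      · exact dset_anti (hle n (le_max_left _ _)) x (hn j hj)
  obtain ⟨n, hn⟩ := h1
  refine ⟨n, fun F hF k => ?_⟩
  have hsub : F₁ ∩ F = F₁ := by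
    rw [Finset.inter_eq_left]
    intro i hi
    have : i ∈ (F : Set I) := by rw [hF]; exact hn i hi
    exact this
  have h2 := happ (r F k)
  rw [hr.comp, hsub] at h2
  have h3 := happ k
  rw [abs_le] at h2 h3 ⊢
  constructor <;> linarith [h2.1, h2.2, h3.1, h3.2]

/-! ### Weak topology -/

section Weak

variable [CompactSpace K]

theorem wOpen_mem_dset (t : ℝ) (i : I) : WOpen {x : C(K, ℝ) | i ∈ Dset r t x} := by
  have h1 : {x : C(K, ℝ) | i ∈ Dset r t x} = ⋃ G : {G : Finset I // i ∈ G}, ⋃ k : K,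
      {x : C(K, ℝ) | (ContinuousMap.evalCLM ℝ (r G.1 k) -
        ContinuousMap.evalCLM ℝ (r (G.1.erase i) k) : C(K, ℝ) →L[ℝ] ℝ) x ∈ {z : ℝ | t < |z|}} := by
    ext x
    simp only [mem_iUnion, mem_ofPred_eq, sub_apply,
      ContinuousMap.evalCLM_apply]
    constructor
    · rintro ⟨G, hG, k, hk⟩
      exact ⟨⟨G, hG⟩, k, hk⟩
    · rintro ⟨⟨G, hG⟩, k, hk⟩
      exact ⟨G, hG, k, hk⟩
  rw [h1]
  refine wOpen_iUnion fun G => wOpen_iUnion fun k => ?_
  exact wOpen_functional _ (isOpen_lt continuous_const continuous_abs)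

/-- The functions which depend by more than `t` on every index of `F`. -/
def VF (r : Finset I → C(K, K)) (t : ℝ) (F : Finset I) : Set C(K, ℝ) :=
  {x | (F : Set I) ⊆ Dset r t x}

theorem wOpen_VF (t : ℝ) (F : Finset I) : WOpen (VF r t F) := by
  have h1 : wset (VF r t F) = ⋂ i ∈ F, wset {x : C(K, ℝ) | i ∈ Dset r t x} := by
    ext x
    simp only [mem_iInter]
    exact ⟨fun h i hi => h hi, fun h i hi => h i hi⟩
  unfold WOpen
  rw [h1]
  exact isOpen_biInter_finset fun i _ => wOpen_mem_dset t i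

/-- The functions which depend by more than `t` on at least `n` indices. -/
def Un (r : Finset I → C(K, K)) (t : ℝ) (n : ℕ) : Set C(K, ℝ) :=
  ⋃ F : {F : Finset I // F.card = n}, VF r t F.1

theorem wOpen_Un (t : ℝ) (n : ℕ) : WOpen (Un r t n) :=
  wOpen_iUnion fun F => wOpen_VF t F.1

theorem exists_finset_of_mem {t : ℝ} {n : ℕ} {x : C(K, ℝ)} (h1 : x ∈ Un r t n)
    (h2 : x ∉ Un r t (n + 1)) : ∃ F : Finset I, F.card = n ∧ (F : Set I) = Dset r t x := by
  obtain ⟨⟨F, hF⟩, hx⟩ := mem_iUnion.mp h1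
  refine ⟨F, hF, Subset.antisymm hx ?_⟩
  intro i hi
  by_contra hcon
  apply h2
  have hiF : i ∉ F := hcon
  refine mem_iUnion.mpr ⟨⟨insert i F, by rw [Finset.card_insert_of_notMem hiF, hF]⟩, ?_⟩
  intro j hj
  rcases Finset.mem_insert.mp (Finset.mem_coe.mp hj) with rfl | hj
  · exact hi
  · exact hx hj

theorem mem_Un_of_eq {t : ℝ} {x : C(K, ℝ)} {F : Finset I} (hF : (F : Set I) = Dset r t x) :
    x ∈ Un r t F.card ∧ x ∉ Un r t (F.card + 1) := by
  constructor
  · exact mem_iUnion.mpr ⟨⟨F, rfl⟩, hF.le⟩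
  · intro h
    obtain ⟨⟨G, hG⟩, hx⟩ := mem_iUnion.mp h
    have h1 : G ⊆ F := by
      intro i hi
      have : i ∈ (F : Set I) := by
        rw [hF]
        exact hx hi
      exact this
    have := Finset.card_le_card h1
    omega

theorem WOpen.preimage_clm {E : Type w} [NormedAddCommGroup E] [NormedSpace ℝ E]
    {G : Type u} [NormedAddCommGroup G] [NormedSpace ℝ G] (T : E →L[ℝ] G) {A : Set G}
    (hA : WOpen A) : WOpen {x | T x ∈ A} := by
  have h : ContinuousOn (wmap T) univ := wContOn_clm T univ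
  rw [continuousOn_univ] at h
  have h1 : wset {x | T x ∈ A} = wmap T ⁻¹' wset A := by
    ext x
    simp [wset, wmap]
  unfold WOpen
  rw [h1]
  exact IsOpen.preimage h hA

/-- The union of weakly closed conditions, one for each value of the finite set
`Dset r t (T x)`. -/
theorem measurableSet_pieces' {E : Type w} [NormedAddCommGroup E] [NormedSpace ℝ E]
    (T : E →L[ℝ] C(K, ℝ)) (t : ℝ) (n : ℕ) (C : Finset I → Set E) (hC : ∀ F, WClosed (C F)) :
    MeasurableSet[wBorel E]
      {x | ∃ F : Finset I, F.card = n ∧ (F : Set I) = Dset r t (T x) ∧ x ∈ C F} := by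
  have h1 : {x | ∃ F : Finset I, F.card = n ∧ (F : Set I) = Dset r t (T x) ∧ x ∈ C F} =
      ({x | T x ∈ Un r t n} \ {x | T x ∈ Un r t (n + 1)}) \
        ⋃ F : {F : Finset I // F.card = n}, ({x | T x ∈ VF r t F.1} ∩ (C F.1)ᶜ) := by
    ext x
    constructor
    · rintro ⟨F, rfl, hF, hx⟩
      refine ⟨mem_Un_of_eq hF, fun h => ?_⟩
      obtain ⟨⟨G, hG⟩, hxG, hxC⟩ := mem_iUnion.mp h
      have h2 : G ⊆ F := by
        intro i hi
        have : i ∈ (F : Set I) := by
          rw [hF]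
          exact hxG hi
        exact this
      have h3 : G = F := Finset.eq_of_subset_of_card_le h2 (le_of_eq hG.symm)
      simp only [h3] at hxC
      exact hxC hx
    · rintro ⟨⟨h2, h3⟩, h4⟩
      obtain ⟨F, hFn, hF⟩ := exists_finset_of_mem h2 h3
      refine ⟨F, hFn, hF, ?_⟩
      by_contra hcon
      exact h4 (mem_iUnion.mpr ⟨⟨F, hFn⟩, hF.le, hcon⟩)
  rw [h1]
  refine (((wOpen_Un t n).preimage_clm T).measurableSet.diff
    ((wOpen_Un t (n + 1)).preimage_clm T).measurableSet).diff ?_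
  exact (wOpen_iUnion fun F : {F : Finset I // F.card = n} =>
    ((wOpen_VF t F.1).preimage_clm T).inter (hC F.1).compl).measurableSet

/-- The union of weakly closed conditions, one for each value of the finite set `Dset r t x`. -/
theorem measurableSet_pieces (t : ℝ) (n : ℕ) (C : Finset I → Set C(K, ℝ))
    (hC : ∀ F, WClosed (C F)) :
    MeasurableSet[wBorel C(K, ℝ)]
      {x | ∃ F : Finset I, F.card = n ∧ (F : Set I) = Dset r t x ∧ x ∈ C F} :=
  measurableSet_pieces' (ContinuousLinearMap.id ℝ C(K, ℝ)) t n C hC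

end Weak

end

end Pool.Agent.Lib.WeakBorel
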