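import Pool.Agent.Lib.MP_245eb3_an.Skel

/-!
The dichotomy for compact spaces with retractions indexed by the finite subsets of a set, if the
images of the retractions have the rounding property.
-/

set_option autoImplicit false
set_option linter.unusedSectionVars false

open Set Filter Topology
open scoped MeasureTheory

namespace Pool.Agent.Lib.WeakBorel

noncomputable section

universe u v w

variable {K : Type u} [TopologicalSpace K] [CompactSpace K] [T2Space K]
  {I : Type v} [DecidableEq I] {r : Finset I → C(K, K)}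

instance compactSpace_range (F : Finset I) : CompactSpace (range (r F)) :=
  isCompact_iff_compactSpace.mp (isCompact_range (r F).continuous)

/-- The retraction onto its image. -/
def ret (r : Finset I → C(K, K)) (F : Finset I) : C(K, range (r F)) :=
  ⟨fun k => ⟨r F k, mem_range_self k⟩, (r F).continuous.subtype_mk _⟩

/-- The extension operator given by the retraction. -/
def extE (r : Finset I → C(K, K)) (F : Finset I) : C(range (r F), ℝ) →L[ℝ] C(K, ℝ) :=
  ContinuousMap.compCLM ℝ ℝ (ret r F)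

theorem extE_apply (F : Finset I) (y : C(range (r F), ℝ)) (k : K) :
    extE r F y k = y ⟨r F k, mem_range_self k⟩ := rfl

theorem norm_extE (F : Finset I) (y : C(range (r F), ℝ)) :
    ‖extE r F y‖ = ‖y‖ := by
  apply le_antisymm
  · rw [ContinuousMap.norm_le _ (norm_nonneg _)]
    intro k
    rw [extE_apply]
    exact ContinuousMap.norm_coe_le_norm y _
  · rw [ContinuousMap.norm_le _ (norm_nonneg _)]
    rintro ⟨_, k, rfl⟩
    have := ContinuousMap.norm_coe_le_norm (extE r F y) k
    rw [extE_apply] at this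
    exact this

open Classical in
/-- The set `Dset r t x` as a finite set. -/
def fin (r : Finset I → C(K, K)) (t : ℝ) (x : C(K, ℝ)) : Finset I :=
  if h : (Dset r t x).Finite then h.toFinset else ∅

theorem fin_eq {t : ℝ} {x : C(K, ℝ)} {F : Finset I} (h : (F : Set I) = Dset r t x) :
    fin r t x = F := by
  unfold fin
  have h1 : (Dset r t x).Finite := by
    rw [← h]
    exact Finset.finite_toSet F
  rw [dif_pos h1]
  ext i
  rw [Set.Finite.mem_toFinset, ← h]
  rfl

theorem Skel.hasSep (hr : Skel r) (lab : Finset I → C(K, ℝ))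
    (hlab : ∀ F G : Finset I, (∀ i ∈ F, Ess r i) → (∀ i ∈ G, Ess r i) → F ≠ G →
      1 ≤ ‖lab F - lab G‖)
    (hR : ∀ F : Finset I, HasRounding C(range (r F), ℝ)) : HasSep C(K, ℝ) := by
  intro ε hε
  choose ιF hιF XF ρF hcov hXF using fun F : Finset I => hR F (ε / 4) (by positivity)
  have hne : ∀ F : Finset I, Nonempty (ιF F) := fun F => ⟨(hcov F 0).choose⟩
  have hs : ∀ F : Finset I, ∃ s : ℕ → ιF F, Function.Surjective s := fun F => by
    have := hιF F
    have := hne F
    exact exists_surjective_nat (ιF F)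
  choose s hs using hs
  -- the index: threshold, number of indices, the piece, the discreteness constant, the bound
  let ι : Type := ℕ × ℕ × ℕ × ℕ × ℕ
  let t : ι → ℝ := fun p => 1 / ((p.1 : ℝ) + 1)
  let C : ι → Finset I → Set C(K, ℝ) := fun p F =>
    {x | (∀ k, |x (r F k) - x k| ≤ ε / 4) ∧ resL (range (r F)) x ∈ XF F (s F p.2.2.1) ∧
      (∀ y ∈ XF F (s F p.2.2.1), ∀ y' ∈ XF F (s F p.2.2.1),
        ρF F (s F p.2.2.1) y ≠ ρF F (s F p.2.2.1) y' →
          1 / ((p.2.2.2.1 : ℝ) + 1) ≤ ‖ρF F (s F p.2.2.1) y - ρF F (s F p.2.2.1) y'‖) ∧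
      ‖x‖ ≤ (p.2.2.2.2 : ℝ)}
  let X : ι → Set C(K, ℝ) := fun p =>
    {x | ∃ F : Finset I, F.card = p.2.1 ∧ (F : Set I) = Dset r (t p) x ∧ x ∈ C p F}
  let c : ι → ℝ := fun p => 2 * ((p.2.2.2.2 : ℝ) + ε) + 1
  let ψ : ι → Finset I → C(K, ℝ) → C(K, ℝ) := fun p F x =>
    c p • lab F + extE r F (ρF F (s F p.2.2.1) (resL (range (r F)) x))
  let ρ : ι → C(K, ℝ) → C(K, ℝ) := fun p x => ψ p (fin r (t p) x) x
  have ht : ∀ p, 0 < t p := fun p => by
    simp only [t]
    positivity
  have hC : ∀ p F, WClosed (C p F) := by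
    intro p F
    have h1 : WClosed {x : C(K, ℝ) | ∀ k, |x (r F k) - x k| ≤ ε / 4} := by
      have h2 : {x : C(K, ℝ) | ∀ k, |x (r F k) - x k| ≤ ε / 4} = ⋂ k : K,
          {x : C(K, ℝ) | (ContinuousMap.evalCLM ℝ (r F k) - ContinuousMap.evalCLM ℝ k :
            C(K, ℝ) →L[ℝ] ℝ) x ∈ {z : ℝ | |z| ≤ ε / 4}} := by
        ext x
        simp only [mem_iInter, mem_ofPred_eq, sub_apply, ContinuousMap.evalCLM_apply]
      rw [h2]
      exact wClosed_iInter fun k =>
        wClosed_functional _ (isClosed_le continuous_abs continuous_const)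
    have h2 : WClosed {x : C(K, ℝ) | resL (range (r F)) x ∈ XF F (s F p.2.2.1)} := by
      have := (wContOn_clm (resL (range (r F))) univ).wClosed_preimage wClosed_univ
        (hXF F (s F p.2.2.1)).1
      rw [univ_inter] at this
      exact this
    have h3 : WClosed {x : C(K, ℝ) | ‖x‖ ≤ (p.2.2.2.2 : ℝ)} := wClosed_closedBall _
    by_cases hg : (∀ y ∈ XF F (s F p.2.2.1), ∀ y' ∈ XF F (s F p.2.2.1),
        ρF F (s F p.2.2.1) y ≠ ρF F (s F p.2.2.1) y' →
          1 / ((p.2.2.2.1 : ℝ) + 1) ≤ ‖ρF F (s F p.2.2.1) y - ρF F (s F p.2.2.1) y'‖)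
    · have h4 : C p F = ({x : C(K, ℝ) | ∀ k, |x (r F k) - x k| ≤ ε / 4} ∩
          {x : C(K, ℝ) | resL (range (r F)) x ∈ XF F (s F p.2.2.1)}) ∩
          {x : C(K, ℝ) | ‖x‖ ≤ (p.2.2.2.2 : ℝ)} := by
        ext x
        constructor
        · rintro ⟨ha, hb, -, hd⟩
          exact ⟨⟨ha, hb⟩, hd⟩
        · rintro ⟨⟨ha, hb⟩, hd⟩
          exact ⟨ha, hb, hg, hd⟩
      rw [h4]
      exact (h1.inter h2).inter h3
    · have h4 : C p F = ∅ := by
        ext x
        simp only [mem_empty_iff_false, iff_false]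
        rintro ⟨-, -, hc, -⟩
        exact hg hc
      rw [h4]
      exact isClosed_empty
  have hbound : ∀ p F x, x ∈ C p F →
      ‖extE r F (ρF F (s F p.2.2.1) (resL (range (r F)) x))‖ ≤ (p.2.2.2.2 : ℝ) + ε := by
    rintro p F x ⟨-, hb, -, hd⟩
    rw [norm_extE]
    have h1 := (hXF F (s F p.2.2.1)).2.2.1 _ hb
    have h2 : ‖resL (range (r F)) x‖ ≤ ‖x‖ := by
      rw [ContinuousMap.norm_le _ (norm_nonneg _)]
      intro k
      exact ContinuousMap.norm_coe_le_norm x _
    have h3 := norm_sub_norm_le (ρF F (s F p.2.2.1) (resL (range (r F)) x))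
      (resL (range (r F)) x)
    linarith
  -- values with different labels are far apart
  have hfar : ∀ p x x' F F', x ∈ C p F → x' ∈ C p F' → (F : Set I) = Dset r (t p) x →
      (F' : Set I) = Dset r (t p) x' → F ≠ F' → 1 ≤ ‖ψ p F x - ψ p F' x'‖ := by
    intro p x x' F F' hx hx' hF hF' hne'
    have h1 := hlab F F' (fun i hi => ess_of_mem (ht p).le (by rw [← hF]; exact hi))
      (fun i hi => ess_of_mem (ht p).le (by rw [← hF']; exact hi)) hne'
    have hc : 0 ≤ c p := by
      simp only [c]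
      positivity
    have h2 : ‖c p • lab F - c p • lab F'‖ = c p * ‖lab F - lab F'‖ := by
      rw [← smul_sub, norm_smul, Real.norm_eq_abs, abs_of_nonneg hc]
    have h3 := hbound p F x hx
    have h4 := hbound p F' x' hx'
    obtain ⟨a, ha⟩ : ∃ a, a = extE r F (ρF F (s F p.2.2.1) (resL (range (r F)) x)) := ⟨_, rfl⟩
    obtain ⟨b, hb⟩ : ∃ b, b = extE r F' (ρF F' (s F' p.2.2.1) (resL (range (r F')) x')) :=
      ⟨_, rfl⟩
    rw [← ha] at h3
    rw [← hb] at h4
    have h5 : ψ p F x - ψ p F' x' = (c p • lab F - c p • lab F') + (a - b) := by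
      simp only [ψ]
      rw [← ha, ← hb]
      abel
    rw [h5]
    have h6 := norm_sub_le ((c p • lab F - c p • lab F') + (a - b)) (a - b)
    rw [add_sub_cancel_right, h2] at h6
    have h7 := norm_sub_le a b
    have h8 : c p ≤ c p * ‖lab F - lab F'‖ := le_mul_of_one_le_right hc h1
    have h9 : c p = 2 * ((p.2.2.2.2 : ℝ) + ε) + 1 := rfl
    linarith
  refine ⟨ι, inferInstance, X, ρ, ?_, ?_⟩
  · -- covering
    intro x
    obtain ⟨n, hn⟩ := approx_dset hr x (ε := ε / 8) (by positivity)
    have htn : (0 : ℝ) < 1 / ((n : ℝ) + 1) := by positivity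
    obtain ⟨F, hF⟩ : ∃ F : Finset I, (F : Set I) = Dset r (1 / ((n : ℝ) + 1)) x :=
      ⟨(dset_finite hr htn x).toFinset, by simp⟩
    obtain ⟨i, hi⟩ := hcov F (resL (range (r F)) x)
    obtain ⟨j, rfl⟩ := hs F i
    obtain ⟨δ, hδ, hsep⟩ := (hXF F (s F j)).2.2.2
    obtain ⟨m, hm⟩ := exists_nat_one_div_lt hδ
    obtain ⟨b, hb⟩ := exists_nat_ge ‖x‖
    refine ⟨(n, F.card, j, m, b), F, rfl, hF, ?_, hi, ?_, hb⟩
    · intro k
      have := hn F hF k
      linarith
    · intro y hy y' hy' hne'
      exact hm.le.trans (hsep y hy y' hy' hne')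
  · intro p
    refine ⟨measurableSet_pieces (t p) p.2.1 (C p) (hC p), ?_, ?_, 1 / ((p.2.2.2.1 : ℝ) + 1),
      by positivity, ?_⟩
    · -- continuity
      apply wContOn_of_local
      rintro x ⟨F, hFc, hF, hx⟩
      refine ⟨VF r (t p) F, ψ p F, {y | resL (range (r F)) y ∈ XF F (s F p.2.2.1)},
        wOpen_VF _ _, hF.le, ?_, ?_, ?_⟩
      · have h1 : WContOn (fun y : C(K, ℝ) => resL (range (r F)) y)
            {y | resL (range (r F)) y ∈ XF F (s F p.2.2.1)} := wContOn_clm _ _
        have h2 := (hXF F (s F p.2.2.1)).2.1.comp h1 (fun y hy => hy)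
        have h3 := (wContOn_clm (extE r F) univ).comp h2 (fun _ _ => mem_univ _)
        exact (wContOn_const _ _).add h3
      · rintro y ⟨⟨G, hGc, hG, hy⟩, hyV⟩
        have h1 : F = G := by
          apply Finset.eq_of_subset_of_card_le
          · intro i hi
            have : i ∈ (G : Set I) := by
              rw [hG]
              exact hyV hi
            exact this
          · omega
        rw [h1]
        exact hy.2.1
      · rintro y ⟨⟨G, hGc, hG, hy⟩, hyV⟩
        have h1 : F = G := by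
          apply Finset.eq_of_subset_of_card_le
          · intro i hi
            have : i ∈ (G : Set I) := by
              rw [hG]
              exact hyV hi
            exact this
          · omega
        show ψ p (fin r (t p) y) y = ψ p F y
        rw [fin_eq hG, h1]
    · -- small fibres
      rintro x ⟨F, hFc, hF, hx⟩ x' ⟨F', hFc', hF', hx'⟩ hEq
      have hEq : ψ p (fin r (t p) x) x = ψ p (fin r (t p) x') x' := hEq
      rw [fin_eq hF, fin_eq hF'] at hEq
      have hFF : F = F' := by
        by_contra hne'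
        have h1 := hfar p x x' F F' hx hx' hF hF' hne'
        rw [hEq, sub_self, norm_zero] at h1
        linarith
      subst hFF
      have h1 : extE r F (ρF F (s F p.2.2.1) (resL (range (r F)) x)) =
          extE r F (ρF F (s F p.2.2.1) (resL (range (r F)) x')) := add_left_cancel hEq
      have h2 : ρF F (s F p.2.2.1) (resL (range (r F)) x) =
          ρF F (s F p.2.2.1) (resL (range (r F)) x') := by
        rw [← sub_eq_zero, ← norm_eq_zero, ← norm_extE F, map_sub, h1, sub_self, norm_zero]
      have h3 := (hXF F (s F p.2.2.1)).2.2.1 _ hx.2.1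
      have h4 := (hXF F (s F p.2.2.1)).2.2.1 _ hx'.2.1
      rw [h2] at h3
      rw [ContinuousMap.norm_le _ hε.le]
      intro k
      have h5 := (ContinuousMap.norm_coe_le_norm (ρF F (s F p.2.2.1)
        (resL (range (r F)) x') - resL (range (r F)) x) ⟨r F k, mem_range_self k⟩).trans h3
      have h6 := (ContinuousMap.norm_coe_le_norm (ρF F (s F p.2.2.1)
        (resL (range (r F)) x') - resL (range (r F)) x') ⟨r F k, mem_range_self k⟩).trans h4
      have h7 : (resL (range (r F)) x) ⟨r F k, mem_range_self k⟩ = x (r F k) := rfl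
      have h8 : (resL (range (r F)) x') ⟨r F k, mem_range_self k⟩ = x' (r F k) := rfl
      rw [ContinuousMap.sub_apply, Real.norm_eq_abs, h7] at h5
      rw [ContinuousMap.sub_apply, Real.norm_eq_abs, h8] at h6
      have h9 := hx.1 k
      have h10 := hx'.1 k
      rw [ContinuousMap.sub_apply, Real.norm_eq_abs]
      rw [abs_le] at h5 h6 h9 h10 ⊢
      constructor <;> linarith [h5.1, h5.2, h6.1, h6.2, h9.1, h9.2, h10.1, h10.2]
    · -- discreteness
      rintro x ⟨F, hFc, hF, hx⟩ x' ⟨F', hFc', hF', hx'⟩ hNe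
      show 1 / ((p.2.2.2.1 : ℝ) + 1) ≤ ‖ψ p (fin r (t p) x) x - ψ p (fin r (t p) x') x'‖
      have hNe : ψ p (fin r (t p) x) x ≠ ψ p (fin r (t p) x') x' := hNe
      rw [fin_eq hF, fin_eq hF'] at hNe ⊢
      by_cases hFF : F = F'
      · subst hFF
        have h1 : ψ p F x - ψ p F x' = extE r F (ρF F (s F p.2.2.1) (resL (range (r F)) x) -
            ρF F (s F p.2.2.1) (resL (range (r F)) x')) := by
          simp only [ψ]
          rw [map_sub]
          abel
        rw [h1, norm_extE]
        apply hx.2.2.1 _ hx.2.1 _ hx'.2.1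
        intro h2
        apply hNe
        rw [← sub_eq_zero, h1, h2, sub_self, map_zero]
      · refine le_trans ?_ (hfar p x x' F F' hx hx' hF hF' hFF)
        rw [div_le_one (by positivity)]
        have : (0 : ℝ) ≤ (p.2.2.2.1 : ℝ) := by positivity
        linarith

end

end Pool.Agent.Lib.WeakBorel
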